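import Pool.Agent.Helper88.CW.Pat
import Pool.Agent.PolyTime.Ints

/-!
The dynamic programme over constraint patterns, as a polynomial time function of the tokens of
the expression and of a padding string.
-/

namespace Pool.Agent.Helper88.CW

open Pool.Agent.PolyTime (PEnc PolyTime PBd size_le_of_forall size_cons size_nil size_mem_le
  size_pair size_prod size_nat_mono length_le_size size_nat_self pbd_length)

/-- Tokens. -/
abbrev Tok : Type := ℕ × ℕ × ℕ

/-- Tables: patterns with values. -/
abbrev Tab : Type := List (List ℕ × ℕ)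

/-- Context: colours, number of colours `K`, weight `X`, modulus minus one, patterns. -/
abbrev Ctx : Type := List ℕ × ℕ × ℕ × ℕ × List (List ℕ)

/-! ### lookup -/

/-- Lookup in a table. -/
def lkF (q : Tab × List ℕ) : ℕ :=
  ((q.1.find? (fun e => decide (e.1 = q.2))).map (fun e => e.2)).getD 0

@[fun_prop]
theorem pt_lkF : PolyTime lkF := by
  unfold lkF
  fun_prop

theorem lk_map (L : List (List ℕ)) (v : List ℕ → ℕ) (p : List ℕ) (hp : p ∈ L) :
    lkF (L.map (fun p => (p, v p)), p) = v p := by
  unfold lkF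
  induction L with
  | nil => simp at hp
  | cons a L ih =>
    rw [List.map_cons, List.find?_cons]
    by_cases ha : a = p
    · subst ha
      simp
    · have h1 : decide (a = p) = false := decide_eq_false ha
      dsimp only
      rw [h1]
      rcases List.mem_cons.1 hp with h2 | h2
      · exact absurd h2.symm ha
      · exact ih h2

/-! ### pieces -/

/-- `setp` on tuples. -/
def setF (q : List ℕ × ℕ × ℕ) : List ℕ := setp q.1 q.2.1 q.2.2

@[fun_prop]
theorem pt_setF : PolyTime setF := by
  unfold setF setp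
  fun_prop

/-- `mt` on tuples. -/
def mtF (q : ℕ × ℕ) : ℕ := mt q.1 q.2

@[fun_prop]
theorem pt_mtF : PolyTime mtF := by
  unfold mtF mt
  fun_prop

/-- The contribution of a common colour; input `(N, T, a, b, p, c)`. -/
def ddF (q : ℕ × Tab × ℕ × ℕ × List ℕ × ℕ) : ℕ :=
  lkF (q.2.1, setF (setF (q.2.2.2.2.1, q.2.2.1,
    mtF (q.2.2.2.2.1.getD q.2.2.1 0, q.2.2.2.2.2)), q.2.2.2.1,
      mtF (q.2.2.2.2.1.getD q.2.2.2.1 0, q.2.2.2.2.2))) +
  q.1 * lkF (q.2.1, setF (setF (q.2.2.2.2.1, q.2.2.1,
    mtF (q.2.2.2.2.1.getD q.2.2.1 0, q.2.2.2.2.2)), q.2.2.2.1, 1)) +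
  q.1 * lkF (q.2.1, setF (setF (q.2.2.2.2.1, q.2.2.1, 1), q.2.2.2.1,
      mtF (q.2.2.2.2.1.getD q.2.2.2.1 0, q.2.2.2.2.2))) +
  lkF (q.2.1, setF (setF (q.2.2.2.2.1, q.2.2.1, 1), q.2.2.2.1, 1))

@[fun_prop]
theorem pt_ddF : PolyTime ddF := by
  unfold ddF
  fun_prop

/-- The first free colour; input `(cols, p)`. -/
def freeF (q : List ℕ × List ℕ) : ℕ := (q.1.filter (fun c => !decide (c + 2 ∈ q.2))).headD 0

@[fun_prop]
theorem pt_freeF : PolyTime freeF := by
  unfold freeF
  fun_prop

/-- The value of a join; input `(x, T, a, b, p)`. -/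
def joinF (q : Ctx × Tab × ℕ × ℕ × List ℕ) : ℕ :=
  lkF (q.2.1, setF (q.2.2.2.2, q.2.2.1, 1)) + lkF (q.2.1, setF (q.2.2.2.2, q.2.2.2.1, 1)) +
  q.1.2.2.2.1 * lkF (q.2.1, setF (setF (q.2.2.2.2, q.2.2.1, 1), q.2.2.2.1, 1)) +
  (q.1.1.map (fun c => ddF (q.1.2.2.2.1, q.2.1, q.2.2.1, q.2.2.2.1, q.2.2.2.2, c))).sum +
  (q.1.2.1 - q.1.1.length) *
    ddF (q.1.2.2.2.1, q.2.1, q.2.2.1, q.2.2.2.1, q.2.2.2.2, freeF (q.1.1, q.2.2.2.2))

@[fun_prop]
theorem pt_joinF : PolyTime joinF := by
  unfold joinF
  fun_prop

/-- The value of a vertex; input `(x, a, p)`. -/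
def vertF (q : Ctx × ℕ × List ℕ) : ℕ :=
  1 + q.1.2.2.1 * (bif decide (q.2.2.getD q.2.1 0 = 0) then q.1.2.1 else
    bif decide (q.2.2.getD q.2.1 0 = 1) then 0 else 1)

@[fun_prop]
theorem pt_vertF : PolyTime vertF := by
  unfold vertF
  fun_prop

/-- The value of a relabelling; input `(T, a, b, p)`. -/
def relF (q : Tab × ℕ × ℕ × List ℕ) : ℕ :=
  lkF (q.1, setF (q.2.2.2, q.2.1, q.2.2.2.getD q.2.2.1 0))

@[fun_prop]
theorem pt_relF : PolyTime relF := by
  unfold relF
  fun_prop

/-- One step of the stack machine; input `(x, stack, token)`. -/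
def stepF (q : Ctx × List Tab × Tok) : List Tab :=
  bif decide (q.2.2.1 = 0) then
    (q.1.2.2.2.2.map (fun p => (p, vertF (q.1, q.2.2.2.1, p) % (q.1.2.2.2.1 + 1)))) :: q.2.1
  else bif decide (q.2.2.1 = 1) then
    (q.1.2.2.2.2.map (fun p => (p, (lkF (q.2.1.tail.headD [], p) * lkF (q.2.1.headD [], p)) %
      (q.1.2.2.2.1 + 1)))) :: q.2.1.tail.tail
  else bif decide (q.2.2.1 = 2) then
    (q.1.2.2.2.2.map (fun p => (p, joinF (q.1, q.2.1.headD [], q.2.2.2.1, q.2.2.2.2, p) %
      (q.1.2.2.2.1 + 1)))) :: q.2.1.tail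
  else
    (q.1.2.2.2.2.map (fun p => (p, relF (q.2.1.headD [], q.2.2.2.1, q.2.2.2.2, p) %
      (q.1.2.2.2.1 + 1)))) :: q.2.1.tail

@[fun_prop]
theorem pt_stepF : PolyTime stepF := by
  unfold stepF
  fun_prop

/-- Bound for the size of a table. -/
def tb (x : Ctx) : ℕ :=
  x.2.2.2.2.length * (2 * (2 * PolyTime.size x.2.2.2.2 + 1 + PolyTime.size x.2.2.2.1) + 1)

theorem size_tab (x : Ctx) (v : List ℕ → ℕ) :
    PolyTime.size (x.2.2.2.2.map (fun p => (p, v p % (x.2.2.2.1 + 1)))) ≤ tb x := by
  refine (size_le_of_forall (B := 2 * PolyTime.size x.2.2.2.2 + 1 + PolyTime.size x.2.2.2.1)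
    ?_).trans ?_
  · intro e he
    rw [List.mem_map] at he
    obtain ⟨p, hp, rfl⟩ := he
    rw [size_pair]
    have h1 := size_mem_le hp
    have h2 : PolyTime.size (v p % (x.2.2.2.1 + 1)) ≤ PolyTime.size x.2.2.2.1 :=
      size_nat_mono (Nat.lt_succ_iff.1 (Nat.mod_lt _ (Nat.succ_pos _)))
    omega
  · rw [List.length_map, tb]

theorem fold_bound (x : Ctx) : ∀ (l : List Tok) (S : List Tab), (∀ T ∈ S, PolyTime.size T ≤ tb x) →
    (∀ T ∈ l.foldl (fun S t => stepF (x, S, t)) S, PolyTime.size T ≤ tb x) ∧
    (l.foldl (fun S t => stepF (x, S, t)) S).length ≤ l.length + S.length := by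
  intro l
  induction l with
  | nil => intro S hS; exact ⟨hS, by simp⟩
  | cons t l ih =>
    intro S hS
    rw [List.foldl_cons]
    have hlen : (stepF (x, S, t)).length ≤ S.length + 1 := by
      unfold stepF
      dsimp only
      rcases Nat.decEq t.1 0 with h0 | h0
      · rw [decide_eq_false h0, cond_false]
        rcases Nat.decEq t.1 1 with h1 | h1
        · rw [decide_eq_false h1, cond_false]
          rcases Nat.decEq t.1 2 with h2 | h2
          · rw [decide_eq_false h2, cond_false]
            simp only [List.length_cons, List.length_tail]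
            omega
          · rw [decide_eq_true h2, cond_true]
            simp only [List.length_cons, List.length_tail]
            omega
        · rw [decide_eq_true h1, cond_true]
          simp only [List.length_cons, List.length_tail]
          omega
      · rw [decide_eq_true h0, cond_true]
        simp only [List.length_cons]
        omega
    have hmem : ∀ T ∈ stepF (x, S, t), PolyTime.size T ≤ tb x := by
      intro T hT
      unfold stepF at hT
      dsimp only at hT
      rcases Nat.decEq t.1 0 with h0 | h0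
      · rw [decide_eq_false h0, cond_false] at hT
        rcases Nat.decEq t.1 1 with h1 | h1
        · rw [decide_eq_false h1, cond_false] at hT
          rcases Nat.decEq t.1 2 with h2 | h2
          · rw [decide_eq_false h2, cond_false] at hT
            rcases List.mem_cons.1 hT with rfl | hT
            · exact size_tab x _
            · exact hS T (List.mem_of_mem_tail hT)
          · rw [decide_eq_true h2, cond_true] at hT
            rcases List.mem_cons.1 hT with rfl | hT
            · exact size_tab x _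
            · exact hS T (List.mem_of_mem_tail hT)
        · rw [decide_eq_true h1, cond_true] at hT
          rcases List.mem_cons.1 hT with rfl | hT
          · exact size_tab x _
          · exact hS T (List.mem_of_mem_tail (List.mem_of_mem_tail hT))
      · rw [decide_eq_true h0, cond_true] at hT
        rcases List.mem_cons.1 hT with rfl | hT
        · exact size_tab x _
        · exact hS T hT
    obtain ⟨h1, h2⟩ := ih _ hmem
    refine ⟨h1, h2.trans ?_⟩
    rw [List.length_cons]
    omega

/-- The stack machine. -/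
def runF (q : Ctx × List Tok) : List Tab := q.2.foldl (fun S t => stepF (q.1, S, t)) []

@[fun_prop]
theorem pt_runF : PolyTime runF := by
  unfold runF
  refine PolyTime.foldl (l := fun q : Ctx × List Tok => q.2) (s := fun _ => ([] : List Tab))
    (h := fun q S t => stepF (q.1, S, t)) (by fun_prop) (by fun_prop) (by fun_prop)
    (B := fun q => q.2.length * (2 * tb q.1 + 1)) ?_ ?_
  · have h1 : PBd (fun q : Ctx × List Tok => q.2.length) := pbd_length (by fun_prop)
    have h2 : PBd (fun q : Ctx × List Tok => q.1.2.2.2.2.length) := pbd_length (by fun_prop)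
    have h3 : PBd (fun q : Ctx × List Tok => PolyTime.size q.1.2.2.2.2) :=
      PolyTime.pbd (f := fun q : Ctx × List Tok => q.1.2.2.2.2) (by fun_prop)
    have h4 : PBd (fun q : Ctx × List Tok => PolyTime.size q.1.2.2.2.1) :=
      PolyTime.pbd (f := fun q : Ctx × List Tok => q.1.2.2.2.1) (by fun_prop)
    have h5 : PBd (fun q : Ctx × List Tok => tb q.1) := by
      unfold tb
      exact h2.mul (((PBd.const 2).mul ((((PBd.const 2).mul h3).add (PBd.const 1)).add h4)).add
        (PBd.const 1))
    exact h1.mul (((PBd.const 2).mul h5).add (PBd.const 1))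
  · intro q i
    obtain ⟨h1, h2⟩ := fold_bound q.1 (q.2.take i) [] (fun T hT => by simp at hT)
    refine (size_le_of_forall h1).trans (Nat.mul_le_mul_right _ ?_)
    refine h2.trans ?_
    rw [List.length_nil, add_zero, List.length_take]
    exact min_le_right _ _

/-! ### patterns -/

/-- One step of the generation of the patterns; `R` is the list of the entries. -/
def patStep (R : List ℕ) (B : ℕ) (L : List (List ℕ)) : List (List ℕ) :=
  (L.flatMap (fun p => R.map (fun c => c :: p))).take B

theorem patStep_inv (R : List ℕ) (B i : ℕ) :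
    ((patStep R B)^[i] [[]]).length ≤ B + 1 ∧
    ∀ p ∈ (patStep R B)^[i] [[]], p.length = i ∧ ∀ c ∈ p, c ∈ R := by
  induction i with
  | zero => simp
  | succ i ih =>
    rw [Function.iterate_succ_apply']
    constructor
    · unfold patStep
      rw [List.length_take]
      exact (min_le_left _ _).trans (Nat.le_succ _)
    · intro p hp
      unfold patStep at hp
      have hp' := List.mem_of_mem_take hp
      rw [List.mem_flatMap] at hp'
      obtain ⟨p', hp', h1⟩ := hp'
      rw [List.mem_map] at h1
      obtain ⟨c, hc, rfl⟩ := h1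
      obtain ⟨h2, h3⟩ := ih.2 p' hp'
      refine ⟨by rw [List.length_cons, h2], fun d hd => ?_⟩
      rcases List.mem_cons.1 hd with rfl | hd
      · exact hc
      · exact h3 d hd

/-- The patterns; input `(R, n, pad)`. -/
def patsF (q : List ℕ × List Unit × List Unit) : List (List ℕ) :=
  (patStep q.1 q.2.2.length)^[q.2.1.length] [[]]

@[fun_prop]
theorem pt_patsF : PolyTime patsF := by
  unfold patsF
  refine PolyTime.iterate (f := fun (q : List ℕ × List Unit × List Unit) L =>
    patStep q.1 q.2.2.length L) (n := fun q => q.2.1.length) (g := fun _ => [[]])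
    ?_ (by fun_prop) (pbd_length (by fun_prop)) (PolyTime.const _)
    (B := fun q => (q.2.2.length + 1) *
      (2 * (q.2.1.length * (2 * PolyTime.size q.1 + 1)) + 1)) ?_ ?_
  · unfold patStep
    fun_prop
  · have h1 : PBd (fun q : List ℕ × List Unit × List Unit => q.2.2.length) :=
      pbd_length (by fun_prop)
    have h2 : PBd (fun q : List ℕ × List Unit × List Unit => q.2.1.length) :=
      pbd_length (by fun_prop)
    have h3 : PBd (fun q : List ℕ × List Unit × List Unit => PolyTime.size q.1) :=
      PolyTime.pbd (f := fun q : List ℕ × List Unit × List Unit => q.1) (by fun_prop)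
    exact (h1.add (PBd.const 1)).mul (((PBd.const 2).mul (h2.mul (((PBd.const 2).mul h3).add
      (PBd.const 1)))).add (PBd.const 1))
  · intro q i hi
    obtain ⟨h1, h2⟩ := patStep_inv q.1 q.2.2.length i
    refine (size_le_of_forall (B := q.2.1.length * (2 * PolyTime.size q.1 + 1)) ?_).trans
      (Nat.mul_le_mul_right _ h1)
    intro p hp
    obtain ⟨h3, h4⟩ := h2 p hp
    refine (size_le_of_forall (B := PolyTime.size q.1) (fun c hc => size_mem_le (h4 c hc))).trans ?_
    rw [h3]
    exact Nat.mul_le_mul_right _ hi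

/-! ### the algorithm -/

/-- The largest label plus one. -/
def widthF (t : List Tok) : ℕ := (t.map (fun x => max x.2.1 x.2.2)).foldr (fun a b => max a b) 0 + 1

theorem foldr_max_le (L : List ℕ) (B : ℕ) (h : ∀ a ∈ L, PolyTime.size a ≤ B) :
    PolyTime.size (L.foldr (fun a b => max a b) 0) ≤ B := by
  induction L with
  | nil => simp [Pool.Agent.PolyTime.size_nat]
  | cons a L ih =>
    rw [List.foldr_cons]
    rcases max_choice a (L.foldr (fun a b => max a b) 0) with h1 | h1
    · rw [h1]
      exact h a (by simp)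
    · rw [h1]
      exact ih (fun b hb => h b (List.mem_cons_of_mem _ hb))

@[fun_prop]
theorem pt_widthF : PolyTime widthF := by
  unfold widthF
  have h1 : PolyTime (fun t : List Tok => t.map (fun x => max x.2.1 x.2.2)) := by fun_prop
  have h2 : PolyTime (fun t : List Tok =>
      (t.map (fun x => max x.2.1 x.2.2)).foldr (fun a b => max a b) 0) := by
    refine PolyTime.foldr (l := fun t : List Tok => t.map (fun x => max x.2.1 x.2.2))
      (s := fun _ => 0) (h := fun _ a b => max a b) h1 (by fun_prop) (by fun_prop)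
      (B := fun t => PolyTime.size (t.map (fun x => max x.2.1 x.2.2))) h1.pbd ?_
    intro t i
    exact foldr_max_le _ _ (fun a ha => size_mem_le (List.mem_of_mem_drop ha))
  fun_prop

/-- Input: tokens and padding. -/
abbrev Inp : Type := List Tok × List Unit

/-- The number of labels, truncated. -/
def kU (q : Inp) : ℕ := min (widthF q.1) q.2.length

@[fun_prop]
theorem pt_kU : PolyTime kU := by
  unfold kU
  fun_prop

theorem pbd_kU : PBd kU :=
  (pbd_length (l := fun q : Inp => q.2) (by fun_prop)).mono (fun _ => min_le_right _ _)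

/-- The number of vertices. -/
def nU (q : Inp) : ℕ := (q.1.filter (fun x => decide (x.1 = 0))).length

@[fun_prop]
theorem pt_nU : PolyTime nU := by
  unfold nU
  fun_prop

theorem pbd_nU : PBd nU := by
  have h : PolyTime (fun q : Inp => q.1.filter (fun x : Tok => decide (x.1 = 0))) := by fun_prop
  exact pbd_length h

/-- The number of colours. -/
def bigK (q : Inp) : ℕ := 2 ^ (nU q + 1) * (kU q + 2)

@[fun_prop]
theorem pt_bigK : PolyTime bigK := by
  unfold bigK
  have h : PolyTime (fun q : Inp => 2 ^ (nU q + 1)) :=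
    PolyTime.pow (by fun_prop) (by fun_prop) (pbd_nU.add (PBd.const 1))
  fun_prop

/-- The weight. -/
def bigX (q : Inp) : ℕ := bigK q ^ (nU q + 1)

@[fun_prop]
theorem pt_bigX : PolyTime bigX := by
  unfold bigX
  exact PolyTime.pow (by fun_prop) (by fun_prop) (pbd_nU.add (PBd.const 1))

/-- The modulus. -/
def bigM (q : Inp) : ℕ := bigX q ^ (nU q + 1)

@[fun_prop]
theorem pt_bigM : PolyTime bigM := by
  unfold bigM
  exact PolyTime.pow (by fun_prop) (by fun_prop) (pbd_nU.add (PBd.const 1))

/-- The context. -/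
def ctxF (q : Inp) : Ctx :=
  (List.range (kU q + 1), bigK q, bigX q, bigM q - 1,
    patsF (List.range (kU q + 3), List.replicate (kU q) (), q.2))

@[fun_prop]
theorem pt_ctxF : PolyTime ctxF := by
  unfold ctxF
  have h1 : PolyTime (fun q : Inp => List.range (kU q + 1)) :=
    PolyTime.range (by fun_prop) (pbd_kU.add (PBd.const 1))
  have h2 : PolyTime (fun q : Inp => List.range (kU q + 3)) :=
    PolyTime.range (by fun_prop) (pbd_kU.add (PBd.const 3))
  have h3 : PolyTime (fun q : Inp => List.replicate (kU q) ()) :=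
    PolyTime.replicate (by fun_prop) pbd_kU (by fun_prop)
  fun_prop

/-- The value of the polynomial. -/
def valF (q : Inp) : ℕ :=
  lkF ((runF (ctxF q, q.1)).headD [], List.replicate (kU q) 0)

@[fun_prop]
theorem pt_valF : PolyTime valF := by
  unfold valF
  have h3 : PolyTime (fun q : Inp => List.replicate (kU q) (0 : ℕ)) :=
    PolyTime.replicate (by fun_prop) pbd_kU (by fun_prop)
  fun_prop

/-- A coefficient; input `(q, i, j)`. -/
def coefF (q : Inp × ℕ × ℕ) : ℕ :=
  (valF q.1 / bigX q.1 ^ (min q.2.1 (nU q.1)) % bigX q.1) / bigK q.1 ^ (min q.2.2 (nU q.1)) %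
    bigK q.1

@[fun_prop]
theorem pt_coefF : PolyTime coefF := by
  unfold coefF
  have hb : PBd (fun q : Inp × ℕ × ℕ => nU q.1) := PBd.comp pbd_nU (by fun_prop)
  have h1 : PolyTime (fun q : Inp × ℕ × ℕ => bigX q.1 ^ (min q.2.1 (nU q.1))) :=
    PolyTime.pow (by fun_prop) (by fun_prop) (hb.mono (fun _ => min_le_right _ _))
  have h2 : PolyTime (fun q : Inp × ℕ × ℕ => bigK q.1 ^ (min q.2.2 (nU q.1))) :=
    PolyTime.pow (by fun_prop) (by fun_prop) (hb.mono (fun _ => min_le_right _ _))
  fun_prop

/-- The algorithm. -/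
def algF (q : Inp) : List (List ℕ) :=
  (List.range (nU q + 1)).map (fun i => (List.range (nU q + 1)).map (fun j => coefF (q, i, j)))

theorem pt_algF : PolyTime algF := by
  unfold algF
  have h1 : PolyTime (fun q : Inp => List.range (nU q + 1)) :=
    PolyTime.range (by fun_prop) (pbd_nU.add (PBd.const 1))
  have h2 : PolyTime (fun p : Inp × ℕ => (List.range (nU p.1 + 1)).map
      (fun j => coefF (p.1, p.2, j))) := by
    have h3 : PolyTime (fun p : Inp × ℕ => List.range (nU p.1 + 1)) :=
      PolyTime.comp (f := fun p : Inp × ℕ => p.1) h1 (by fun_prop)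
    exact PolyTime.map (g := fun (p : Inp × ℕ) j => coefF (p.1, p.2, j)) h3 (by fun_prop)
  exact PolyTime.map (g := fun q i => (List.range (nU q + 1)).map (fun j => coefF (q, i, j))) h1 h2

end Pool.Agent.Helper88.CW
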