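import Pool.Agent.Helper88.CW.Reg

/-!
At `x = -1` the weighted sum of a register program counts proper colourings.
-/

namespace Pool.Agent.Helper88.CW

open Finset Function

namespace KExpr

variable {K : ℕ}

theorem ss_none : ss (none : Option (Fin K)) = ∅ := by
  ext c
  simp [ss]

theorem ss_some (c : Fin K) : ss (some c) = {c} := by
  ext d
  simp [ss, eq_comm]

open Classical in
theorem fac_eq (X : Set (Fin K)) :
    fac (-1) X = 1 - ∑ c : Fin K, if ∀ d ∈ X, c = d then 1 else 0 := by
  unfold fac
  rw [Fintype.sum_option, ss_none]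
  have h1 : ∀ c : Fin K, wt (-1) (some c) * (if ∀ c' ∈ ss (some c), ∀ d ∈ X, c' = d then (1 : ℤ)
      else 0) = - (if ∀ d ∈ X, c = d then 1 else 0) := by
    intro c
    rw [ss_some]
    by_cases h : ∀ d ∈ X, c = d
    · rw [if_pos h, if_pos (by rintro c' rfl; exact h)]
      simp [wt]
    · rw [if_neg h, if_neg (fun h' => h (h' c rfl))]
      simp
  rw [Finset.sum_congr rfl (fun c _ => h1 c), Finset.sum_neg_distrib]
  simp [wt]
  ring

theorem fac_empty : fac (-1) (∅ : Set (Fin K)) = 1 - K := by
  rw [fac_eq]
  simp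

open Classical in
theorem fac_singleton (c : Fin K) : fac (-1) ({c} : Set (Fin K)) = 0 := by
  rw [fac_eq]
  simp

open Classical in
theorem fac_pair {c d : Fin K} (h : c ≠ d) : fac (-1) ({c} ∪ {d} : Set (Fin K)) = 1 := by
  rw [fac_eq]
  have h1 : ∀ a : Fin K, ¬ (∀ b ∈ ({c} ∪ {d} : Set (Fin K)), a = b) := by
    intro a ha
    have h2 := ha c (Or.inl rfl)
    have h3 := ha d (Or.inr rfl)
    exact h (h2.symm.trans h3)
  rw [sub_eq_self]
  refine Finset.sum_eq_zero (fun a _ => ?_)
  rw [if_neg (h1 a)]

theorem sem_none : ∀ (P : List (ℕ × List ℕ)) (_ : ∀ p ∈ P, p.2 ≠ []),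
    sem (-1) P (fun _ => (∅ : Set (Fin K))) = (1 - K) ^ (P.map (fun p => p.2.length)).sum := by
  intro P
  induction P with
  | nil =>
    intro _
    simp [sem]
  | cons p P ih =>
    intro h
    obtain ⟨r, as⟩ := p
    have has : as ≠ [] := h (r, as) (by simp)
    have ih' := ih (fun p hp => h p (List.mem_cons_of_mem _ hp))
    unfold sem semStep
    rw [Fintype.sum_option]
    have h1 : update (fun _ : ℕ => (∅ : Set (Fin K))) r (ss none) = fun _ => ∅ := by
      rw [ss_none]
      exact update_eq_self r _
    have h2 : ∀ c : Fin K, (as.map (fun a => fac (-1) (update (fun _ : ℕ => (∅ : Set (Fin K))) r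
        (ss (some c)) r ∪ update (fun _ : ℕ => (∅ : Set (Fin K))) r (ss (some c)) a))).prod
        = 0 := by
      intro c
      cases as with
      | nil => exact absurd rfl has
      | cons a as =>
        rw [List.map_cons, List.prod_cons]
        have h3 : update (fun _ : ℕ => (∅ : Set (Fin K))) r (ss (some c)) r ∪
            update (fun _ : ℕ => (∅ : Set (Fin K))) r (ss (some c)) a = {c} := by
          rw [update_self, ss_some]
          by_cases har : a = r
          · subst har
            rw [update_self, Set.union_self]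
          · rw [update_of_ne har, Set.union_empty]
        rw [h3, fac_singleton, zero_mul]
    simp only [h1, h2, zero_mul, mul_zero, Finset.sum_const_zero, add_zero, Set.union_empty,
      fac_empty]
    rw [ih']
    simp [wt, List.map_const', pow_add]

/-- Well-formedness: every new vertex is joined to at least one vertex, and only to contents of
other registers that are in use. -/
def WF : List (ℕ × List ℕ) → Set ℕ → Prop
  | [], _ => True
  | p :: P, U => p.2 ≠ [] ∧ (∀ a ∈ p.2, a ∈ U ∧ a ≠ p.1) ∧ WF P (insert p.1 U)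

/-- Number of proper colourings. -/
def cnt (K : ℕ) : List (ℕ × List ℕ) → (ℕ → Fin K) → ℕ
  | [], _ => 1
  | p :: P, g => ∑ c : Fin K, if ∀ a ∈ p.2, c ≠ g a then cnt K P (update g p.1 c) else 0

/-- Existence of a proper colouring. -/
def Run {K : ℕ} : List (ℕ × List ℕ) → (ℕ → Fin K) → Prop
  | [], _ => True
  | p :: P, g => ∃ c : Fin K, (∀ a ∈ p.2, c ≠ g a) ∧ Run P (update g p.1 c)

theorem cnt_ne_zero : ∀ (P : List (ℕ × List ℕ)) (g : ℕ → Fin K), cnt K P g ≠ 0 ↔ Run P g := by
  intro P
  induction P with
  | nil =>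
    intro g
    simp [cnt, Run]
  | cons p P ih =>
    intro g
    unfold cnt Run
    rw [Ne, Finset.sum_eq_zero_iff, not_forall]
    constructor
    · rintro ⟨c, hc⟩
      rw [Classical.not_imp] at hc
      have h2 := hc.2
      by_cases h : ∀ a ∈ p.2, c ≠ g a
      · rw [if_pos h] at h2
        exact ⟨c, h, (ih _).1 h2⟩
      · rw [if_neg h] at h2
        exact absurd rfl h2
    · rintro ⟨c, h, h2⟩
      refine ⟨c, ?_⟩
      rw [Classical.not_imp]
      refine ⟨Finset.mem_univ _, ?_⟩
      rw [if_pos h]
      exact (ih _).2 h2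

theorem prod_fac (as : List ℕ) (R : ℕ → Set (Fin K)) (g : ℕ → Fin K) (X : Set (Fin K))
    (h : ∀ a ∈ as, R a = {g a}) (c : Fin K) (hX : X = {c}) :
    (as.map (fun a => fac (-1) (X ∪ R a))).prod = if ∀ a ∈ as, c ≠ g a then 1 else 0 := by
  subst hX
  induction as with
  | nil => simp
  | cons a as ih =>
    rw [List.map_cons, List.prod_cons, ih (fun b hb => h b (List.mem_cons_of_mem _ hb)),
      h a (by simp)]
    by_cases hc : c = g a
    · rw [← hc, Set.union_self, fac_singleton, zero_mul, if_neg]
      intro h2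
      exact h2 a (by simp) hc
    · rw [fac_pair hc, one_mul]
      by_cases h3 : ∀ a ∈ as, c ≠ g a
      · rw [if_pos h3, if_pos]
        intro b hb
        rcases List.mem_cons.1 hb with rfl | hb
        · exact hc
        · exact h3 b hb
      · rw [if_neg h3, if_neg]
        intro h4
        exact h3 (fun b hb => h4 b (List.mem_cons_of_mem _ hb))

theorem sem_some : ∀ (P : List (ℕ × List ℕ)) (U : Set ℕ) (_ : WF P U) (R : ℕ → Set (Fin K))
    (g : ℕ → Fin K) (_ : ∀ a ∈ U, R a = {g a}),
    sem (-1) P R = (-1) ^ P.length * (cnt K P g : ℤ) := by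
  intro P
  induction P with
  | nil =>
    intro U _ R g _
    simp [sem, cnt]
  | cons p P ih =>
    intro U hU R g hR
    obtain ⟨r, as⟩ := p
    obtain ⟨h1, h2, h3⟩ := hU
    dsimp only at h1 h2 h3
    unfold sem semStep
    rw [Fintype.sum_option]
    have h4 : (as.map (fun a => fac (-1) (update R r (ss none) r ∪
        update R r (ss none) a))).prod = 0 := by
      cases as with
      | nil => exact absurd rfl h1
      | cons a as =>
        rw [List.map_cons, List.prod_cons, update_self, ss_none, Set.empty_union,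
          update_of_ne (h2 a (by simp)).2, hR a (h2 a (by simp)).1, fac_singleton, zero_mul]
    have h5 : ∀ c : Fin K, (as.map (fun a => fac (-1) (update R r (ss (some c)) r ∪
        update R r (ss (some c)) a))).prod = if ∀ a ∈ as, c ≠ g a then 1 else 0 := by
      intro c
      have h6 := prod_fac as (update R r (ss (some c))) g (update R r (ss (some c)) r) (by
        intro a ha
        rw [update_of_ne (h2 a ha).2]
        exact hR a (h2 a ha).1) c (by rw [update_self, ss_some])
      exact h6
    have h7 : ∀ c : Fin K, sem (-1) P (update R r (ss (some c))) =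
        (-1) ^ P.length * (cnt K P (update g r c) : ℤ) := by
      intro c
      refine ih (insert r U) h3 _ _ ?_
      intro a ha
      by_cases har : a = r
      · subst har
        rw [update_self, update_self, ss_some]
      · rw [update_of_ne har, update_of_ne har]
        rcases ha with ha | ha
        · exact absurd ha har
        · exact hR a ha
    dsimp only
    rw [h4, zero_mul, mul_zero, zero_add]
    have h8 : ∀ c : Fin K, wt (-1) (some c) * ((as.map (fun a => fac (-1)
        (update R r (ss (some c)) r ∪ update R r (ss (some c)) a))).prod *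
        sem (-1) P (update R r (ss (some c)))) =
        (-1) ^ (P.length + 1) * (if ∀ a ∈ as, c ≠ g a then (cnt K P (update g r c) : ℤ) else 0) := by
      intro c
      rw [h5, h7]
      have : wt (-1) (some c) = -1 := by simp [wt]
      rw [this]
      by_cases h9 : ∀ a ∈ as, c ≠ g a
      · rw [if_pos h9, if_pos h9]
        ring
      · rw [if_neg h9, if_neg h9]
        ring
    rw [Finset.sum_congr rfl (fun c _ => h8 c), ← Finset.mul_sum]
    rw [cnt]
    push_cast
    rfl

/-- The value at `x = -1` of a register program. -/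
theorem Z_progE_neg_one (P : List (ℕ × List ℕ)) (hP : WF P {0}) (g : ℕ → Fin K) :
    Z (-1) (progE P) (fun _ : ℕ → Set (Fin K) => 1) = (1 - K) *
      ((1 - K) ^ (P.map (fun p => p.2.length)).sum -
        (-1) ^ P.length * ∑ c : Fin K, (cnt K P (update g 0 c) : ℤ)) := by
  rw [Z_progE]
  have h0 : ∀ (P : List (ℕ × List ℕ)) (U : Set ℕ), WF P U → ∀ p ∈ P, p.2 ≠ [] := by
    intro P
    induction P with
    | nil => intro U _ p hp; simp at hp
    | cons q P ih =>
      intro U hU p hp
      rcases List.mem_cons.1 hp with rfl | hp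
      · exact hU.1
      · exact ih _ hU.2.2 p hp
  have h1 : update (fun _ : ℕ => (∅ : Set (Fin K))) 0 (ss none) = fun _ => ∅ := by
    rw [ss_none]
    exact update_eq_self 0 _
  rw [Fintype.sum_option, h1, sem_none P (h0 P _ hP)]
  have h2 : ∀ c : Fin K, wt (-1) (some c) * sem (-1) P (update (fun _ => ∅) 0 (ss (some c))) =
      - ((-1) ^ P.length * (cnt K P (update g 0 c) : ℤ)) := by
    intro c
    rw [sem_some P {0} hP _ (update g 0 c)]
    · simp [wt]
    · intro a ha
      have : a = 0 := ha
      subst this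
      rw [update_self, update_self, ss_some]
  rw [Finset.sum_congr rfl (fun c _ => h2 c), Finset.sum_neg_distrib, ← Finset.mul_sum]
  have h3 : wt (-1) (none : Option (Fin K)) = 1 := by simp [wt]
  rw [h3]
  ring

/-- The test for colourability. -/
theorem run_iff (P : List (ℕ × List ℕ)) (hP : WF P {0}) (g : ℕ → Fin K) (hK : 2 ≤ K) :
    (∃ c : Fin K, Run P (update g 0 c)) ↔
      Z (-1) (progE P) (fun _ : ℕ → Set (Fin K) => 1) ≠
        (1 - K : ℤ) ^ ((P.map (fun p => p.2.length)).sum + 1) := by
  rw [Z_progE_neg_one P hP g]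
  have h1 : (1 - K : ℤ) ≠ 0 := by
    have : (2 : ℤ) ≤ K := by exact_mod_cast hK
    omega
  have h2 : (1 - K : ℤ) * ((1 - K) ^ (P.map (fun p => p.2.length)).sum -
        (-1) ^ P.length * ∑ c : Fin K, (cnt K P (update g 0 c) : ℤ)) ≠
        (1 - K : ℤ) ^ ((P.map (fun p => p.2.length)).sum + 1) ↔
        (∑ c : Fin K, (cnt K P (update g 0 c) : ℤ)) ≠ 0 := by
    rw [pow_succ']
    rw [Ne, Ne, not_iff_not, mul_right_inj' h1, sub_eq_self, mul_eq_zero]
    constructor
    · rintro (h | h)
      · exact absurd h (pow_ne_zero _ (by norm_num))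
      · exact h
    · exact Or.inr
  rw [h2]
  have h3 : (∑ c : Fin K, (cnt K P (update g 0 c) : ℤ)) ≠ 0 ↔
      (∑ c : Fin K, cnt K P (update g 0 c)) ≠ 0 := by
    rw [← Nat.cast_sum]
    exact Nat.cast_ne_zero
  rw [h3, Ne, Finset.sum_eq_zero_iff, not_forall]
  constructor
  · rintro ⟨c, hc⟩
    refine ⟨c, ?_⟩
    rw [Classical.not_imp]
    exact ⟨Finset.mem_univ _, (cnt_ne_zero _ _).2 hc⟩
  · rintro ⟨c, hc⟩
    rw [Classical.not_imp] at hc
    exact ⟨c, (cnt_ne_zero _ _).1 hc.2⟩

end KExpr

end Pool.Agent.Helper88.CW
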