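import Pool.Agent.Helper88.CW.Sat

/-!
Tokens of register programs, the evaluation of the coefficient table, and the size of the table.
-/

namespace Pool.Agent.Helper88.CW

open Finset Function KExpr
open Pool.Agent.PolyTime (PEnc PolyTime PBd)

/-! ### tokens -/

/-- Tokens of `newE`. -/
def newT (r : ℕ) : List (ℕ × ℕ × ℕ) := [(3, r + 2, 0), (0, r + 2, 0), (1, 0, 0)]

/-- Tokens of `edgeE`. -/
def edgeT (r s : ℕ) : List (ℕ × ℕ × ℕ) :=
  [(0, 1, 0), (1, 0, 0), (2, 1, r + 2), (2, 1, s + 2), (3, 1, 0)]

/-- Tokens of `progE`. -/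
def tokP (P : List (ℕ × List ℕ)) : List (ℕ × ℕ × ℕ) :=
  (0, 0, 0) :: (newT 0 ++ P.flatMap (fun p => newT p.1 ++ p.2.flatMap (fun s => edgeT p.1 s)))

theorem tok_newE (r : ℕ) (e : KExpr) : (newE r e).tok = e.tok ++ newT r := by
  simp [newE, newT, tok]

theorem tok_edgeE (r s : ℕ) (e : KExpr) : (edgeE r s e).tok = e.tok ++ edgeT r s := by
  simp [edgeE, edgeT, tok]

theorem tok_stepE (e : KExpr) (p : ℕ × List ℕ) :
    (stepE e p).tok = e.tok ++ (newT p.1 ++ p.2.flatMap (fun s => edgeT p.1 s)) := by
  unfold stepE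
  have key : ∀ (L : List ℕ) (e : KExpr), (L.foldl (fun e s => edgeE p.1 s e) e).tok =
      e.tok ++ L.flatMap (fun s => edgeT p.1 s) := by
    intro L
    induction L with
    | nil => intro e; simp
    | cons a L ih =>
      intro e
      rw [List.foldl_cons, ih, tok_edgeE, List.flatMap_cons, List.append_assoc]
  rw [key, tok_newE, List.append_assoc]

theorem tok_progE (P : List (ℕ × List ℕ)) : (progE P).tok = tokP P := by
  unfold progE tokP
  have key : ∀ (P : List (ℕ × List ℕ)) (e : KExpr), (P.foldl stepE e).tok =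
      e.tok ++ P.flatMap (fun p => newT p.1 ++ p.2.flatMap (fun s => edgeT p.1 s)) := by
    intro P
    induction P with
    | nil => intro e; simp
    | cons p P ih =>
      intro e
      rw [List.foldl_cons, ih, tok_stepE, List.flatMap_cons, List.append_assoc]
  rw [key, tok_newE]
  simp [tok]

theorem pt_tokP : PolyTime tokP := by
  unfold tokP newT edgeT
  fun_prop

/-! ### evaluation -/

/-- The sign. -/
def sgn (i : ℕ) : ℤ := bif decide (i % 2 = 0) then 1 else -1

theorem sgn_eq (i : ℕ) : sgn i = (-1) ^ i := by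
  unfold sgn
  rcases Nat.even_or_odd i with h | h
  · rw [h.neg_one_pow, Nat.even_iff.1 h]
    rfl
  · rw [h.neg_one_pow, Nat.odd_iff.1 h]
    rfl

/-- The value of a row. -/
def evalRow (K : ℕ) (row : List ℕ) : ℕ :=
  (row.zipIdx.map (fun cj => cj.1 * K ^ (min cj.2 row.length))).sum

/-- The value of a table. -/
def evalT (K : ℕ) (t : List (List ℕ)) : ℤ :=
  (t.zipIdx.map (fun ri => sgn ri.2 * (evalRow K ri.1 : ℤ))).sum

theorem zipIdx_map_range {α : Type} (f : ℕ → α) (n : ℕ) :
    ((List.range n).map f).zipIdx = (List.range n).map (fun i => (f i, i)) := by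
  apply List.ext_getElem
  · simp
  · intro i h1 h2
    simp

theorem sum_map_range {M : Type} [AddCommMonoid M] (f : ℕ → M) (n : ℕ) :
    ((List.range n).map f).sum = ∑ i ∈ range n, f i := by
  rw [← List.sum_toFinset f List.nodup_range, List.toFinset_range]

theorem evalRow_map (K n : ℕ) (f : ℕ → ℕ) :
    evalRow K ((List.range n).map f) = ∑ j ∈ range n, f j * K ^ j := by
  unfold evalRow
  rw [zipIdx_map_range, List.map_map, sum_map_range]
  refine Finset.sum_congr rfl (fun j hj => ?_)
  rw [Finset.mem_range] at hj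
  dsimp only [Function.comp]
  rw [List.length_map, List.length_range, min_eq_left hj.le]

theorem evalT_table (K : ℕ) (e : KExpr) :
    evalT K e.table = Z (-1) e (fun _ : ℕ → Set (Fin K) => 1) := by
  rw [Z_one]
  unfold evalT table
  rw [zipIdx_map_range, List.map_map, sum_map_range]
  refine Finset.sum_congr rfl (fun i _ => ?_)
  dsimp only [Function.comp]
  rw [evalRow_map, sgn_eq]
  push_cast
  rw [Finset.mul_sum]
  refine Finset.sum_congr rfl (fun j _ => ?_)
  ring

theorem pt_evalRow : PolyTime (fun p : ℕ × List ℕ => evalRow p.1 p.2) := by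
  unfold evalRow
  refine PolyTime.sum (PolyTime.map (l := fun p : ℕ × List ℕ => p.2.zipIdx)
    (g := fun p cj => cj.1 * p.1 ^ (min cj.2 p.2.length)) (by fun_prop) ?_)
  have h : PolyTime (fun p : (ℕ × List ℕ) × (ℕ × ℕ) => p.1.1 ^ (min p.2.2 p.1.2.length)) := by
    refine PolyTime.pow (by fun_prop) (by fun_prop) ?_
    refine (Pool.Agent.PolyTime.pbd_length (l := fun p : (ℕ × List ℕ) × (ℕ × ℕ) => p.1.2)
      (by fun_prop)).mono (fun p => min_le_right _ _)
  fun_prop

theorem pt_evalT : PolyTime (fun p : ℕ × List (List ℕ) => evalT p.1 p.2) := by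
  unfold evalT sgn
  refine PolyTime.int_sum (PolyTime.map (l := fun p : ℕ × List (List ℕ) => p.2.zipIdx)
    (g := fun p ri => (bif decide (ri.2 % 2 = 0) then (1 : ℤ) else -1) *
      (evalRow p.1 ri.1 : ℤ)) (by fun_prop) ?_)
  have h : PolyTime (fun p : (ℕ × List (List ℕ)) × (List ℕ × ℕ) => evalRow p.1.1 p.2.1) :=
    PolyTime.comp (f := fun p : (ℕ × List (List ℕ)) × (List ℕ × ℕ) => (p.1.1, p.2.1))
      pt_evalRow (by fun_prop)
  fun_prop

/-- Number of edges of the skeleton. -/
def edges (P : List (ℕ × List ℕ)) : ℕ := (P.map (fun p => p.2.length)).sum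

theorem edges_le (P : List (ℕ × List ℕ)) : edges P ≤ PolyTime.size P := by
  unfold edges
  induction P with
  | nil => simp
  | cons p P ih =>
    rw [List.map_cons, List.sum_cons, Pool.Agent.PolyTime.size_cons,
      Pool.Agent.PolyTime.size_prod]
    have := Pool.Agent.PolyTime.length_le_size p.2
    omega

theorem pt_edges : PolyTime edges := by
  unfold edges
  fun_prop

/-- The final test. -/
def testP (K : ℕ) (P : List (ℕ × List ℕ)) (t : List (List ℕ)) : Bool :=
  !decide (evalT K t = sgn (edges P + 1) * (((K - 1) ^ (edges P + 1) : ℕ) : ℤ))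

theorem pt_testP : PolyTime (fun p : ℕ × List (ℕ × List ℕ) × List (List ℕ) =>
    testP p.1 p.2.1 p.2.2) := by
  unfold testP sgn
  have h1 : PolyTime (fun p : ℕ × List (ℕ × List ℕ) × List (List ℕ) => evalT p.1 p.2.2) :=
    PolyTime.comp (f := fun p : ℕ × List (ℕ × List ℕ) × List (List ℕ) => (p.1, p.2.2))
      pt_evalT (by fun_prop)
  have h2 : PolyTime (fun p : ℕ × List (ℕ × List ℕ) × List (List ℕ) => edges p.2.1) :=
    PolyTime.comp pt_edges (by fun_prop)
  have h3 : PolyTime (fun p : ℕ × List (ℕ × List ℕ) × List (List ℕ) =>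
      (p.1 - 1) ^ (edges p.2.1 + 1)) := by
    refine PolyTime.pow (by fun_prop) (by fun_prop) ?_
    refine PBd.add ?_ (PBd.const 1)
    refine (PolyTime.pbd (f := fun p : ℕ × List (ℕ × List ℕ) × List (List ℕ) => p.2.1)
      (by fun_prop)).mono (fun p => edges_le _)
  fun_prop

theorem testP_iff (K : ℕ) (hK : 2 ≤ K) (P : List (ℕ × List ℕ)) (hP : WF P {0})
    (g : ℕ → Fin K) : testP K P (progE P).table = true ↔ ∃ c : Fin K, Run P (update g 0 c) := by
  rw [run_iff P hP g hK]
  unfold testP
  rw [Bool.not_eq_true', decide_eq_false_iff_not, evalT_table, sgn_eq]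
  have h : (-1 : ℤ) ^ (edges P + 1) * (((K - 1) ^ (edges P + 1) : ℕ) : ℤ) =
      (1 - K : ℤ) ^ ((P.map (fun p => p.2.length)).sum + 1) := by
    rw [Nat.cast_pow, Nat.cast_sub (by omega), ← mul_pow]
    unfold edges
    congr 1
    push_cast
    ring
  rw [h]

/-! ### sizes -/

theorem q_le (e : KExpr) (i j : ℕ) : e.q i j ≤ 2 ^ e.order := by
  unfold q order
  refine (Finite.card_subtype_le _).trans (le_of_eq ?_)
  have : Nat.card (Set e.V) = Nat.card (e.V → Prop) := rfl
  rw [this, Nat.card_fun]
  congr 1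
  simp

theorem order_le (e : KExpr) : e.order ≤ e.tok.length := by
  induction e with
  | vertex a =>
    change Nat.card Unit ≤ 1
    simp
  | union e f he hf =>
    have h1 : (union e f).order = e.order + f.order := by
      change Nat.card (e.V ⊕ f.V) = _
      rw [Nat.card_sum]
      rfl
    rw [h1]
    simp only [tok, List.length_append, List.length_cons, List.length_nil]
    omega
  | join a b e he =>
    have h1 : (join a b e).order = e.order := rfl
    rw [h1]
    simp only [tok, List.length_append, List.length_cons, List.length_nil]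
    omega
  | relabel a b e he =>
    have h1 : (relabel a b e).order = e.order := rfl
    rw [h1]
    simp only [tok, List.length_append, List.length_cons, List.length_nil]
    omega

theorem length_output (e : KExpr) : e.output.length ≤ (e.input.length + 2) ^ 6 := by
  have h0 : e.order + 2 ≤ e.input.length + 2 := by
    have h1 := order_le e
    have h2 : e.tok.length ≤ e.input.length := Pool.Agent.PolyTime.length_le_size e.tok
    omega
  have h1 : ∀ row ∈ e.table, PolyTime.size row ≤ (e.order + 1) * (2 * (e.order + 1) + 1) := by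
    intro row hrow
    unfold table at hrow
    rw [List.mem_map] at hrow
    obtain ⟨i, _, rfl⟩ := hrow
    refine (Pool.Agent.PolyTime.size_le_of_forall (B := e.order + 1) ?_).trans ?_
    · intro a ha
      rw [List.mem_map] at ha
      obtain ⟨j, _, rfl⟩ := ha
      refine (Pool.Agent.PolyTime.size_nat_mono (q_le e i j)).trans ?_
      exact Pool.Agent.PolyTime.size_nat_two_pow _
    · rw [List.length_map, List.length_range]
  have h2 : e.output.length ≤ (e.order + 1) * (2 * ((e.order + 1) * (2 * (e.order + 1) + 1)) + 1) := by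
    have := Pool.Agent.PolyTime.size_le_of_forall h1
    have h3 : e.table.length = e.order + 1 := by
      unfold table
      rw [List.length_map, List.length_range]
    rw [h3] at this
    exact this
  refine h2.trans (le_trans ?_ (Nat.pow_le_pow_left h0 6))
  set M := e.order
  have h4 : (M + 1) * (2 * ((M + 1) * (2 * (M + 1) + 1)) + 1) ≤ 8 * (M + 2) ^ 3 := by nlinarith
  have h5 : 8 ≤ (M + 2) ^ 3 := by
    calc 8 = 2 ^ 3 := by norm_num
      _ ≤ (M + 2) ^ 3 := Nat.pow_le_pow_left (by omega) 3
  calc (M + 1) * (2 * ((M + 1) * (2 * (M + 1) + 1)) + 1) ≤ 8 * (M + 2) ^ 3 := h4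
    _ ≤ (M + 2) ^ 3 * (M + 2) ^ 3 := Nat.mul_le_mul_right _ h5
    _ = (M + 2) ^ 6 := by ring

end Pool.Agent.Helper88.CW
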