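import Pool.Agent.Helper88.CW.Alg
import Pool.Agent.Helper88.CW.Post

/-!
Correctness of the dynamic programme.
-/

namespace Pool.Agent.Helper88.CW

open Finset Function KExpr

/-! ### patterns -/

/-- Generation of patterns without truncation. -/
def fullStep (R : List ℕ) (L : List (List ℕ)) : List (List ℕ) :=
  L.flatMap (fun p => R.map (fun c => c :: p))

theorem fullStep_length (R : List ℕ) (i : ℕ) :
    ((fullStep R)^[i] [[]]).length = R.length ^ i := by
  induction i with
  | zero => rfl
  | succ i ih =>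
    rw [iterate_succ_apply']
    unfold fullStep
    rw [List.length_flatMap]
    simp only [List.length_map]
    rw [List.map_const', List.sum_replicate, smul_eq_mul]
    unfold fullStep at ih
    rw [ih, pow_succ]

theorem mem_fullStep (R : List ℕ) (i : ℕ) (p : List ℕ) :
    p ∈ (fullStep R)^[i] [[]] ↔ p.length = i ∧ ∀ c ∈ p, c ∈ R := by
  induction i generalizing p with
  | zero =>
    rw [iterate_zero_apply, List.mem_singleton, List.length_eq_zero_iff]
    constructor
    · rintro rfl
      exact ⟨rfl, fun c hc => by simp at hc⟩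
    · exact fun h => h.1
  | succ i ih =>
    rw [iterate_succ_apply']
    unfold fullStep
    rw [List.mem_flatMap]
    constructor
    · rintro ⟨p', hp', h1⟩
      rw [List.mem_map] at h1
      obtain ⟨c, hc, rfl⟩ := h1
      obtain ⟨h2, h3⟩ := (ih p').1 hp'
      refine ⟨by rw [List.length_cons, h2], fun d hd => ?_⟩
      rcases List.mem_cons.1 hd with rfl | hd
      · exact hc
      · exact h3 d hd
    · rintro ⟨h1, h2⟩
      cases p with
      | nil => simp at h1
      | cons c p =>
        refine ⟨p, (ih p).2 ⟨by simpa using h1, fun d hd => h2 d (List.mem_cons_of_mem _ hd)⟩, ?_⟩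
        rw [List.mem_map]
        exact ⟨c, h2 c (by simp), rfl⟩

theorem patStep_eq (R : List ℕ) (hR : R ≠ []) (B n : ℕ) (hB : R.length ^ n ≤ B) :
    ∀ i ≤ n, (patStep R B)^[i] [[]] = (fullStep R)^[i] [[]] := by
  intro i
  induction i with
  | zero => intro _; rfl
  | succ i ih =>
    intro hi
    rw [iterate_succ_apply', iterate_succ_apply', ih (by omega)]
    have h1 := fullStep_length R (i + 1)
    rw [iterate_succ_apply'] at h1
    have h2 : patStep R B ((fullStep R)^[i] [[]]) =
        (fullStep R ((fullStep R)^[i] [[]])).take B := rfl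
    rw [h2]
    refine List.take_of_length_le ?_
    rw [h1]
    exact (Nat.pow_le_pow_right (List.length_pos_iff.2 hR) hi).trans hB

theorem mem_patsF (kw : ℕ) (pad : List Unit) (hpad : (kw + 3) ^ kw ≤ pad.length) (p : List ℕ) :
    p ∈ patsF (List.range (kw + 3), List.replicate kw (), pad) ↔
      p.length = kw ∧ ∀ c ∈ p, c < kw + 3 := by
  unfold patsF
  dsimp only
  rw [List.length_replicate, patStep_eq (List.range (kw + 3)) (by
    intro h
    rw [List.range_eq_nil] at h
    omega) pad.length kw (by rwa [List.length_range]) kw le_rfl, mem_fullStep]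
  simp only [List.mem_range]

/-! ### the context -/

/-- The context is correct. -/
structure GoodC (x : Ctx) (kw : ℕ) : Prop where
  cols : x.1 = List.range (kw + 1)
  hK : kw + 1 ≤ x.2.1
  pats : ∀ p, p ∈ x.2.2.2.2 ↔ p.length = kw ∧ ∀ c ∈ p, c < kw + 3

/-- The table represents the expression. -/
def Rep (x : Ctx) (e : KExpr) (T : Tab) : Prop :=
  ∀ p ∈ x.2.2.2.2, lkF (T, p) < x.2.2.2.1 + 1 ∧
    ((lkF (T, p) : ℕ) : ZMod (x.2.2.2.1 + 1)) =
      ((W (x.2.2.1 : ℤ) e (pat x.2.1 p) : ℤ) : ZMod (x.2.2.2.1 + 1))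

theorem cast_N (N : ℕ) : ((N : ℕ) : ZMod (N + 1)) = -1 := by
  have h : (((N + 1 : ℕ)) : ZMod (N + 1)) = 0 := ZMod.natCast_self _
  push_cast at h
  exact eq_neg_of_add_eq_zero_left h

theorem rep_map {x : Ctx} {e : KExpr} (v : List ℕ → ℕ)
    (h : ∀ p ∈ x.2.2.2.2, ((v p : ℕ) : ZMod (x.2.2.2.1 + 1)) =
      ((W (x.2.2.1 : ℤ) e (pat x.2.1 p) : ℤ) : ZMod (x.2.2.2.1 + 1))) :
    Rep x e (x.2.2.2.2.map (fun p => (p, v p % (x.2.2.2.1 + 1)))) := by
  intro p hp
  rw [lk_map x.2.2.2.2 (fun p => v p % (x.2.2.2.1 + 1)) p hp]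
  refine ⟨Nat.mod_lt _ (Nat.succ_pos _), ?_⟩
  rw [ZMod.natCast_mod]
  exact h p hp

theorem getD_lt {x : Ctx} {kw : ℕ} (hx : GoodC x kw) {p : List ℕ} (hp : p ∈ x.2.2.2.2) (a : ℕ) :
    p.getD a 0 < kw + 3 := by
  by_cases ha : a < p.length
  · rw [List.getD_eq_getElem _ _ ha]
    exact ((hx.pats p).1 hp).2 _ (List.getElem_mem _)
  · rw [List.getD_eq_default _ _ (by omega)]
    omega

theorem setp_mem {x : Ctx} {kw : ℕ} (hx : GoodC x kw) {p : List ℕ} (hp : p ∈ x.2.2.2.2) (a v : ℕ)
    (hv : v < kw + 3) : setp p a v ∈ x.2.2.2.2 := by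
  obtain ⟨h1, h2⟩ := (hx.pats p).1 hp
  refine (hx.pats _).2 ⟨by rw [length_setp, h1], fun c hc => ?_⟩
  rcases mem_setp hc with rfl | hc
  · exact hv
  · exact h2 c hc

theorem mt_lt {v c kw : ℕ} (hc : c < kw + 1) : mt v c < kw + 3 := by
  unfold mt
  by_cases h0 : v = 0
  · rw [decide_eq_true h0, cond_true]
    omega
  · rw [decide_eq_false h0, cond_false]
    by_cases h1 : v = c + 2
    · rw [decide_eq_true h1, cond_true]
      omega
    · rw [decide_eq_false h1, cond_false]
      omega

theorem free_spec {x : Ctx} {kw : ℕ} (hx : GoodC x kw) {p : List ℕ} (hp : p ∈ x.2.2.2.2) :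
    freeF (x.1, p) < kw + 1 ∧ freeF (x.1, p) + 2 ∉ p := by
  obtain ⟨h1, h2⟩ := (hx.pats p).1 hp
  have hne : x.1.filter (fun c => !decide (c + 2 ∈ p)) ≠ [] := by
    intro h
    rw [List.filter_eq_nil_iff] at h
    have h3 : ∀ c < kw + 1, c + 2 ∈ p := by
      intro c hc
      have := h c (by rw [hx.cols]; simpa using hc)
      simpa using this
    have h4 : (Finset.range (kw + 1)).image (fun c => c + 2) ⊆ p.toFinset := by
      intro c hc
      rw [Finset.mem_image] at hc
      obtain ⟨d, hd, rfl⟩ := hc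
      rw [List.mem_toFinset]
      exact h3 d (Finset.mem_range.1 hd)
    have h5 := Finset.card_le_card h4
    rw [Finset.card_image_of_injective _ (add_left_injective 2), Finset.card_range] at h5
    have h6 := List.toFinset_card_le p
    omega
  have h3 : freeF (x.1, p) ∈ x.1.filter (fun c => !decide (c + 2 ∈ p)) := by
    unfold freeF
    dsimp only
    cases h : x.1.filter (fun c => !decide (c + 2 ∈ p)) with
    | nil => exact absurd h hne
    | cons a l => simp
  rw [List.mem_filter] at h3
  have h5 : ∀ c, c ∈ x.1 → c < kw + 1 := fun c hc => by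
    rw [hx.cols] at hc
    simpa using hc
  refine ⟨h5 _ h3.1, ?_⟩
  simpa using h3.2

theorem cast_dd {x : Ctx} {kw : ℕ} (hx : GoodC x kw) {e : KExpr} {T : Tab} (hT : Rep x e T)
    {p : List ℕ} (hp : p ∈ x.2.2.2.2) (a b c : ℕ) (hc : c < kw + 1) :
    ((ddF (x.2.2.2.1, T, a, b, p, c) : ℕ) : ZMod (x.2.2.2.1 + 1)) =
      ((DZ x.2.1 (x.2.2.1 : ℤ) e p a b c : ℤ) : ZMod (x.2.2.2.1 + 1)) := by
  have h1 : (1 : ℕ) < kw + 3 := by omega
  have hm : ∀ v, mt v c < kw + 3 := fun v => mt_lt hc
  unfold ddF DZ setF mtF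
  dsimp only
  push_cast
  rw [cast_N, (hT _ (setp_mem hx (setp_mem hx hp a _ (hm _)) b _ (hm _))).2,
    (hT _ (setp_mem hx (setp_mem hx hp a _ (hm _)) b _ h1)).2,
    (hT _ (setp_mem hx (setp_mem hx hp a _ h1) b _ (hm _))).2,
    (hT _ (setp_mem hx (setp_mem hx hp a _ h1) b _ h1)).2]
  ring

theorem cast_join {x : Ctx} {kw : ℕ} (hx : GoodC x kw) {e : KExpr} {T : Tab} (hT : Rep x e T)
    {p : List ℕ} (hp : p ∈ x.2.2.2.2) {a b : ℕ} (ha : a < kw) (hb : b < kw) (hab : a ≠ b) :
    ((joinF (x, T, a, b, p) : ℕ) : ZMod (x.2.2.2.1 + 1)) =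
      ((W (x.2.2.1 : ℤ) (join a b e) (pat x.2.1 p) : ℤ) : ZMod (x.2.2.2.1 + 1)) := by
  obtain ⟨hlen, hent⟩ := (hx.pats p).1 hp
  obtain ⟨hf1, hf2⟩ := free_spec hx hp
  have h1 : (1 : ℕ) < kw + 3 := by omega
  rw [W_join_pat (x.2.2.1 : ℤ) hab e p (by omega) (by omega) (kw + 1) hx.hK hent
    (freeF (x.1, p)) hf1 hf2]
  unfold joinF
  dsimp only
  have hsum : ((((x.1.map (fun c => ddF (x.2.2.2.1, T, a, b, p, c))).sum : ℕ)) :
      ZMod (x.2.2.2.1 + 1)) = ((∑ c ∈ Finset.range (kw + 1),
        DZ x.2.1 (x.2.2.1 : ℤ) e p a b c : ℤ) : ZMod (x.2.2.2.1 + 1)) := by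
    rw [hx.cols, sum_map_range]
    push_cast
    refine Finset.sum_congr rfl (fun c hc => ?_)
    exact cast_dd hx hT hp a b c (Finset.mem_range.1 hc)
  have hlenc : x.1.length = kw + 1 := by
    rw [hx.cols, List.length_range]
  push_cast
  push_cast at hsum
  rw [hsum, cast_dd hx hT hp a b _ hf1, cast_N, hlenc]
  unfold setF
  dsimp only
  rw [(hT _ (setp_mem hx hp a _ h1)).2, (hT _ (setp_mem hx hp b _ h1)).2,
    (hT _ (setp_mem hx (setp_mem hx hp a _ h1) b _ h1)).2]
  ring

theorem sum_ind_dec (K v : ℕ) (hv : v < K + 2) :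
    (∑ c : Fin K, ind (c ∈ dec K v)) = if v = 0 then (K : ℤ) else if v = 1 then 0 else 1 := by
  by_cases h0 : v = 0
  · rw [if_pos h0, h0, dec_zero]
    simp [ind]
  · rw [if_neg h0]
    by_cases h1 : v = 1
    · rw [if_pos h1, h1, dec_one]
      simp [ind]
    · rw [if_neg h1]
      obtain ⟨d, rfl⟩ : ∃ d, v = d + 2 := ⟨v - 2, by omega⟩
      rw [dec_col, Finset.sum_eq_single (⟨d, by omega⟩ : Fin K)]
      · exact ind_pos rfl
      · intro c _ hc
        refine ind_neg (fun h => hc ?_)
        exact Fin.ext h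
      · intro h
        exact absurd (Finset.mem_univ _) h

theorem cast_vert {x : Ctx} {kw : ℕ} (hx : GoodC x kw) {p : List ℕ} (hp : p ∈ x.2.2.2.2) (a : ℕ) :
    ((vertF (x, a, p) : ℕ) : ZMod (x.2.2.2.1 + 1)) =
      ((W (x.2.2.1 : ℤ) (vertex a) (pat x.2.1 p) : ℤ) : ZMod (x.2.2.2.1 + 1)) := by
  have hv := getD_lt hx hp a
  have hK := hx.hK
  rw [W_vertex]
  unfold pat
  rw [sum_ind_dec _ _ (by omega)]
  unfold vertF
  dsimp only
  by_cases h0 : p.getD a 0 = 0
  · rw [if_pos h0, decide_eq_true h0, cond_true]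
    push_cast
    ring
  · rw [if_neg h0, decide_eq_false h0, cond_false]
    by_cases h1 : p.getD a 0 = 1
    · rw [if_pos h1, decide_eq_true h1, cond_true]
      push_cast
      ring
    · rw [if_neg h1, decide_eq_false h1, cond_false]
      push_cast
      ring

/-- The stack machine computes a table that represents the expression. -/
theorem run_tok {x : Ctx} {kw : ℕ} (hx : GoodC x kw) : ∀ (e : KExpr) (_ : e.IsK kw)
    (S : List Tab), ∃ T, Rep x e T ∧ e.tok.foldl (fun S t => stepF (x, S, t)) S = T :: S := by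
  intro e
  induction e with
  | vertex a =>
    intro _ S
    refine ⟨_, rep_map (fun p => vertF (x, a, p)) (fun p hp => cast_vert hx hp a), rfl⟩
  | union e f he hf =>
    intro hk S
    obtain ⟨T1, h1, h2⟩ := he hk.1 S
    obtain ⟨T2, h3, h4⟩ := hf hk.2 (T1 :: S)
    refine ⟨_, rep_map (fun p => lkF (T1, p) * lkF (T2, p)) (fun p hp => ?_), ?_⟩
    · rw [W_union]
      push_cast
      rw [(h1 p hp).2, (h3 p hp).2]
    · unfold tok
      rw [List.foldl_append, List.foldl_append, h2, h4]
      rfl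
  | join a b e he =>
    intro hk S
    obtain ⟨ha, hb, hab, hk⟩ := hk
    obtain ⟨T1, h1, h2⟩ := he hk S
    refine ⟨_, rep_map (fun p => joinF (x, T1, a, b, p)) (fun p hp =>
      cast_join hx h1 hp ha hb hab), ?_⟩
    unfold tok
    rw [List.foldl_append, h2]
    rfl
  | relabel a b e he =>
    intro hk S
    obtain ⟨ha, hb, hk⟩ := hk
    obtain ⟨T1, h1, h2⟩ := he hk S
    refine ⟨_, rep_map (fun p => relF (T1, a, b, p)) (fun p hp => ?_), ?_⟩
    · have hlen := ((hx.pats p).1 hp).1
      rw [W_relabel]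
      unfold relF setF
      dsimp only
      rw [(h1 _ (setp_mem hx hp a _ (getD_lt hx hp b))).2, pat_setp _ _ _ (by omega)]
      rfl
    · unfold tok
      rw [List.foldl_append, h2]
      rfl

/-! ### digits -/

theorem dsum_lt (K : ℕ) (f : ℕ → ℕ) (m : ℕ) (hf : ∀ j < m, f j < K) :
    ∑ j ∈ range m, f j * K ^ j < K ^ m := by
  induction m with
  | zero => simp
  | succ m ih =>
    rw [Finset.sum_range_succ]
    have h1 := ih (fun j hj => hf j (by omega))
    have h2 := hf m (by omega)
    calc ∑ j ∈ range m, f j * K ^ j + f m * K ^ m < K ^ m + f m * K ^ m := by omega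
      _ = (f m + 1) * K ^ m := by ring
      _ ≤ K * K ^ m := Nat.mul_le_mul_right _ h2
      _ = K ^ (m + 1) := by ring

theorem dsum_digit (K : ℕ) (f : ℕ → ℕ) (m : ℕ) (hf : ∀ j < m, f j < K) (p : ℕ) (hp : p < m) :
    (∑ j ∈ range m, f j * K ^ j) / K ^ p % K = f p := by
  have hK : 0 < K := lt_of_le_of_lt (Nat.zero_le _) (hf p hp)
  have h1 : ∑ j ∈ range m, f j * K ^ j = ∑ j ∈ range p, f j * K ^ j +
      K ^ p * (f p + K * ∑ j ∈ range (m - p - 1), f (p + 1 + j) * K ^ j) := by
    obtain ⟨d, rfl⟩ : ∃ d, m = p + 1 + d := ⟨m - p - 1, by omega⟩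
    rw [Finset.sum_range_add, Finset.sum_range_succ]
    have h2 : p + 1 + d - p - 1 = d := by omega
    rw [h2, mul_add, Finset.mul_sum, Finset.mul_sum, add_assoc]
    congr 2
    · ring
    · refine Finset.sum_congr rfl (fun j _ => ?_)
      ring
  rw [h1, Nat.add_mul_div_left _ _ (by positivity),
    Nat.div_eq_of_lt (dsum_lt K f p (fun j hj => hf j (by omega))), zero_add,
    Nat.add_mul_mod_self_left, Nat.mod_eq_of_lt (hf p hp)]

/-! ### tokens of a `k`-expression -/

theorem lt_widthF {t : List Tok} {x : Tok} (hx : x ∈ t) :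
    x.2.1 < widthF t ∧ x.2.2 < widthF t := by
  unfold widthF
  have key : ∀ (L : List ℕ) (a : ℕ), a ∈ L → a ≤ L.foldr (fun a b => max a b) 0 := by
    intro L
    induction L with
    | nil => intro a ha; simp at ha
    | cons b L ih =>
      intro a ha
      rw [List.foldr_cons]
      rcases List.mem_cons.1 ha with rfl | ha
      · exact le_max_left _ _
      · exact (ih a ha).trans (le_max_right _ _)
  have h1 := key (t.map (fun x => max x.2.1 x.2.2)) (max x.2.1 x.2.2)
    (List.mem_map.2 ⟨x, hx, rfl⟩)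
  have h2 := le_max_left x.2.1 x.2.2
  have h3 := le_max_right x.2.1 x.2.2
  omega

theorem isK_of_tok {m k : ℕ} : ∀ (e : KExpr) (_ : e.IsK k)
    (_ : ∀ x ∈ e.tok, x.2.1 < m ∧ x.2.2 < m), e.IsK m := by
  intro e
  induction e with
  | vertex a =>
    intro _ h
    exact (h (0, a, 0) (by simp [tok])).1
  | union e f he hf =>
    intro hk h
    exact ⟨he hk.1 (fun x hx => h x (by simp [tok, hx])),
      hf hk.2 (fun x hx => h x (by simp [tok, hx]))⟩
  | join a b e he =>
    intro hk h
    have h1 := h (2, a, b) (by simp [tok])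
    exact ⟨h1.1, h1.2, hk.2.2.1, he hk.2.2.2 (fun x hx => h x (by simp [tok, hx]))⟩
  | relabel a b e he =>
    intro hk h
    have h1 := h (3, a, b) (by simp [tok])
    exact ⟨h1.1, h1.2, he hk.2.2 (fun x hx => h x (by simp [tok, hx]))⟩

theorem widthF_le {k : ℕ} (e : KExpr) (he : e.IsK k) : widthF e.tok ≤ k := by
  have hpos : ∀ (e : KExpr), e.IsK k → 0 < k := by
    intro e
    induction e with
    | vertex a => intro h; exact lt_of_le_of_lt (Nat.zero_le _) h
    | union e f he _ => intro h; exact he h.1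
    | join a b e he => intro h; exact he h.2.2.2
    | relabel a b e he => intro h; exact he h.2.2
  have hk := hpos e he
  have hlab : ∀ (e : KExpr), e.IsK k → ∀ x ∈ e.tok, max x.2.1 x.2.2 < k := by
    intro e
    induction e with
    | vertex a =>
      intro h x hx
      simp only [tok, List.mem_singleton] at hx
      subst hx
      have h' : a < k := h
      simpa using h'
    | union e f he hf =>
      intro h x hx
      simp only [tok, List.mem_append, List.mem_singleton] at hx
      rcases hx with (hx | hx) | hx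
      · exact he h.1 x hx
      · exact hf h.2 x hx
      · subst hx
        simpa using hk
    | join a b e he =>
      intro h x hx
      simp only [tok, List.mem_append, List.mem_singleton] at hx
      rcases hx with hx | hx
      · exact he h.2.2.2 x hx
      · subst hx
        exact max_lt h.1 h.2.1
    | relabel a b e he =>
      intro h x hx
      simp only [tok, List.mem_append, List.mem_singleton] at hx
      rcases hx with hx | hx
      · exact he h.2.2 x hx
      · subst hx
        exact max_lt h.1 h.2.1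
  unfold widthF
  have key : ∀ L : List ℕ, (∀ a ∈ L, a < k) → L.foldr (fun a b => max a b) 0 < k := by
    intro L
    induction L with
    | nil => intro _; exact hk
    | cons b L ih =>
      intro h
      rw [List.foldr_cons]
      exact max_lt (h b (by simp)) (ih (fun a ha => h a (List.mem_cons_of_mem _ ha)))
  have h1 := key (e.tok.map (fun x => max x.2.1 x.2.2)) (fun a ha => by
    rw [List.mem_map] at ha
    obtain ⟨x, hx, rfl⟩ := ha
    exact hlab e he x hx)
  exact Nat.succ_le_of_lt h1

theorem nU_tok (e : KExpr) (pad : List Unit) : nU (e.tok, pad) = e.order := by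
  unfold nU
  dsimp only
  induction e with
  | vertex a =>
    change _ = Nat.card Unit
    simp [tok]
  | union e f he hf =>
    have h1 : (union e f).order = e.order + f.order := by
      change Nat.card (e.V ⊕ f.V) = _
      rw [Nat.card_sum]
      rfl
    rw [h1, ← he, ← hf]
    simp [tok]
  | join a b e he =>
    have h1 : (join a b e).order = e.order := rfl
    rw [h1, ← he]
    simp [tok]
  | relabel a b e he =>
    have h1 : (relabel a b e).order = e.order := rfl
    rw [h1, ← he]
    simp [tok]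

/-! ### the result -/

theorem valF_eq {k : ℕ} (e : KExpr) (he : e.IsK k) (pad : List Unit)
    (hpad : (widthF e.tok + 3) ^ widthF e.tok ≤ pad.length) :
    valF (e.tok, pad) = ∑ i ∈ range (e.order + 1),
      (∑ j ∈ range (e.order + 1), e.q i j * bigK (e.tok, pad) ^ j) *
        bigX (e.tok, pad) ^ i := by
  set q : Inp := (e.tok, pad) with hq
  set kw := widthF e.tok with hkw
  have hkU : kU q = kw := by
    unfold kU
    rw [hq]
    dsimp only
    rw [← hkw]
    refine min_eq_left (le_trans ?_ hpad)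
    calc kw ≤ kw + 3 := by omega
      _ = (kw + 3) ^ 1 := (pow_one _).symm
      _ ≤ (kw + 3) ^ kw := Nat.pow_le_pow_right (by omega) (by
        rw [hkw]; unfold widthF; omega)
  have hn : nU q = e.order := nU_tok e pad
  have hM1 : bigM q - 1 + 1 = bigM q := by
    have : 0 < bigM q := by
      unfold bigM bigX bigK
      positivity
    omega
  have hx : GoodC (ctxF q) kw := by
    refine ⟨?_, ?_, ?_⟩
    · change List.range (kU q + 1) = _
      rw [hkU]
    · change kw + 1 ≤ bigK q
      unfold bigK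
      rw [hkU]
      have : 1 ≤ 2 ^ (nU q + 1) := Nat.one_le_two_pow
      nlinarith
    · intro p
      change p ∈ patsF (List.range (kU q + 3), List.replicate (kU q) (), q.2) ↔ _
      rw [hkU]
      exact mem_patsF kw pad hpad p
  have hkw' : e.IsK kw := isK_of_tok e he (fun x hx => lt_widthF hx)
  obtain ⟨T, hT, hrun⟩ := run_tok hx e hkw' []
  have hval : valF q = lkF (T, List.replicate kw 0) := by
    unfold valF runF
    rw [hkU]
    have : (q.2 = pad) := rfl
    change lkF ((e.tok.foldl (fun S t => stepF (ctxF q, S, t)) []).headD [], _) = _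
    rw [hrun]
    rfl
  have hmem : List.replicate kw 0 ∈ (ctxF q).2.2.2.2 := by
    refine (hx.pats _).2 ⟨List.length_replicate, fun c hc => ?_⟩
    rw [(List.mem_replicate.1 hc).2]
    omega
  obtain ⟨h1, h2⟩ := hT _ hmem
  rw [← hval] at h1 h2
  change valF q < bigM q - 1 + 1 at h1
  change ((valF q : ℕ) : ZMod (bigM q - 1 + 1)) = ((W (bigX q : ℤ) e (pat (bigK q)
    (List.replicate kw 0)) : ℤ) : ZMod (bigM q - 1 + 1)) at h2
  have hpat : pat (bigK q) (List.replicate kw 0) = fun _ => Set.univ := by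
    funext a
    unfold pat
    have : (List.replicate kw 0).getD a 0 = 0 := by
      by_cases ha : a < (List.replicate kw 0).length
      · rw [List.getD_eq_getElem _ _ ha]
        simp
      · rw [List.getD_eq_default _ _ (by omega)]
    rw [this, dec_zero]
  have hW : W (bigX q : ℤ) e (fun _ : ℕ => (Set.univ : Set (Fin (bigK q)))) =
      Z (bigX q : ℤ) e (fun _ : ℕ → Set (Fin (bigK q)) => 1) := by
    unfold W
    congr 1
    funext S
    exact ind_pos (fun a => Set.subset_univ _)
  have hZ : Z (bigX q : ℤ) e (fun _ : ℕ → Set (Fin (bigK q)) => 1) =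
      ((∑ i ∈ range (e.order + 1), (∑ j ∈ range (e.order + 1), e.q i j * bigK q ^ j) *
        bigX q ^ i : ℕ) : ℤ) := by
    rw [Z_one]
    push_cast
    refine Finset.sum_congr rfl (fun i _ => ?_)
    rw [Finset.sum_mul]
    refine Finset.sum_congr rfl (fun j _ => ?_)
    ring
  rw [hpat, hW, hZ, hM1, Int.cast_natCast, ZMod.natCast_eq_natCast_iff'] at h2
  rw [hM1] at h1
  have hqK : ∀ i j, e.q i j < bigK q := by
    intro i j
    refine lt_of_le_of_lt (q_le e i j) ?_
    unfold bigK
    rw [hn]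
    calc 2 ^ e.order < 2 ^ (e.order + 1) := Nat.pow_lt_pow_right (by norm_num) (by omega)
      _ = 2 ^ (e.order + 1) * 1 := (mul_one _).symm
      _ ≤ 2 ^ (e.order + 1) * (kU q + 2) := Nat.mul_le_mul_left _ (by omega)
  have hr : ∀ i, ∑ j ∈ range (e.order + 1), e.q i j * bigK q ^ j < bigX q := by
    intro i
    unfold bigX
    rw [hn]
    exact dsum_lt _ _ _ (fun j _ => hqK i j)
  have hV : ∑ i ∈ range (e.order + 1), (∑ j ∈ range (e.order + 1), e.q i j * bigK q ^ j) *
      bigX q ^ i < bigM q := by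
    unfold bigM
    rw [hn]
    exact dsum_lt _ _ _ (fun i _ => hr i)
  rw [Nat.mod_eq_of_lt h1, Nat.mod_eq_of_lt hV] at h2
  exact h2

/-- The algorithm is correct when the padding is long enough. -/
theorem algF_eq {k : ℕ} (e : KExpr) (he : e.IsK k) (pad : List Unit)
    (hpad : (widthF e.tok + 3) ^ widthF e.tok ≤ pad.length) :
    algF (e.tok, pad) = e.table := by
  have hn : nU (e.tok, pad) = e.order := nU_tok e pad
  have hqK : ∀ i j, e.q i j < bigK (e.tok, pad) := by
    intro i j
    refine lt_of_le_of_lt (q_le e i j) ?_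
    unfold bigK
    rw [hn]
    calc 2 ^ e.order < 2 ^ (e.order + 1) := Nat.pow_lt_pow_right (by norm_num) (by omega)
      _ = 2 ^ (e.order + 1) * 1 := (mul_one _).symm
      _ ≤ 2 ^ (e.order + 1) * (kU (e.tok, pad) + 2) := Nat.mul_le_mul_left _ (by omega)
  have hr : ∀ i, ∑ j ∈ range (e.order + 1), e.q i j * bigK (e.tok, pad) ^ j <
      bigX (e.tok, pad) := by
    intro i
    unfold bigX
    rw [hn]
    exact dsum_lt _ _ _ (fun j _ => hqK i j)
  unfold algF table
  rw [hn]
  refine List.map_congr_left (fun i hi => List.map_congr_left (fun j hj => ?_))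
  rw [List.mem_range] at hi hj
  unfold coefF
  dsimp only
  rw [hn, min_eq_left (by omega), min_eq_left (by omega), valF_eq e he pad hpad,
    dsum_digit _ (fun i => ∑ j ∈ range (e.order + 1), e.q i j * bigK (e.tok, pad) ^ j) _
      (fun i _ => hr i) i hi, dsum_digit _ (fun j => e.q i j) _ (fun j _ => hqK i j) j hj]

end Pool.Agent.Helper88.CW
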