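import Pool.Agent.PolyTime.Basic

/-!
Computations of Mathlib's multi-stack Turing machines with arbitrary time bounds:
composition and pairing.
-/

namespace Pool.Agent.Helper88.CW

open Pool.Agent.PolyTime Pool.Agent.PolyTime.Prog Function

/-- Some multi-stack Turing machine (Mathlib's `Turing.FinTM2`), started with the bit string
`inp a` on its input stack and all other stacks empty, halts within `T a` steps with the bit
string `out a` on its output stack and all other stacks empty, for every `a : α`. -/
def ComputesInTime {α : Type} (inp out : α → List Bool) (T : α → ℕ) : Prop :=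
  ∃ M : Turing.TM2ComputableAux Bool Bool, ∀ a : α,
    Nonempty (Turing.TM2OutputsInTime M.tm ((inp a).map M.inputAlphabet.invFun)
      (some ((out a).map M.outputAlphabet.invFun)) (T a))

/-- The same for structured programs. -/
def TProg {α : Type} (f g : α → List Bool) (T : α → ℕ) : Prop :=
  ∃ (K : Type) (_ : DecidableEq K) (_ : Fintype K) (k₀ k₁ : K) (p : Prog K),
    ∀ a, ∃ t, t ≤ T a ∧ Exec p (single k₀ (f a)) (single k₁ (g a)) t

theorem TProg.mono {α : Type} {f g : α → List Bool} {T T' : α → ℕ} (h : TProg f g T)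
    (hT : ∀ a, T a ≤ T' a) : TProg f g T' := by
  obtain ⟨K, i1, i2, k₀, k₁, p, hp⟩ := h
  refine ⟨K, i1, i2, k₀, k₁, p, fun a => ?_⟩
  obtain ⟨t, ht, he⟩ := hp a
  exact ⟨t, ht.trans (hT a), he⟩

theorem TProg.length_le {α : Type} {f g : α → List Bool} {T : α → ℕ} (h : TProg f g T) (a : α) :
    (g a).length ≤ T a + (f a).length := by
  obtain ⟨K, i1, i2, k₀, k₁, p, hp⟩ := h
  obtain ⟨t, ht, he⟩ := hp a
  have := he.tot_le
  rw [tot_single, tot_single] at this
  omega

theorem TProg.of_FP {α : Type} (f : α → List Bool) {F : List Bool → List Bool} (hF : FP F) :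
    ∃ P : Polynomial ℕ, TProg f (fun a => F (f a)) (fun a => P.eval (f a).length) := by
  obtain ⟨K, i1, i2, k₀, k₁, p, P, hp⟩ := ProgFP_of_FP hF
  exact ⟨P, K, i1, i2, k₀, k₁, p, fun a => hp (f a)⟩

theorem TProg.comp {α : Type} {f g h : α → List Bool} {T T' : α → ℕ} (hf : TProg f g T)
    (hg : TProg g h T') :
    TProg f h (fun a => 5 * (T a + (f a).length) + 2 + T' a) := by
  have hlen := hf.length_le
  obtain ⟨Kf, _, _, f₀, f₁, pf, hf⟩ := hf
  obtain ⟨Kg, _, _, g₀, g₁, pg, hg⟩ := hg
  let p : Prog (Kf ⊕ (Kg ⊕ Unit)) :=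
    seq (pf.map Sum.inl) (seq (moveRev (Sum.inl f₁) (Sum.inr (Sum.inr ())))
      (seq (moveRev (Sum.inr (Sum.inr ())) (Sum.inr (Sum.inl g₀)))
        ((pg.map Sum.inl).map Sum.inr)))
  refine ⟨Kf ⊕ (Kg ⊕ Unit), inferInstance, inferInstance, Sum.inl f₀, Sum.inr (Sum.inl g₁), p,
    fun x => ?_⟩
  obtain ⟨t, ht, he⟩ := hf x
  obtain ⟨t', ht', he'⟩ := hg x
  have hl := hlen x
  have e1 : Exec (pf.map Sum.inl)
      (Sum.elim (single f₀ (f x)) (Sum.elim (bot Kg) (bot Unit)))
      (Sum.elim (single f₁ (g x)) (Sum.elim (bot Kg) (bot Unit))) t := he.inl _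
  have e2 : Exec (moveRev (Sum.inl f₁ : Kf ⊕ (Kg ⊕ Unit)) (Sum.inr (Sum.inr ())))
      (Sum.elim (single f₁ (g x)) (Sum.elim (bot Kg) (bot Unit)))
      (Sum.elim (bot _) (Sum.elim (bot _) (single () (g x).reverse)))
      (2 * (g x).length + 1) := by
    refine (exec_moveRev (by simp) (g x) _ (by simp only [Sum.elim_inl, single_self])).cast
      rfl ?_ rfl
    simp only [Sum.update_elim_inl, Sum.update_elim_inr, Sum.elim_inr, bot_apply,
      update_single, single_nil, update_bot, List.append_nil]
  have e3 : Exec (moveRev (Sum.inr (Sum.inr ()) : Kf ⊕ (Kg ⊕ Unit)) (Sum.inr (Sum.inl g₀)))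
      (Sum.elim (bot _) (Sum.elim (bot _) (single () (g x).reverse)))
      (Sum.elim (bot _) (Sum.elim (single g₀ (g x)) (bot _)))
      (2 * (g x).reverse.length + 1) := by
    refine (exec_moveRev (by simp) (g x).reverse _
      (by simp only [Sum.elim_inr, single_self])).cast rfl ?_ rfl
    simp only [Sum.update_elim_inl, Sum.update_elim_inr, Sum.elim_inr, Sum.elim_inl, bot_apply,
      update_single, single_nil, update_bot, List.append_nil, List.reverse_reverse]
  have e4 : Exec ((pg.map Sum.inl).map Sum.inr)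
      (Sum.elim (bot Kf) (Sum.elim (single g₀ (g x)) (bot Unit)))
      (Sum.elim (bot _) (Sum.elim (single g₁ (h x)) (bot _))) t' := (he'.inl _).inr _
  have e := Exec.seq e1 (Exec.seq e2 (Exec.seq e3 e4))
  refine ⟨_, ?_, e.cast ?_ ?_ rfl⟩
  · simp only [List.length_reverse]
    omega
  · rw [single_inl, bot_sum]
  · rw [single_inr, single_inl]

theorem TProg.pair {α : Type} {x f g : α → List Bool} {Tf Tg : α → ℕ} (hf : TProg x f Tf)
    (hg : TProg x g Tg) :
    TProg x (fun a => pr (f a) (g a))
      (fun a => 6 * Tf a + 5 * Tg a + 20 * (x a).length + 20) := by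
  have hlf := hf.length_le
  have hlg := hg.length_le
  obtain ⟨Kf, _, _, f₀, f₁, pf, hf⟩ := hf
  obtain ⟨Kg, _, _, g₀, g₁, pg, hg⟩ := hg
  refine ⟨K2 Kf Kg, inferInstance, inferInstance, ra, ra,
    seq (moveRev ra rt) (seq (moveRev2 rt (rf f₀) (rg g₀)) (seq (pf.map rf)
      (seq (pg.map rg) (seq (moveRev (rg g₁) rt) (seq (moveRev rt ra)
        (seq (push ra false) (seq (moveRev (rf f₁) rt) (weave rt ra)))))))), fun a => ?_⟩
  obtain ⟨tf, htf, hef⟩ := hf a
  obtain ⟨tg, htg, heg⟩ := hg a
  have hlfa := hlf a
  have hlga := hlg a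
  have e1 : Exec (moveRev ra rt) (st2 (bot Kf) (bot Kg) (x a) [])
      (st2 (bot _) (bot _) [] (x a).reverse) (2 * (x a).length + 1) :=
    mv (by simp) (by simp) (by simp)
  have e2 : Exec (moveRev2 rt (rf f₀) (rg g₀)) (st2 (bot _) (bot _) [] (x a).reverse)
      (st2 (single f₀ (x a)) (single g₀ (x a)) [] []) (3 * (x a).reverse.length + 1) :=
    mv2 (by simp) (by simp) (by simp) (by simp) (by simp)
  have e3 := exec_f hef (single g₀ (x a)) [] []
  have e4 := exec_g heg (single f₁ (f a)) [] []
  have e5 : Exec (moveRev (rg g₁) rt) (st2 (single f₁ (f a)) (single g₁ (g a)) [] [])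
      (st2 (single f₁ (f a)) (bot _) [] (g a).reverse) (2 * (g a).length + 1) :=
    mv (by simp) (by simp) (by simp)
  have e6 : Exec (moveRev rt ra) (st2 (single f₁ (f a)) (bot Kg) [] (g a).reverse)
      (st2 (single f₁ (f a)) (bot _) (g a) []) (2 * (g a).reverse.length + 1) :=
    mv (by simp) (by simp) (by simp)
  have e7 : Exec (push ra false) (st2 (single f₁ (f a)) (bot Kg) (g a) [])
      (st2 (single f₁ (f a)) (bot _) (false :: g a) []) 1 :=
    psh (by simp)
  have e8 : Exec (moveRev (rf f₁) rt) (st2 (single f₁ (f a)) (bot Kg) (false :: g a) [])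
      (st2 (bot _) (bot _) (false :: g a) (f a).reverse) (2 * (f a).length + 1) :=
    mv (by simp) (by simp) (by simp)
  have e9 : Exec (weave rt ra) (st2 (bot Kf) (bot Kg) (false :: g a) (f a).reverse)
      (st2 (bot _) (bot _) (pr (f a) (g a)) []) (3 * (f a).reverse.length + 1) :=
    wv (by simp) (by simp) (by simp [pr])
  have e := Exec.seq e1 (Exec.seq e2 (Exec.seq e3 (Exec.seq e4 (Exec.seq e5 (Exec.seq e6
    (Exec.seq e7 (Exec.seq e8 e9)))))))
  refine ⟨_, ?_, e.cast ?_ ?_ rfl⟩
  · simp only [List.length_reverse]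
    omega
  · rw [single_ra]
  · rw [single_ra]

open Prog in
/-- From machines to programs. -/
theorem TProg.of_computes {α : Type} {inp out : α → List Bool} {T : α → ℕ}
    (h : ComputesInTime inp out T) :
    ∃ C : ℕ, TProg inp out (fun a => C * (T a + (inp a).length + 1)) := by
  classical
  obtain ⟨⟨tm, inA, outA⟩, hout⟩ := h
  let _ := tm.kDecidableEq
  let _ := tm.kFin
  let _ := tm.ΛFin
  let _ := tm.σFin
  let A : Finset (Σ k, tm.Γ k) := (Finset.univ.biUnion fun l => pushed (tm.m l)) ∪
    (Finset.univ.image fun b => (⟨tm.k₀, inA.symm b⟩ : Σ k, tm.Γ k))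
  have hA1 : ∀ l, pushed (tm.m l) ⊆ A := by
    intro l a ha
    simp only [A, Finset.mem_union, Finset.mem_biUnion, Finset.mem_univ, true_and]
    exact Or.inl ⟨l, ha⟩
  have hA2 : ∀ b, (⟨tm.k₀, inA.symm b⟩ : Σ k, tm.Γ k) ∈ A := by
    intro b
    simp only [A, Finset.mem_union, Finset.mem_image, Finset.mem_univ, true_and]
    exact Or.inr ⟨b, rfl⟩
  let C : ℕ := ∑ l, tb A (tm.m l)
  have hC : ∀ l, tb A (tm.m l) ≤ C := fun l =>
    Finset.single_le_sum (f := fun l => tb A (tm.m l)) (fun _ _ => Nat.zero_le _)
      (Finset.mem_univ l)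
  let N : ℕ := Fintype.card (tm.Λ × tm.σ)
  let D : ℕ := (A.card + 3) + 2 + 1 + (N + 2) + (C + 2 * N + 1) + 2
  refine ⟨D * (2 * A.card + 2) + (2 * A.card + 2) + 1 + 3 * D + 5, K2 tm.K Unit, inferInstance,
    inferInstance, ra, ra,
    (seq (seq (moveRev ra rt) (seq (inLoop A tm.k₀ inA.symm)
      (seq (pushC (rg ()) (cn tm.main tm.initialState)) (mainLoop A tm.m))))
      (seq (outLoop A tm.k₁ outA) (moveRev rt ra))), fun a => ?_⟩
  obtain ⟨⟨⟨n, hn⟩, hnT⟩⟩ := hout a
  have e0 : Exec (moveRev ra rt) (st2 (bot tm.K) (one []) (inp a) [])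
      (st2 (bot _) (one []) [] (inp a).reverse) (2 * (inp a).length + 1) :=
    mv (by simp) (by simp) (by simp)
  have hbot : ∀ k : tm.K, enc A (update (fun _ => []) k []) = bot tm.K := by
    intro k
    funext j
    by_cases hj : j = k
    · subst hj; simp [enc, bot]
    · simp [enc, bot, hj]
  obtain ⟨t1, ht1, e1⟩ := exec_inLoop A tm.k₀ inA.symm hA2 (inp a).reverse []
  rw [hbot, List.reverse_reverse, List.append_nil] at e1
  have e2 := exec_pushC (rg ()) (cn tm.main tm.initialState)
    (st2 (enc A (update (fun _ => []) tm.k₀ ((inp a).map inA.symm))) (one []) [] [])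
  rw [up2_rg, update_one, st2_rg, one_apply, List.append_nil] at e2
  have hinit : Turing.initList tm (List.map inA.invFun (inp a)) =
      ⟨some tm.main, tm.initialState, update (fun _ => []) tm.k₀ ((inp a).map inA.symm)⟩ := by
    unfold Turing.initList
    congr 1
    funext k
    by_cases hk : k = tm.k₀
    · subst hk
      rw [dif_pos rfl, update_self]
      rfl
    · rw [dif_neg hk, update_of_ne hk]
  have hhalt : Turing.haltList tm (List.map outA.invFun (out a)) =
      ⟨none, tm.initialState, update (fun _ => []) tm.k₁ ((out a).map outA.symm)⟩ := by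
    unfold Turing.haltList
    congr 1
    funext k
    by_cases hk : k = tm.k₁
    · subst hk
      rw [dif_pos rfl, update_self]
      rfl
    · rw [dif_neg hk, update_of_ne hk]
  have hn' : (flip bind (Turing.TM2.step tm.m))^[n]
      (some ⟨some tm.main, tm.initialState,
        update (fun _ => []) tm.k₀ ((inp a).map inA.symm)⟩) =
      some ⟨none, tm.initialState, update (fun _ => []) tm.k₁ ((out a).map outA.symm)⟩ := by
    rw [← hinit, ← hhalt]
    exact hn
  obtain ⟨hok, t2, ht2, e3⟩ := exec_mainLoop A tm.m hA1 [] [] C hC n _ _ rfl (by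
    intro k s hs
    by_cases hk : k = tm.k₀
    · subst hk
      simp only [update_self, List.mem_map] at hs
      obtain ⟨b, _, rfl⟩ := hs
      exact hA2 b
    · simp [hk] at hs) hn'
  have hokw : ∀ s ∈ (out a).map outA.symm, (⟨tm.k₁, s⟩ : Σ k, tm.Γ k) ∈ A := by
    intro s hs
    exact hok tm.k₁ s (by simpa using hs)
  obtain ⟨t3, ht3, e4⟩ := exec_outLoop A tm.k₁ outA _ [] hokw
  have hmap : ((out a).map outA.symm).map outA = out a := by simp
  rw [hbot, hmap, List.append_nil] at e4
  have e5 : Exec (moveRev rt ra) (st2 (bot tm.K) (one []) [] (out a).reverse)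
      (st2 (bot _) (one []) (out a) []) (2 * (out a).reverse.length + 1) :=
    mv (by simp) (by simp) (by simp)
  have ea := Exec.seq e0 (Exec.seq e1 (Exec.seq e2 e3))
  have hT : 2 * (inp a).length + 1 + (t1 + (cn tm.main tm.initialState + 2 + t2)) ≤
      D * (T a + (inp a).length + 1) := by
    have h1 := cn_lt tm.main tm.initialState
    have h2 : n * (C + 2 * N + 1) ≤ T a * (C + 2 * N + 1) :=
      Nat.mul_le_mul_right _ hnT
    rw [List.length_reverse] at ht1
    simp only [N, D] at *
    nlinarith [Nat.zero_le (T a), Nat.zero_le ((inp a).length),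
      Nat.zero_le (T a * A.card), Nat.zero_le ((inp a).length * A.card),
      Nat.zero_le ((inp a).length * (Fintype.card (tm.Λ × tm.σ))),
      Nat.zero_le (T a * (Fintype.card (tm.Λ × tm.σ))),
      Nat.zero_le ((inp a).length * C), Nat.zero_le C]
  have hlen : (out a).length ≤ D * (T a + (inp a).length + 1) + (inp a).length := by
    have h1 : tot (st2 (enc A (update (fun _ => []) tm.k₁ ((out a).map outA.symm))) (one []) [] [])
        ≤ tot (st2 (bot tm.K) (one []) (inp a) []) +
        (2 * (inp a).length + 1 + (t1 + (cn tm.main tm.initialState + 2 + t2))) := ea.tot_le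
    have h2 : tot (st2 (bot tm.K) (one []) (inp a) []) = (inp a).length := by
      rw [bot_unit.symm, ← single_ra, tot_single]
    have h3 : (enc A (update (fun _ => []) tm.k₁ ((out a).map outA.symm)) tm.k₁).length ≤
        tot (st2 (enc A (update (fun _ => []) tm.k₁ ((out a).map outA.symm))) (one []) [] []) :=
      Finset.single_le_sum (f := fun k => (st2 (enc A (update (fun _ => []) tm.k₁
        ((out a).map outA.symm))) (one []) [] [] k).length) (fun _ _ => Nat.zero_le _)
        (Finset.mem_univ (rf tm.k₁))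
    have h4 : ∀ l : List (tm.Γ tm.k₁), l.length ≤ (l.flatMap fun s => cod (cd A tm.k₁ s)).length := by
      intro l
      induction l with
      | nil => simp
      | cons s l ih =>
        simp only [List.flatMap_cons, List.length_cons, List.length_append]
        have : 1 ≤ (cod (cd A tm.k₁ s)).length := by simp [cod]
        omega
    have h5 := h4 ((out a).map outA.symm)
    have h6 : enc A (update (fun _ => []) tm.k₁ ((out a).map outA.symm)) tm.k₁ =
        ((out a).map outA.symm).flatMap fun s => cod (cd A tm.k₁ s) := by simp [enc]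
    rw [h6] at h3
    rw [List.length_map] at h5
    omega
  refine ⟨_, ?_, (Exec.seq ea (Exec.seq e4 e5)).cast ?_ ?_ rfl⟩
  · rw [List.length_map] at ht3
    rw [List.length_reverse]
    have h1 : (out a).length * (2 * A.card + 2) ≤
        (D * (T a + (inp a).length + 1) + (inp a).length) * (2 * A.card + 2) :=
      Nat.mul_le_mul_right _ hlen
    have h2 : (D * (2 * A.card + 2) + (2 * A.card + 2) + 1 + 3 * D + 5) *
        (T a + (inp a).length + 1) = (D * (T a + (inp a).length + 1)) * (2 * A.card + 2) +
        (T a + (inp a).length + 1) * (2 * A.card + 2) + 3 * (D * (T a + (inp a).length + 1)) +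
        6 * (T a + (inp a).length + 1) := by ring
    have h3 : (D * (T a + (inp a).length + 1) + (inp a).length) * (2 * A.card + 2) =
      (D * (T a + (inp a).length + 1)) * (2 * A.card + 2) +
        (inp a).length * (2 * A.card + 2) := by ring
    have h4 : (inp a).length * (2 * A.card + 2) ≤
        (T a + (inp a).length + 1) * (2 * A.card + 2) := Nat.mul_le_mul_right _ (by omega)
    beta_reduce
    rw [h2]
    rw [h3] at h1
    generalize (D * (T a + (inp a).length + 1)) * (2 * A.card + 2) = b at *
    generalize D * (T a + (inp a).length + 1) = d at *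
    generalize (inp a).length * (2 * A.card + 2) = c at *
    generalize (T a + (inp a).length + 1) * (2 * A.card + 2) = c' at *
    generalize (out a).length * (2 * A.card + 2) = c'' at *
    omega
  · rw [single_ra, bot_unit]
  · rw [single_ra, bot_unit]

/-- From programs to machines. -/
theorem TProg.computes {α : Type} {inp out : α → List Bool} {T : α → ℕ}
    (h : TProg inp out T) : ComputesInTime inp out (fun a => T a + 1) := by
  obtain ⟨K, _, _, k₀, k₁, p, h⟩ := h
  refine ⟨{ tm := Prog.machine p k₀ k₁
            inputAlphabet := Equiv.refl Bool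
            outputAlphabet := Equiv.refl Bool }, fun a => ?_⟩
  have hx := h a
  refine ⟨⟨hx.choose + 1, ?_⟩, ?_⟩
  · have h1 := Prog.exec_sound hx.choose_spec.2 (Prog.machine p k₀ k₁).m some none
      (fun l => rfl)
    have h2 : Prog.RunsTo (Prog.machine p k₀ k₁).m
        ⟨some none, none, Prog.single k₁ (out a)⟩ ⟨none, none, Prog.single k₁ (out a)⟩ 1 := by
      apply Prog.RunsTo.one
      rfl
    have h3 := h1.trans h2
    have e1 : Turing.initList (Prog.machine p k₀ k₁) (List.map (Equiv.refl Bool).invFun (inp a)) =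
        ⟨some (some (Prog.ent p)), none, Prog.single k₀ (inp a)⟩ := by
      unfold Turing.initList
      congr 1
      funext k
      by_cases hk : k = (Prog.machine p k₀ k₁).k₀
      · rw [dif_pos hk]
        have h5 : List.map (Equiv.refl Bool).invFun (inp a) = inp a := by simp
        exact h5.trans (Prog.single_eq hk).symm
      · rw [dif_neg hk]
        exact (Prog.single_ne hk).symm
    have e2 : Turing.haltList (Prog.machine p k₀ k₁) (List.map (Equiv.refl Bool).invFun
        (out a)) = ⟨none, none, Prog.single k₁ (out a)⟩ := by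
      unfold Turing.haltList
      congr 1
      funext k
      by_cases hk : k = (Prog.machine p k₀ k₁).k₁
      · rw [dif_pos hk]
        have h5 : List.map (Equiv.refl Bool).invFun (out a) = out a := by simp
        exact h5.trans (Prog.single_eq hk).symm
      · rw [dif_neg hk]
        exact (Prog.single_ne hk).symm
    rw [e1]
    simp only [Option.map_some]
    rw [e2]
    exact h3
  · have := hx.choose_spec.1
    change hx.choose + 1 ≤ T a + 1
    omega

end Pool.Agent.Helper88.CW
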