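import Pool.Agent.PolyTime.Ints
import Pool.Agent.Helper88.CW.Timed

/-!
Clique-width expressions, the subgraph component polynomial, 3-SAT, and the statements about
running times.
-/

namespace Pool.Agent.Helper88.CW

open Pool.Agent.PolyTime (PEnc)

/-- Clique-width expressions; labels are natural numbers.  `join a b` is the operation that adds
all edges between vertices labelled `a` and vertices labelled `b`; `relabel a b` changes label
`a` to label `b`. -/
inductive KExpr : Type
  | vertex (a : ℕ) : KExpr
  | union (e f : KExpr) : KExpr
  | join (a b : ℕ) (e : KExpr) : KExpr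
  | relabel (a b : ℕ) (e : KExpr) : KExpr

namespace KExpr

/-- `e` is a `k`-expression: all its labels are in `{0, …, k-1}`, and the two labels of every
`join` are different. -/
def IsK (k : ℕ) : KExpr → Prop
  | vertex a => a < k
  | union e f => e.IsK k ∧ f.IsK k
  | join a b e => a < k ∧ b < k ∧ a ≠ b ∧ e.IsK k
  | relabel a b e => a < k ∧ b < k ∧ e.IsK k

/-- `e` is a linear expression: the second operand of every disjoint union is a single vertex. -/
def IsLin : KExpr → Prop
  | vertex _ => True
  | union e f => e.IsLin ∧ ∃ a, f = vertex a
  | join _ _ e => e.IsLin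
  | relabel _ _ e => e.IsLin

/-- The vertex set of the graph of an expression. -/
def V : KExpr → Type
  | vertex _ => Unit
  | union e f => e.V ⊕ f.V
  | join _ _ e => e.V
  | relabel _ _ e => e.V

/-- The label of a vertex. -/
def lab : (e : KExpr) → e.V → ℕ
  | vertex a, _ => a
  | union e f, v => Sum.elim e.lab f.lab v
  | join _ _ e, v => e.lab v
  | relabel a b e, v => if e.lab v = a then b else e.lab v

/-- The graph of an expression. -/
def graph : (e : KExpr) → SimpleGraph e.V
  | vertex _ => ⊥
  | union e f => e.graph ⊕g f.graph
  | join a b e => e.graph ⊔ SimpleGraph.fromRel (fun u v => e.lab u = a ∧ e.lab v = b)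
  | relabel _ _ e => e.graph

/-- The number of vertices. -/
noncomputable def order (e : KExpr) : ℕ := Nat.card e.V

/-- The coefficient of `x^i y^j` of the subgraph component polynomial: the number of vertex sets
`A` with `i` elements such that the subgraph induced by `A` has exactly `j` connected
components. -/
noncomputable def q (e : KExpr) (i j : ℕ) : ℕ :=
  Nat.card {A : Set e.V // A.ncard = i ∧ Nat.card (e.graph.induce A).ConnectedComponent = j}

/-- All coefficients of the subgraph component polynomial. -/
noncomputable def table (e : KExpr) : List (List ℕ) :=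
  (List.range (e.order + 1)).map fun i => (List.range (e.order + 1)).map fun j => e.q i j

/-- The expression in postfix notation. -/
def tok : KExpr → List (ℕ × ℕ × ℕ)
  | vertex a => [(0, a, 0)]
  | union e f => e.tok ++ f.tok ++ [(1, 0, 0)]
  | join a b e => e.tok ++ [(2, a, b)]
  | relabel a b e => e.tok ++ [(3, a, b)]

/-- The binary input string. -/
def input (e : KExpr) : List Bool := PEnc.enc e.tok

/-- The binary output string. -/
noncomputable def output (e : KExpr) : List Bool := PEnc.enc e.table

end KExpr

/-- The subgraph component polynomial is computable from a `k`-expression in the class `𝒞` in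
time `T k * N ^ O(1)`: some machine, given (the binary string of) any `k`-expression `e` in `𝒞`,
outputs all coefficients of the subgraph component polynomial of the graph of `e` within
`T k * (N + 2) ^ c` steps, where `N` is the length of the input string and `c` is a constant. -/
def QTimeOn (𝒞 : KExpr → Prop) (T : ℕ → ℕ) : Prop :=
  ∃ c : ℕ, ComputesInTime (α := {p : ℕ × KExpr // p.2.IsK p.1 ∧ 𝒞 p.2})
    (fun p => p.1.2.input) (fun p => p.1.2.output)
    (fun p => T p.1.1 * (p.1.2.input.length + 2) ^ c)

/-- The subgraph component polynomial is computable from a `k`-expression in time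
`T k * N ^ O(1)`. -/
def QTime (T : ℕ → ℕ) : Prop := QTimeOn (fun _ => True) T

/-- Literals: `(v, b)` says that the variable `v` has the truth value `b`. -/
abbrev Lit : Type := ℕ × Bool

/-- 3-CNF formulas: lists of clauses of three literals. -/
abbrev CNF : Type := List (Lit × Lit × Lit)

/-- Satisfiability. -/
def Sat (φ : CNF) : Prop :=
  ∃ ν : ℕ → Bool, ∀ C ∈ φ, ν C.1.1 = C.1.2 ∨ ν C.2.1.1 = C.2.1.2 ∨ ν C.2.2.1 = C.2.2.2

/-- The set of variables of a formula. -/
def vars (φ : CNF) : Finset ℕ := φ.toFinset.biUnion fun C => {C.1.1, C.2.1.1, C.2.2.1}

open Classical in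
/-- 3-SAT is decidable in time `T n * N ^ O(1)`: some machine decides the satisfiability of every
3-CNF formula within `T n * (N + 2) ^ c` steps, where `n` is the number of variables of the
formula, `N` is the length of the input string and `c` is a constant. -/
def SatTime (T : ℕ → ℕ) : Prop :=
  ∃ c : ℕ, ComputesInTime (fun φ : CNF => PEnc.enc φ) (fun φ => [decide (Sat φ)])
    (fun φ => T (vars φ).card * ((PEnc.enc φ).length + 2) ^ c)

/-- The exponential time hypothesis: for some `δ > 0`, 3-SAT is not decidable in time
`2 ^ (δ n) * N ^ O(1)`. -/
def ETH : Prop := ∃ δ : ℝ, 0 < δ ∧ ¬ SatTime (fun n => ⌈(2 : ℝ) ^ (δ * n)⌉₊)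

end Pool.Agent.Helper88.CW
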