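import Pool.Agent.Helper88.CW.Main

/-!
Consequences under the exponential time hypothesis.
-/

namespace Pool.Agent.Helper88.CW

open Filter Asymptotics KExpr

theorem SatTime.mono {T T' : ℕ → ℕ} (A : ℕ) (h : SatTime T) (hT : ∀ n, T n ≤ A * T' n) :
    SatTime T' := by
  obtain ⟨c, M, hM⟩ := h
  refine ⟨c + A, M, fun φ => ?_⟩
  obtain ⟨hx⟩ := hM φ
  refine ⟨⟨hx.toEvalsTo, hx.steps_le_m.trans ?_⟩⟩
  set n := (vars φ).card
  set N := (Pool.Agent.PolyTime.PEnc.enc φ).length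
  calc T n * (N + 2) ^ c ≤ A * T' n * (N + 2) ^ c := Nat.mul_le_mul_right _ (hT n)
    _ ≤ (N + 2) ^ A * T' n * (N + 2) ^ c :=
      Nat.mul_le_mul_right _ (Nat.mul_le_mul_right _ (Pool.Agent.PolyTime.const_le_pow _ _))
    _ = T' n * (N + 2) ^ (c + A) := by rw [pow_add]; ring

theorem QTimeOn.mono {𝒞 : KExpr → Prop} {T T' : ℕ → ℕ} (h : QTimeOn 𝒞 T)
    (hT : ∀ k, T k ≤ T' k) : QTimeOn 𝒞 T' := by
  obtain ⟨c, M, hM⟩ := h
  refine ⟨c, M, fun p => ?_⟩
  obtain ⟨hx⟩ := hM p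
  exact ⟨⟨hx.toEvalsTo, hx.steps_le_m.trans (Nat.mul_le_mul_right _ (hT _))⟩⟩

theorem QTimeOn.anti {𝒞 𝒞' : KExpr → Prop} {T : ℕ → ℕ} (h : QTimeOn 𝒞 T)
    (h𝒞 : ∀ e, 𝒞' e → 𝒞 e) : QTimeOn 𝒞' T := by
  obtain ⟨c, M, hM⟩ := h
  exact ⟨c, M, fun p => hM ⟨p.1, p.2.1, h𝒞 _ p.2.2⟩⟩

/-- The monotone hull. -/
def hull (T : ℕ → ℕ) (k : ℕ) : ℕ := (Finset.range (k + 1)).sup T

theorem le_hull (T : ℕ → ℕ) (k : ℕ) : T k ≤ hull T k :=
  Finset.le_sup (f := T) (by simp)

theorem hull_mono (T : ℕ → ℕ) : Monotone (hull T) := by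
  intro a b hab
  exact Finset.sup_mono (Finset.range_subset_range.2 (by omega))

theorem mul_log_mono {j k : ℕ} (h : j ≤ k) : (j : ℝ) * Real.log j ≤ k * Real.log k := by
  rcases Nat.eq_zero_or_pos j with h0 | h0
  · subst h0
    simp only [Nat.cast_zero, zero_mul]
    exact mul_nonneg (Nat.cast_nonneg _) (Real.log_natCast_nonneg _)
  · have h1 : (j : ℝ) ≤ k := by exact_mod_cast h
    have h2 : (0 : ℝ) < j := by exact_mod_cast h0
    exact mul_le_mul h1 (Real.log_le_log h2 h1) (Real.log_natCast_nonneg _) (Nat.cast_nonneg _)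

theorem hull_bound (T : ℕ → ℕ) (h : (fun k : ℕ => Real.log (T k)) =o[atTop]
    (fun k : ℕ => (k : ℝ) * Real.log k)) (ε : ℝ) (hε : 0 < ε) :
    ∃ A : ℕ, ∀ k : ℕ, (hull T k : ℝ) ≤ A + Real.exp (ε * (k * Real.log k)) := by
  have h1 := h.bound hε
  rw [eventually_atTop] at h1
  obtain ⟨k₀, hk₀⟩ := h1
  have h2 : ∀ k : ℕ, (T k : ℝ) ≤ hull T k₀ + Real.exp (ε * (k * Real.log k)) := by
    intro k
    rcases le_or_gt k k₀ with hk | hk
    · have h3 : T k ≤ hull T k₀ := (le_hull T k).trans (hull_mono T hk)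
      have h4 : (T k : ℝ) ≤ hull T k₀ := by exact_mod_cast h3
      linarith [Real.exp_pos (ε * (k * Real.log k))]
    · have h3 := hk₀ k hk.le
      rw [Real.norm_eq_abs, Real.norm_eq_abs, abs_of_nonneg (mul_nonneg (Nat.cast_nonneg _)
        (Real.log_natCast_nonneg _))] at h3
      have h4 : Real.log (T k) ≤ ε * (k * Real.log k) := (le_abs_self _).trans h3
      have h5 : (T k : ℝ) ≤ Real.exp (ε * (k * Real.log k)) := by
        rcases Nat.eq_zero_or_pos (T k) with h6 | h6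
        · rw [h6]
          simp only [Nat.cast_zero]
          exact (Real.exp_pos _).le
        · have h7 : (0 : ℝ) < T k := by exact_mod_cast h6
          rwa [← Real.log_le_iff_le_exp h7]
      have h8 : (0 : ℝ) ≤ hull T k₀ := Nat.cast_nonneg _
      linarith
  refine ⟨hull T k₀, fun k => ?_⟩
  obtain ⟨j, hj, hj'⟩ := Finset.exists_mem_eq_sup (Finset.range (k + 1))
    ⟨0, by simp⟩ T
  have h3 : hull T k = T j := hj'
  rw [h3]
  refine (h2 j).trans ?_
  have h4 : j ≤ k := by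
    have := Finset.mem_range.1 hj
    omega
  have h5 := Real.exp_le_exp.2 (mul_le_mul_of_nonneg_left (mul_log_mono h4) hε.le)
  linarith

theorem width_log (n : ℕ) : ((18 * (n / (Nat.log 2 n + 1) + 1) : ℕ) : ℝ) *
    Real.log ((18 * (n / (Nat.log 2 n + 1) + 1) : ℕ) : ℝ) ≤ 1332 * n + 324 := by
  rcases Nat.eq_zero_or_pos n with h | h
  · subst h
    have h1 : Real.log 18 ≤ 18 - 1 := Real.log_le_sub_one_of_pos (by norm_num)
    simp
    linarith
  · set L := Nat.log 2 n with hL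
    set m := n / (L + 1) with hm
    have hLn : L + 1 ≤ n := Nat.log_lt_self 2 (by omega)
    have hm1 : 1 ≤ m := (Nat.one_le_div_iff (by omega)).2 hLn
    have hml : m * (L + 1) ≤ n := Nat.div_mul_le_self n (L + 1)
    have hn2 : n < 2 ^ (L + 1) := Nat.lt_pow_succ_log_self (by norm_num) n
    have hmn : m ≤ n := Nat.div_le_self _ _
    have hk : 18 * (m + 1) ≤ 36 * m := by omega
    have hm0 : (0 : ℝ) < m := by exact_mod_cast hm1
    have hkR : ((18 * (m + 1) : ℕ) : ℝ) ≤ 36 * m := by exact_mod_cast hk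
    have hkpos : (0 : ℝ) < ((18 * (m + 1) : ℕ) : ℝ) := by positivity
    have hlog : Real.log ((18 * (m + 1) : ℕ) : ℝ) ≤ 37 * (L + 1) := by
      have h1 : Real.log ((18 * (m + 1) : ℕ) : ℝ) ≤ Real.log (36 * m) :=
        Real.log_le_log hkpos hkR
      rw [Real.log_mul (by norm_num) hm0.ne'] at h1
      have h2 : Real.log 36 ≤ 36 - 1 := Real.log_le_sub_one_of_pos (by norm_num)
      have h3 : Real.log m ≤ Real.log ((2 : ℝ) ^ (L + 1)) := by
        refine Real.log_le_log hm0 ?_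
        have : m ≤ 2 ^ (L + 1) := by omega
        exact_mod_cast this
      rw [Real.log_pow] at h3
      have h4 : Real.log 2 ≤ 1 := by
        have := Real.log_le_sub_one_of_pos (show (0 : ℝ) < 2 by norm_num)
        linarith
      have h5 : ((L + 1 : ℕ) : ℝ) * Real.log 2 ≤ ((L + 1 : ℕ) : ℝ) * 1 :=
        mul_le_mul_of_nonneg_left h4 (Nat.cast_nonneg _)
      push_cast at h3 h5
      have h6 : (0 : ℝ) ≤ L := Nat.cast_nonneg _
      linarith
    have hmlR : (m : ℝ) * (L + 1) ≤ n := by exact_mod_cast hml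
    have h6 : (0 : ℝ) ≤ L := Nat.cast_nonneg _
    calc ((18 * (m + 1) : ℕ) : ℝ) * Real.log ((18 * (m + 1) : ℕ) : ℝ)
        ≤ (36 * m) * (37 * (L + 1)) := by
          refine mul_le_mul hkR hlog (Real.log_natCast_nonneg _) (by positivity)
      _ = 1332 * (m * (L + 1)) := by ring
      _ ≤ 1332 * n := by linarith
      _ ≤ 1332 * n + 324 := by linarith

/-- No algorithm with exponent `o(k log k)`. -/
theorem no_littleO (hE : ETH) (T : ℕ → ℕ) (hT : (fun k : ℕ => Real.log (T k)) =o[atTop]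
    (fun k : ℕ => (k : ℝ) * Real.log k)) : ¬ QTimeOn IsLin T := by
  intro hQ
  obtain ⟨δ, hδ, hnot⟩ := hE
  apply hnot
  have h1 := satTime_of_qTime (hull_mono T) (hQ.mono (le_hull T))
  set ε : ℝ := δ * Real.log 2 / 1332 with hε
  have hl2 : 0 < Real.log 2 := Real.log_pos (by norm_num)
  have hεpos : 0 < ε := by positivity
  obtain ⟨A, hA⟩ := hull_bound T hT ε hεpos
  refine h1.mono (A + ⌈Real.exp (ε * 324)⌉₊) (fun n => ?_)
  set k := 18 * (n / (Nat.log 2 n + 1) + 1) with hk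
  set B : ℕ := ⌈(2 : ℝ) ^ (δ * n)⌉₊ with hB
  have h2 : (1 : ℝ) ≤ (2 : ℝ) ^ (δ * n) := by
    refine Real.one_le_rpow (by norm_num) (by positivity)
  have hBle : (2 : ℝ) ^ (δ * n) ≤ B := Nat.le_ceil _
  have hB1 : (1 : ℝ) ≤ B := h2.trans hBle
  have h3 : Real.exp (ε * (k * Real.log k)) ≤ ⌈Real.exp (ε * 324)⌉₊ * B := by
    calc Real.exp (ε * (k * Real.log k)) ≤ Real.exp (ε * (1332 * n + 324)) :=
          Real.exp_le_exp.2 (mul_le_mul_of_nonneg_left (width_log n) hεpos.le)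
      _ = Real.exp (ε * 324) * (2 : ℝ) ^ (δ * n) := by
          rw [Real.rpow_def_of_pos (by norm_num), ← Real.exp_add]
          congr 1
          rw [hε]
          ring
      _ ≤ ⌈Real.exp (ε * 324)⌉₊ * B := by
          refine mul_le_mul (Nat.le_ceil _) hBle (by positivity) (Nat.cast_nonneg _)
  have h4 : (hull T k : ℝ) ≤ (((A + ⌈Real.exp (ε * 324)⌉₊) * B : ℕ) : ℝ) := by
    refine (hA k).trans ?_
    push_cast
    have : (A : ℝ) ≤ A * B := le_mul_of_one_le_right (Nat.cast_nonneg _) hB1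
    linarith
  exact_mod_cast h4

/-- No algorithm with simply exponential constants. -/
theorem no_simply_exponential (hE : ETH) (C : ℕ) : ¬ QTime (fun k => 2 ^ (C * k)) := by
  intro hQ
  refine no_littleO hE (fun k => 2 ^ (C * k)) ?_ (QTimeOn.anti hQ (fun _ _ => trivial))
  have h1 : (fun k : ℕ => Real.log ((2 ^ (C * k) : ℕ) : ℝ)) =
      fun k : ℕ => (k : ℝ) * (C * Real.log 2) := by
    funext k
    push_cast
    rw [Real.log_pow]
    push_cast
    ring
  rw [h1]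
  refine (isBigO_refl (fun k : ℕ => (k : ℝ)) atTop).mul_isLittleO ?_
  rw [isLittleO_const_left]
  right
  exact (tendsto_norm_atTop_atTop.comp Real.tendsto_log_atTop).comp tendsto_natCast_atTop_atTop

end Pool.Agent.Helper88.CW
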