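import Pool.Agent.Helper88.CW.Ren

/-!
The reduction runs in polynomial time; the main theorem.
-/

namespace Pool.Agent.Helper88.CW

open Finset Function KExpr
open Pool.Agent.PolyTime (PEnc PolyTime PBd FP pr)

/-! ### parameters as functions of the formula -/

/-- Number of variables. -/
def nF (φ : CNF) : ℕ := (varsL φ).length

/-- Size of the groups. -/
def sF (φ : CNF) : ℕ := pS (nF φ)

/-- Number of states of a group. -/
def qF (φ : CNF) : ℕ := 2 ^ sF φ

/-- Number of groups. -/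
def kF (φ : CNF) : ℕ := pK (nF φ)

@[fun_prop]
theorem pt_nF : PolyTime nF := by
  unfold nF
  exact PolyTime.length pt_varsL

theorem pbd_nF : PBd nF := Pool.Agent.PolyTime.pbd_length pt_varsL

@[fun_prop]
theorem pt_sF : PolyTime sF := by
  unfold sF pS
  fun_prop

theorem pbd_sF : PBd sF := by
  refine (pbd_nF.add (PBd.const 1)).mono (fun φ => ?_)
  unfold sF pS
  have : Nat.size (nF φ) ≤ nF φ := by
    rw [← Pool.Agent.PolyTime.size_nat]
    exact Pool.Agent.PolyTime.size_nat_self _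
  omega

@[fun_prop]
theorem pt_qF : PolyTime qF := by
  unfold qF
  exact PolyTime.pow (by fun_prop) (by fun_prop) pbd_sF

theorem pbd_qF : PBd qF :=
  (((PBd.const 2).mul pbd_nF).add (PBd.const 2)).mono (fun _ => two_pow_pS_le _)

@[fun_prop]
theorem pt_kF : PolyTime kF := by
  unfold kF pK
  have : PolyTime (fun φ => pS (nF φ)) := pt_sF
  fun_prop

theorem pbd_kF : PBd kF := by
  refine (pbd_nF.add (PBd.const 1)).mono (fun φ => ?_)
  exact Nat.add_le_add_right (Nat.div_le_self (nF φ) (pS (nF φ))) 1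

/-- The states of a group. -/
def rqF (φ : CNF) : List ℕ := List.range (qF φ)

/-- The palette. -/
def rpF (φ : CNF) : List ℕ := List.range (qF φ + 3)

@[fun_prop]
theorem pt_rqF : PolyTime rqF := by
  unfold rqF
  exact PolyTime.range pt_qF pbd_qF

@[fun_prop]
theorem pt_rpF : PolyTime rpF := by
  unfold rpF
  exact PolyTime.range (by fun_prop) (pbd_qF.add (PBd.const 3))

/-! ### the pieces of the program -/

/-- Truth of a literal. -/
def litF (x : CNF × Lit × ℕ) : Bool := litTrue (sF x.1) x.2.1 x.2.2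

@[fun_prop]
theorem pt_litF : PolyTime litF := by
  have h1 : PolyTime (fun x : CNF × Lit × ℕ => 2 ^ (x.2.1.1 % sF x.1)) := by
    refine PolyTime.pow (by fun_prop) (by fun_prop) ?_
    have h2 : PBd (fun x : CNF × Lit × ℕ => sF x.1) := PBd.comp pbd_sF (by fun_prop)
    exact h2.mono (fun x => (Nat.mod_lt _ (pS_pos _)).le)
  have h2 : PolyTime (fun x : CNF × Lit × ℕ => decide
      (decide (x.2.2 / 2 ^ (x.2.1.1 % sF x.1) % 2 = 1) = x.2.1.2)) := by
    fun_prop
  refine h2.congr (fun x => ?_)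
  unfold litF litTrue
  by_cases h : (decide (x.2.2 / 2 ^ (x.2.1.1 % sF x.1) % 2 = 1) = x.2.1.2)
  · rw [decide_eq_true h, h, beq_self_eq_true]
  · rw [decide_eq_false h, beq_eq_false_iff_ne.2 h]

/-- One auxiliary step. -/
def auxStepF (x : CNF × Lit × ℕ × ℕ) : ℕ × List ℕ :=
  (qF x.1 + 3 + kF x.1 + 1,
    (rpF x.1).filter (fun j => !(decide (j = x.2.2.2)) && !(decide (j = qF x.1 + x.2.2.1)))
      ++ [qF x.1 + 3 + x.2.1.1 / sF x.1, qF x.1 + 3 + kF x.1])

@[fun_prop]
theorem pt_auxStepF : PolyTime auxStepF := by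
  unfold auxStepF
  fun_prop

/-- The auxiliary steps of a literal. -/
def auxF (x : CNF × Lit × ℕ) : List (ℕ × List ℕ) :=
  ((rqF x.1).filter (fun a => !(litF (x.1, x.2.1, a)))).map
    (fun a => auxStepF (x.1, x.2.1, x.2.2, a))

@[fun_prop]
theorem pt_auxF : PolyTime auxF := by
  unfold auxF
  fun_prop

theorem auxF_eq (x : CNF × Lit × ℕ) : auxF x = auxP (sF x.1) (qF x.1) (kF x.1) x.2.1 x.2.2 := rfl

/-- The steps of a clause. -/
def clauseF (x : CNF × Lit × Lit × Lit) : List (ℕ × List ℕ) :=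
  (qF x.1 + 3 + kF x.1, rqF x.1) :: (auxF (x.1, x.2.1, 0) ++ (auxF (x.1, x.2.2.1, 1) ++
    auxF (x.1, x.2.2.2, 2)))

@[fun_prop]
theorem pt_clauseF : PolyTime clauseF := by
  unfold clauseF
  fun_prop

/-- The base part. -/
def baseF (φ : CNF) : List (ℕ × List ℕ) := baseP (qF φ) (kF φ)

@[fun_prop]
theorem pt_baseF : PolyTime baseF := by
  unfold baseF baseP
  have h1 : PolyTime (fun φ : CNF => List.range (qF φ + 2)) :=
    PolyTime.range (by fun_prop) (pbd_qF.add (PBd.const 2))
  have h2 : PolyTime (fun φ : CNF => List.range (kF φ)) := PolyTime.range pt_kF pbd_kF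
  have h3 : PolyTime (fun φ : CNF => (List.range (qF φ + 2)).map
      (fun j => (j + 1, List.range (j + 1)))) := by
    have h4 : PolyTime (fun p : CNF × ℕ => (p.2 + 1, List.range (min p.2 (qF p.1 + 2) + 1))) := by
      have h5 : PolyTime (fun p : CNF × ℕ => List.range (min p.2 (qF p.1 + 2) + 1)) := by
        refine PolyTime.range (by fun_prop) ?_
        refine PBd.add ?_ (PBd.const 1)
        have h6 : PBd (fun p : CNF × ℕ => qF p.1 + 2) :=
          PBd.comp (f := fun p : CNF × ℕ => p.1) (pbd_qF.add (PBd.const 2)) (by fun_prop)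
        exact h6.mono (fun p => min_le_right _ _)
      fun_prop
    refine (PolyTime.map (g := fun φ j => (j + 1, List.range (min j (qF φ + 2) + 1)))
      h1 h4).congr (fun φ => ?_)
    refine List.map_congr_left (fun j hj => ?_)
    rw [List.mem_range] at hj
    rw [min_eq_left hj.le]
  have h7 : PolyTime (fun φ : CNF => (List.range (kF φ)).map
      (fun γ => (qF φ + 3 + γ, [qF φ, qF φ + 1, qF φ + 2]))) :=
    PolyTime.map (g := fun φ γ => (qF φ + 3 + γ, [qF φ, qF φ + 1, qF φ + 2])) h2 (by fun_prop)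
  exact PolyTime.append h3 h7

/-- The program of the reduction. -/
def redP (φ : CNF) : List (ℕ × List ℕ) := satP (sF φ) (qF φ) (kF φ) (ren φ)

@[fun_prop]
theorem pt_redP : PolyTime redP := by
  have h1 : PolyTime (fun φ : CNF => baseF φ ++ (ren φ).flatMap (fun C => clauseF (φ, C))) := by
    refine PolyTime.append pt_baseF (PolyTime.flatMap (g := fun φ C => clauseF (φ, C)) pt_ren ?_)
    exact pt_clauseF
  exact h1.congr (fun φ => rfl)

/-! ### correctness -/

theorem ren_groups (φ : CNF) : ∀ C ∈ ren φ, C.1.1 / sF φ < kF φ ∧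
    C.2.1.1 / sF φ < kF φ ∧ C.2.2.1 / sF φ < kF φ := by
  intro C' hC'
  unfold ren at hC'
  rw [List.mem_map] at hC'
  obtain ⟨C, hC, rfl⟩ := hC'
  obtain ⟨h0, h1, h2⟩ := mem_vars hC
  have key : ∀ v ∈ vars φ, rk (varsL φ) v / sF φ < kF φ := by
    intro v hv
    have := rk_lt φ v hv
    rw [card_vars] at this
    exact lt_pK this
  exact ⟨key _ h0, key _ h1, key _ h2⟩

/-- The expression of the reduction. -/
def redE (φ : CNF) : KExpr := progE (redP φ)

/-- The width of the expression. -/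
def redW (φ : CNF) : ℕ := qF φ + kF φ + 7

theorem isK_redE (φ : CNF) : (redE φ).IsK (redW φ) := isK_satP _ _ _ _ (ren_groups φ)

theorem redW_le (φ : CNF) :
    redW φ ≤ 18 * ((vars φ).card / (Nat.log 2 (vars φ).card + 1) + 1) := by
  rw [card_vars]
  exact width_le _

theorem input_redE (φ : CNF) : (redE φ).input = PEnc.enc (tokP (redP φ)) := by
  unfold input redE
  rw [tok_progE]

/-- The final answer. -/
def ansF (x : CNF × List (List ℕ)) : Bool := testP (qF x.1 + 3) (redP x.1) x.2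

theorem pt_ansF : PolyTime ansF :=
  PolyTime.comp (f := fun x : CNF × List (List ℕ) => (qF x.1 + 3, redP x.1, x.2))
    pt_testP (by fun_prop)

open Classical in
theorem ansF_eq (φ : CNF) : ansF (φ, (redE φ).table) = decide (Sat φ) := by
  have h1 : ansF (φ, (redE φ).table) = true ↔ Sat φ := by
    unfold ansF redE
    have hwf : WF (redP φ) {0} := wf_satP _ _ _ (by unfold qF; positivity) _ (ren_groups φ)
    rw [testP_iff (qF φ + 3) (by omega) (redP φ) hwf (fun _ => 0), ← sat_ren]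
    exact run_satP (sF φ) (kF φ) (pS_pos _) (ren φ) (ren_groups φ) _
  rw [Bool.eq_iff_iff, h1, decide_eq_true_iff]

/-! ### time -/

theorem ComputesInTime.pos {α : Type} {inp out : α → List Bool} {T : α → ℕ}
    (h : ComputesInTime inp out T) (a : α) : 1 ≤ T a := by
  obtain ⟨M, hM⟩ := h
  obtain ⟨hM⟩ := hM a
  by_contra h0
  have h1 : hM.steps = 0 := by
    have := hM.steps_le_m
    omega
  have h2 := hM.evals_in_steps
  rw [h1] at h2
  have h3 := congrArg (Option.map (fun c : M.tm.Cfg => c.l)) h2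
  have h4 : some (some M.tm.main) = some (none : Option M.tm.Λ) := h3
  exact absurd (Option.some.inj h4) (by simp)

/-- Time bounds of the form `τ * poly`. -/
def TB {α : Type} [PEnc α] (τ b : α → ℕ) : Prop :=
  ∃ c, ∀ a, b a ≤ τ a * (PolyTime.size a + 2) ^ c

section TB

variable {α : Type} [PEnc α] {τ b b' : α → ℕ}

theorem TB.of_pbd (hτ : ∀ a, 1 ≤ τ a) (hb : PBd b) : TB τ b := by
  obtain ⟨c, hc⟩ := hb
  exact ⟨c, fun a => (hc a).trans (Nat.le_mul_of_pos_left _ (hτ a))⟩

theorem TB.add (hb : TB τ b) (hb' : TB τ b') : TB τ (fun a => b a + b' a) := by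
  obtain ⟨c, hc⟩ := hb
  obtain ⟨c', hc'⟩ := hb'
  refine ⟨max c c' + 1, fun a => (Nat.add_le_add (hc a) (hc' a)).trans ?_⟩
  rw [← Nat.mul_add]
  exact Nat.mul_le_mul_left _ (Pool.Agent.PolyTime.pow_add_le _ _ _)

theorem TB.mul (hb : PBd b) (hb' : TB τ b') : TB τ (fun a => b a * b' a) := by
  obtain ⟨c, hc⟩ := hb
  obtain ⟨c', hc'⟩ := hb'
  refine ⟨c + c', fun a => (Nat.mul_le_mul (hc a) (hc' a)).trans (le_of_eq ?_)⟩
  rw [pow_add]
  ring

theorem TB.mono (hb : TB τ b) (h : ∀ a, b' a ≤ b a) : TB τ b' := by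
  obtain ⟨c, hc⟩ := hb
  exact ⟨c, fun a => (h a).trans (hc a)⟩

theorem pbd_poly (P : Polynomial ℕ) {n : α → ℕ} (hn : PBd n) : PBd (fun a => P.eval (n a)) := by
  obtain ⟨k, hk⟩ := Pool.Agent.PolyTime.exists_pow_bound P
  exact ((hn.add (PBd.const 2)).pow k).mono (fun a => hk _)

end TB

/-- The main reduction. -/
theorem satTime_of_qTime {T : ℕ → ℕ} (hT : Monotone T) (hQ : QTimeOn IsLin T) :
    SatTime (fun n => T (18 * (n / (Nat.log 2 n + 1) + 1))) := by
  classical
  obtain ⟨c, hM⟩ := hQ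
  have hpos : ∀ k, 1 ≤ k → 1 ≤ T k := by
    intro k hk
    by_contra h0
    have h1 := ComputesInTime.pos hM ⟨(k, vertex 0), hk, trivial⟩
    have h2 : T k = 0 := by omega
    dsimp only at h1
    rw [h2, zero_mul] at h1
    omega
  have hM' : ComputesInTime (fun φ => (redE φ).input) (fun φ => (redE φ).output)
      (fun φ => T (redW φ) * ((redE φ).input.length + 2) ^ c) := by
    obtain ⟨M, hM⟩ := hM
    exact ⟨M, fun φ => hM ⟨(redW φ, redE φ), isK_redE φ, isLin_progE _⟩⟩
  obtain ⟨C, hprog⟩ := TProg.of_computes hM'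
  have hred : PolyTime (fun φ : CNF => tokP (redP φ)) := PolyTime.comp pt_tokP pt_redP
  have hinp : PBd (fun φ : CNF => (redE φ).input.length) := by
    refine (PolyTime.pbd hred).mono (fun φ => ?_)
    rw [input_redE]
    rfl
  have hout : PBd (fun φ : CNF => (redE φ).output.length) :=
    ((hinp.add (PBd.const 2)).pow 6).mono (fun φ => length_output _)
  obtain ⟨F, hF, hF'⟩ := hred
  obtain ⟨P1, h1⟩ := TProg.of_FP (fun φ : CNF => PEnc.enc φ) hF
  have e1 : (fun φ : CNF => F (PEnc.enc φ)) = fun φ => (redE φ).input := by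
    funext φ
    rw [hF', input_redE]
  rw [e1] at h1
  have h2 := h1.comp hprog
  obtain ⟨P0, h0⟩ := TProg.of_FP (fun φ : CNF => PEnc.enc φ) FP.id
  have h3 := h0.pair h2
  obtain ⟨G, hG, hG'⟩ := pt_ansF
  obtain ⟨P4, h4⟩ := TProg.of_FP (fun φ : CNF => pr (PEnc.enc φ) (redE φ).output) hG
  have e4 : (fun φ : CNF => G (pr (PEnc.enc φ) (redE φ).output)) = fun φ => [decide (Sat φ)] := by
    funext φ
    have := hG' (φ, (redE φ).table)
    rw [ansF_eq] at this
    exact this
  rw [e4] at h4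
  have h5 := (h3.comp h4).computes
  have hτ : ∀ φ : CNF, 1 ≤ T (redW φ) := fun φ => hpos _ (by unfold redW; omega)
  have hN : PBd (fun φ : CNF => (PEnc.enc φ).length) := PBd.size
  have hTM : TB (fun φ : CNF => T (redW φ))
      (fun φ => T (redW φ) * ((redE φ).input.length + 2) ^ c) := by
    obtain ⟨k, hk⟩ := (hinp.add (PBd.const 2)).pow c
    exact ⟨k, fun φ => Nat.mul_le_mul_left _ (hk φ)⟩
  have hpair : PBd (fun φ : CNF => (pr (PEnc.enc φ) (redE φ).output).length) := by
    refine ((((PBd.const 2).mul hN).add (PBd.const 1)).add hout).mono (fun φ => ?_)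
    rw [Pool.Agent.PolyTime.length_pr]
  have b1 : TB (fun φ : CNF => T (redW φ)) (fun φ => 5 * (P1.eval (PEnc.enc φ).length +
      (PEnc.enc φ).length) + 2 + C * (T (redW φ) * ((redE φ).input.length + 2) ^ c +
        (redE φ).input.length + 1)) := by
    refine TB.add (TB.of_pbd hτ ?_) (TB.mul (PBd.const C) (TB.add (TB.add hTM
      (TB.of_pbd hτ hinp)) (TB.of_pbd hτ (PBd.const 1))))
    exact ((PBd.const 5).mul ((pbd_poly P1 hN).add hN)).add (PBd.const 2)
  have b2 := ((TB.mul (PBd.const 6) (TB.of_pbd hτ (pbd_poly P0 hN))).add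
    (TB.mul (PBd.const 5) b1)).add (TB.of_pbd hτ ((PBd.const 20).mul hN)) |>.add
      (TB.of_pbd hτ (PBd.const 20))
  have b3 := ((TB.mul (PBd.const 5) (b2.add (TB.of_pbd hτ hN))).add
    (TB.of_pbd hτ (PBd.const 2))).add (TB.of_pbd hτ (pbd_poly P4 hpair)) |>.add
      (TB.of_pbd hτ (PBd.const 1))
  obtain ⟨c', hc'⟩ := b3
  refine ⟨c', ?_⟩
  obtain ⟨M, hM5⟩ := h5
  refine ⟨M, fun φ => ?_⟩
  obtain ⟨hx⟩ := hM5 φ
  refine ⟨⟨hx.toEvalsTo, hx.steps_le_m.trans ?_⟩⟩
  refine (hc' φ).trans ?_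
  exact Nat.mul_le_mul_right _ (hT (redW_le φ))

end Pool.Agent.Helper88.CW
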