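import Pool.Agent.Helper88.CW.Corr
import Pool.Agent.Helper88.CW.Timed

/-!
Padding, and the running time of the dynamic programme.
-/

namespace Pool.Agent.Helper88.CW

open Pool.Agent.PolyTime (PEnc PolyTime PBd FP pr poly_mono)
open Pool.Agent.PolyTime.Prog
open KExpr

/-- Iteration of a polynomial time function, with an arbitrary bound for the intermediate
results. -/
theorem TProg.iterate {α : Type} (g h : α → List Bool) {F : List Bool → List Bool} (hF : FP F)
    (B : α → ℕ) (hB : ∀ a i, i ≤ (g a).length → (F^[i] (h a)).length ≤ B a) :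
    ∃ P : Polynomial ℕ, TProg (fun a => pr (g a) (h a)) (fun a => F^[(g a).length] (h a))
      (fun a => ((g a).length + 1) * (P.eval (B a) + 12 * B a + 10)) := by
  obtain ⟨Kf, _, _, f₀, f₁, pf, Pf, hf⟩ := Pool.Agent.PolyTime.ProgFP_of_FP hF
  refine ⟨Pf, K2 Kf Unit, inferInstance, inferInstance, ra, ra,
    (seq (loop ra (moveRev ra rt) (seq (pop ra) (push (rg ()) true)))
      (seq (moveRev rt (rf f₀)) (seq (loop (rg ()) (iterBody pf f₀ f₁) (iterBody pf f₀ f₁))
        (seq (moveRev (rf f₀) rt) (moveRev rt ra))))), fun a => ?_⟩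
  obtain ⟨t0, c', ht0, hc', e0⟩ := exec_iterInit (K := Kf) (h a) (g a) []
  have hc0 : c'.length = (g a).length := by simpa using hc'
  obtain ⟨t1, ht1, e2⟩ := exec_iterLoop (pf := pf) (f₀ := f₀) (f₁ := f₁) (f := F) hf
    (B a) c' (h a) (fun i hi => hB a i (by omega))
  rw [hc0] at e2 ht1
  have e1 : Exec (moveRev rt (rf f₀)) (st2 (bot Kf) (one c') [] (h a).reverse)
      (st2 (single f₀ (h a)) (one c') [] []) (2 * (h a).reverse.length + 1) :=
    mv (by simp) (by simp) (by simp)
  have e3 : Exec (moveRev (rf f₀) rt)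
      (st2 (single f₀ (F^[(g a).length] (h a))) (one []) [] [])
      (st2 (bot Kf) (one []) [] (F^[(g a).length] (h a)).reverse)
      (2 * (F^[(g a).length] (h a)).length + 1) := mv (by simp) (by simp) (by simp)
  have e4 : Exec (moveRev rt ra)
      (st2 (bot Kf) (one []) [] (F^[(g a).length] (h a)).reverse)
      (st2 (bot Kf) (one []) (F^[(g a).length] (h a)) [])
      (2 * (F^[(g a).length] (h a)).reverse.length + 1) := mv (by simp) (by simp) (by simp)
  refine ⟨_, ?_, (Exec.seq e0 (Exec.seq e1 (Exec.seq e2 (Exec.seq e3 e4)))).cast ?_ ?_ rfl⟩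
  · have h2 := hB a 0 (by omega)
    have h3 := hB a (g a).length le_rfl
    simp only [Function.iterate_zero, id_eq] at h2
    simp only [List.length_reverse]
    have h5 : ((g a).length + 1) * (Pf.eval (B a) + 12 * B a + 10) =
        (g a).length * (Pf.eval (B a) + 4 * B a + 3) + (g a).length * (8 * B a + 7) +
          (Pf.eval (B a) + 12 * B a + 10) := by ring
    have h6 : (g a).length * 7 ≤ (g a).length * (8 * B a + 7) :=
      Nat.mul_le_mul_left _ (by omega)
    omega
  · rw [single_ra, bot_unit]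
  · rw [single_ra, bot_unit]

/-- Doubling the padding. -/
def dbl (q : Inp) : Inp := (q.1, q.2 ++ q.2)

theorem pt_dbl : PolyTime dbl := by
  unfold dbl
  fun_prop

theorem dbl_iter (t : List Tok) (i : ℕ) :
    dbl^[i] (t, [()]) = (t, List.replicate (2 ^ i) ()) := by
  induction i with
  | zero => rfl
  | succ i ih =>
    rw [Function.iterate_succ_apply', ih]
    unfold dbl
    dsimp only
    rw [← List.replicate_add]
    congr 2
    ring

/-- First counter. -/
def cA (t : List Tok) : List Unit := List.replicate (Nat.size (widthF t)) ()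

/-- Second counter. -/
def cB (q : Inp) : List Unit :=
  List.replicate ((Nat.size (widthF q.1) + 2) * q.2.length) ()

theorem pbd_sizeW : PBd (fun t : List Tok => Nat.size (widthF t)) := by
  refine (PolyTime.pbd (f := widthF) (by fun_prop)).mono (fun t => ?_)
  rw [Pool.Agent.PolyTime.size_nat]

theorem pt_cA : PolyTime cA := by
  unfold cA
  exact PolyTime.replicate (by fun_prop) pbd_sizeW (by fun_prop)

theorem pt_cB : PolyTime cB := by
  unfold cB
  refine PolyTime.replicate (by fun_prop) ?_ (by fun_prop)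
  refine PBd.mul (PBd.add ?_ (PBd.const 2)) ?_
  · exact PBd.comp (f := fun q : Inp => q.1) pbd_sizeW (by fun_prop)
  · exact Pool.Agent.PolyTime.pbd_length (by fun_prop)

theorem length_enc_replicate (n : ℕ) : (PEnc.enc (List.replicate n ())).length = n := by
  rw [Pool.Agent.PolyTime.enc_replicate_unit, List.length_replicate]

theorem length_enc_inp (t : List Tok) (n : ℕ) :
    (PEnc.enc ((t, List.replicate n ()) : Inp)).length = 2 * (PEnc.enc t).length + 1 + n := by
  change (pr (PEnc.enc t) (PEnc.enc (List.replicate n ()))).length = _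
  rw [Pool.Agent.PolyTime.length_pr, length_enc_replicate]

/-- Exponent of the padding. -/
def mP (t : List Tok) : ℕ := (Nat.size (widthF t) + 2) * 2 ^ Nat.size (widthF t)

/-- Functions bounded by a power of `H`. -/
def PG {α : Type} (H b : α → ℕ) : Prop := ∃ c, ∀ a, b a ≤ (H a + 2) ^ c

section PG

variable {α : Type} {H b b' : α → ℕ}

theorem PG.const (c : ℕ) : PG H (fun _ => c) := ⟨c, fun _ => Pool.Agent.PolyTime.const_le_pow _ _⟩

theorem PG.self : PG H H := ⟨1, fun a => by rw [pow_one]; omega⟩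

theorem PG.mono (hb : PG H b) (h : ∀ a, b' a ≤ b a) : PG H b' := by
  obtain ⟨c, hc⟩ := hb
  exact ⟨c, fun a => (h a).trans (hc a)⟩

theorem PG.add (hb : PG H b) (hb' : PG H b') : PG H (fun a => b a + b' a) := by
  obtain ⟨c, hc⟩ := hb
  obtain ⟨c', hc'⟩ := hb'
  exact ⟨max c c' + 1, fun a => (add_le_add (hc a) (hc' a)).trans
    (Pool.Agent.PolyTime.pow_add_le _ _ _)⟩

theorem PG.mul (hb : PG H b) (hb' : PG H b') : PG H (fun a => b a * b' a) := by
  obtain ⟨c, hc⟩ := hb
  obtain ⟨c', hc'⟩ := hb'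
  refine ⟨c + c', fun a => ?_⟩
  rw [pow_add]
  exact Nat.mul_le_mul (hc a) (hc' a)

theorem PG.poly (P : Polynomial ℕ) (hb : PG H b) : PG H (fun a => P.eval (b a)) := by
  obtain ⟨k, hk⟩ := Pool.Agent.PolyTime.exists_pow_bound P
  obtain ⟨c, hc⟩ := hb.add (PG.const 2)
  refine ⟨c * k, fun a => (hk _).trans ?_⟩
  rw [pow_mul]
  exact Nat.pow_le_pow_left (hc a) k

end PG

/-- The dynamic programme on machines. -/
theorem tprog_alg (𝒟 : Type) (E : 𝒟 → KExpr) (hE : ∀ a, ∃ k, (E a).IsK k) :
    ∃ T : 𝒟 → ℕ, TProg (fun a => (E a).input) (fun a => (E a).output) T ∧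
      PG (fun a => (E a).input.length + 2 ^ mP (E a).tok) T := by
  set H : 𝒟 → ℕ := fun a => (E a).input.length + 2 ^ mP (E a).tok with hH
  obtain ⟨F, hF, hF'⟩ := pt_dbl
  have hFi : ∀ (i : ℕ) (q : Inp), F^[i] (PEnc.enc q) = PEnc.enc (dbl^[i] q) := by
    intro i
    induction i with
    | zero => intro q; rfl
    | succ i ih =>
      intro q
      rw [Function.iterate_succ_apply, Function.iterate_succ_apply, hF', ih]
  have hsle : ∀ t : List Tok, 2 ^ Nat.size (widthF t) ≤ 2 ^ mP t := by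
    intro t
    refine Nat.pow_le_pow_right (by norm_num) ?_
    unfold mP
    have h1 : 1 ≤ 2 ^ Nat.size (widthF t) := Nat.one_le_two_pow
    nlinarith
  -- first stage
  have p1 : PolyTime (fun t : List Tok => (cA t, ((t, [()]) : Inp))) := by
    have := pt_cA
    fun_prop
  obtain ⟨G1, hG1, hG1'⟩ := p1
  obtain ⟨P1, t1⟩ := TProg.of_FP (fun a : 𝒟 => (E a).input) hG1
  have e1 : (fun a : 𝒟 => G1 (E a).input) = fun a => pr (PEnc.enc (cA (E a).tok))
      (PEnc.enc (((E a).tok, [()]) : Inp)) := by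
    funext a
    exact hG1' (E a).tok
  rw [e1] at t1
  obtain ⟨Q1, t2⟩ := TProg.iterate (fun a : 𝒟 => PEnc.enc (cA (E a).tok))
    (fun a : 𝒟 => PEnc.enc (((E a).tok, [()]) : Inp)) hF
    (fun a => 2 * (E a).input.length + 1 + 2 ^ mP (E a).tok) (by
      intro a i hi
      unfold cA at hi
      rw [length_enc_replicate] at hi
      rw [hFi, dbl_iter, length_enc_inp]
      have h1 : 2 ^ i ≤ 2 ^ Nat.size (widthF (E a).tok) := Nat.pow_le_pow_right (by norm_num) hi
      have h2 := hsle (E a).tok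
      have h3 : (E a).input = PEnc.enc (E a).tok := rfl
      rw [h3]
      omega)
  have e2 : (fun a : 𝒟 => F^[(PEnc.enc (cA (E a).tok)).length]
      (PEnc.enc (((E a).tok, [()]) : Inp))) = fun a => PEnc.enc
        (((E a).tok, List.replicate (2 ^ Nat.size (widthF (E a).tok)) ()) : Inp) := by
    funext a
    unfold cA
    rw [length_enc_replicate, hFi, dbl_iter]
  rw [e2] at t2
  have t12 := t1.comp t2
  -- second stage
  have p3 : PolyTime (fun q : Inp => (cB q, ((q.1, [()]) : Inp))) := by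
    have := pt_cB
    fun_prop
  obtain ⟨G3, hG3, hG3'⟩ := p3
  obtain ⟨P3, t3⟩ := TProg.of_FP (fun a : 𝒟 => PEnc.enc
        (((E a).tok, List.replicate (2 ^ Nat.size (widthF (E a).tok)) ()) : Inp)) hG3
  have hcB : ∀ t : List Tok, cB (t, List.replicate (2 ^ Nat.size (widthF t)) ()) =
      List.replicate (mP t) () := by
    intro t
    unfold cB mP
    dsimp only
    rw [List.length_replicate]
  have e3 : (fun a : 𝒟 => G3 (PEnc.enc
        (((E a).tok, List.replicate (2 ^ Nat.size (widthF (E a).tok)) ()) : Inp))) = fun a =>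
      pr (PEnc.enc (List.replicate (mP (E a).tok) ())) (PEnc.enc (((E a).tok, [()]) : Inp)) := by
    funext a
    rw [hG3']
    dsimp only
    rw [hcB]
    rfl
  rw [e3] at t3
  obtain ⟨Q3, t4⟩ := TProg.iterate (fun a : 𝒟 => PEnc.enc (List.replicate (mP (E a).tok) ()))
    (fun a : 𝒟 => PEnc.enc (((E a).tok, [()]) : Inp)) hF
    (fun a => 2 * (E a).input.length + 1 + 2 ^ mP (E a).tok) (by
      intro a i hi
      rw [length_enc_replicate] at hi
      rw [hFi, dbl_iter, length_enc_inp]
      have h1 : 2 ^ i ≤ 2 ^ mP (E a).tok := Nat.pow_le_pow_right (by norm_num) hi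
      have h3 : (E a).input = PEnc.enc (E a).tok := rfl
      rw [h3]
      omega)
  have e4 : (fun a : 𝒟 => F^[(PEnc.enc (List.replicate (mP (E a).tok) ())).length]
      (PEnc.enc (((E a).tok, [()]) : Inp))) = fun a => PEnc.enc
        (((E a).tok, List.replicate (2 ^ mP (E a).tok) ()) : Inp) := by
    funext a
    rw [length_enc_replicate, hFi, dbl_iter]
  rw [e4] at t4
  -- third stage
  obtain ⟨G5, hG5, hG5'⟩ := pt_algF
  obtain ⟨P5, t5⟩ := TProg.of_FP (fun a : 𝒟 => PEnc.enc
        (((E a).tok, List.replicate (2 ^ mP (E a).tok) ()) : Inp)) hG5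
  have hpad : ∀ t : List Tok, (widthF t + 3) ^ widthF t ≤ 2 ^ mP t := by
    intro t
    have h1 : widthF t < 2 ^ Nat.size (widthF t) := Nat.size_le.1 le_rfl
    have h2 : widthF t + 3 ≤ 2 ^ (Nat.size (widthF t) + 2) := by
      rw [pow_add]
      omega
    calc (widthF t + 3) ^ widthF t ≤ (2 ^ (Nat.size (widthF t) + 2)) ^ widthF t :=
          Nat.pow_le_pow_left h2 _
      _ = 2 ^ ((Nat.size (widthF t) + 2) * widthF t) := (pow_mul _ _ _).symm
      _ ≤ 2 ^ mP t := Nat.pow_le_pow_right (by norm_num) (Nat.mul_le_mul_left _ h1.le)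
  have e5 : (fun a : 𝒟 => G5 (PEnc.enc
        (((E a).tok, List.replicate (2 ^ mP (E a).tok) ()) : Inp))) = fun a => (E a).output := by
    funext a
    obtain ⟨k, hk⟩ := hE a
    rw [hG5', algF_eq (E a) hk _ (by rw [List.length_replicate]; exact hpad _)]
    rfl
  rw [e5] at t5
  refine ⟨_, ((t12.comp t3).comp t4).comp t5, ?_⟩
  -- the bound
  have bN : PG H (fun a => (E a).input.length) := PG.self.mono (fun a => Nat.le_add_right _ _)
  have bG : PG H (fun a => 2 ^ mP (E a).tok) := PG.self.mono (fun a => Nat.le_add_left _ _)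
  have bB : PG H (fun a => 2 * (E a).input.length + 1 + 2 ^ mP (E a).tok) :=
    (((PG.const 2).mul bN).add (PG.const 1)).add bG
  have bS : PG H (fun a => Nat.size (widthF (E a).tok)) := by
    refine bG.mono (fun a => ?_)
    exact (Nat.lt_two_pow_self.le).trans (hsle _)
  have bM : PG H (fun a => mP (E a).tok) := bG.mono (fun a => Nat.lt_two_pow_self.le)
  have bcA : PG H (fun a => (PEnc.enc (cA (E a).tok)).length) := by
    refine bS.mono (fun a => ?_)
    unfold cA
    rw [length_enc_replicate]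
  have bcB : PG H (fun a => (PEnc.enc (List.replicate (mP (E a).tok) ())).length) := by
    refine bM.mono (fun a => ?_)
    rw [length_enc_replicate]
  have bI1 : PG H (fun a => (PEnc.enc (((E a).tok,
      List.replicate (2 ^ Nat.size (widthF (E a).tok)) ()) : Inp)).length) := by
    refine bB.mono (fun a => ?_)
    rw [length_enc_inp]
    have h2 := hsle (E a).tok
    have h3 : (E a).input = PEnc.enc (E a).tok := rfl
    rw [h3]
    omega
  have bI2 : PG H (fun a => (PEnc.enc (((E a).tok,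
      List.replicate (2 ^ mP (E a).tok) ()) : Inp)).length) := by
    refine bB.mono (fun a => ?_)
    rw [length_enc_inp]
    exact le_rfl
  have b1 : PG H (fun a => P1.eval (E a).input.length) := PG.poly P1 bN
  have b2 := (bcA.add (PG.const 1)).mul (((PG.poly Q1 bB).add ((PG.const 12).mul bB)).add
    (PG.const 10))
  have b12 := (((PG.const 5).mul (b1.add bN)).add (PG.const 2)).add b2
  have b3 := PG.poly P3 bI1
  have b123 := (((PG.const 5).mul (b12.add bN)).add (PG.const 2)).add b3
  have b4 := (bcB.add (PG.const 1)).mul (((PG.poly Q3 bB).add ((PG.const 12).mul bB)).add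
    (PG.const 10))
  have b1234 := (((PG.const 5).mul (b123.add bN)).add (PG.const 2)).add b4
  have b5 := PG.poly P5 bI2
  have b12345 := (((PG.const 5).mul (b1234.add bN)).add (PG.const 2)).add b5
  exact b12345

/-- Upper bound: the subgraph component polynomial is computable in time
`2 ^ O(k log k) * N ^ O(1)`. -/
theorem qTime_upper : ∃ C : ℕ, QTime (fun k => 2 ^ (C * (k * (Nat.log 2 k + 1)))) := by
  obtain ⟨T, hT, c, hc⟩ := tprog_alg {p : ℕ × KExpr // p.2.IsK p.1 ∧ True} (fun p => p.1.2)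
    (fun p => ⟨p.1.1, p.2.1⟩)
  obtain ⟨M, hM⟩ := hT.computes
  refine ⟨12 * (c + 1), c + 1, M, fun p => ?_⟩
  obtain ⟨hx⟩ := hM p
  refine ⟨⟨hx.toEvalsTo, hx.steps_le_m.trans ?_⟩⟩
  obtain ⟨⟨k, e⟩, hk, _⟩ := p
  dsimp only at hk ⊢
  have h1 := hc ⟨(k, e), hk, trivial⟩
  dsimp only at h1
  set N := e.input.length with hN
  set G := 2 ^ mP e.tok with hG
  have hG2 : 2 ≤ G := by
    have h2 : 1 ≤ mP e.tok := by
      unfold mP
      have : 1 ≤ 2 ^ Nat.size (widthF e.tok) := Nat.one_le_two_pow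
      nlinarith
    calc 2 = 2 ^ 1 := by norm_num
      _ ≤ G := Nat.pow_le_pow_right (by norm_num) h2
  have hbase : N + G + 2 ≤ (N + 2) * G ^ 2 := by
    have h5 : 2 * G ≤ G ^ 2 := by nlinarith
    calc N + G + 2 ≤ (N + 2) * (2 * G) := by nlinarith [Nat.zero_le N, Nat.zero_le (N * G)]
      _ ≤ (N + 2) * G ^ 2 := Nat.mul_le_mul_left _ h5
  have hwk : widthF e.tok ≤ k := widthF_le e hk
  have hk1 : 1 ≤ k := le_trans (by unfold widthF; omega) hwk
  have hmP : mP e.tok ≤ 6 * (k * (Nat.log 2 k + 1)) := by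
    have h3 : Nat.size (widthF e.tok) ≤ Nat.log 2 k + 1 := by
      rw [Nat.size_le]
      exact lt_of_le_of_lt hwk (Nat.lt_pow_succ_log_self (by norm_num) k)
    have h4 : 2 ^ Nat.size (widthF e.tok) ≤ 2 * k := by
      calc 2 ^ Nat.size (widthF e.tok) ≤ 2 ^ (Nat.log 2 k + 1) :=
            Nat.pow_le_pow_right (by norm_num) h3
        _ = 2 * 2 ^ Nat.log 2 k := by rw [pow_succ]; ring
        _ ≤ 2 * k := Nat.mul_le_mul_left _ (Nat.pow_log_le_self 2 (by omega))
    unfold mP
    calc (Nat.size (widthF e.tok) + 2) * 2 ^ Nat.size (widthF e.tok)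
        ≤ (Nat.log 2 k + 1 + 2) * (2 * k) := Nat.mul_le_mul (by omega) h4
      _ ≤ (3 * (Nat.log 2 k + 1)) * (2 * k) := Nat.mul_le_mul_right _ (by omega)
      _ = 6 * (k * (Nat.log 2 k + 1)) := by ring
  calc T ⟨(k, e), hk, trivial⟩ + 1 ≤ (N + G + 2) ^ c + 1 := by omega
    _ ≤ (N + G + 2) ^ (c + 1) := by
        rw [pow_succ]
        have h5 : 1 ≤ (N + G + 2) ^ c := Nat.one_le_pow _ _ (by omega)
        nlinarith
    _ ≤ ((N + 2) * G ^ 2) ^ (c + 1) := Nat.pow_le_pow_left hbase _
    _ = G ^ (2 * (c + 1)) * (N + 2) ^ (c + 1) := by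
        rw [mul_pow, ← pow_mul]
        ring
    _ = 2 ^ (mP e.tok * (2 * (c + 1))) * (N + 2) ^ (c + 1) := by
        rw [hG, ← pow_mul]
    _ ≤ 2 ^ (12 * (c + 1) * (k * (Nat.log 2 k + 1))) * (N + 2) ^ (c + 1) := by
        refine Nat.mul_le_mul_right _ (Nat.pow_le_pow_right (by norm_num) ?_)
        calc mP e.tok * (2 * (c + 1)) ≤ 6 * (k * (Nat.log 2 k + 1)) * (2 * (c + 1)) :=
              Nat.mul_le_mul_right _ hmP
          _ = 12 * (c + 1) * (k * (Nat.log 2 k + 1)) := by ring

end Pool.Agent.Helper88.CW
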