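import Pool.Agent.Helper88.CW.W

/-!
Constraint patterns coded by lists of natural numbers.
-/

namespace Pool.Agent.Helper88.CW

open Finset Function KExpr

/-- Overwrite an entry. -/
def setp (p : List ℕ) (a v : ℕ) : List ℕ :=
  p.zipIdx.map (fun xi => bif decide (xi.2 = a) then v else xi.1)

theorem length_setp (p : List ℕ) (a v : ℕ) : (setp p a v).length = p.length := by
  simp [setp]

theorem getElem?_setp (p : List ℕ) (a v i : ℕ) :
    (setp p a v)[i]? = (p[i]?).map (fun x => if i = a then v else x) := by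
  unfold setp
  rw [List.getElem?_map, List.getElem?_zipIdx]
  rcases p[i]? with _ | x
  · rfl
  · simp only [Option.map_some, zero_add]
    by_cases hi : i = a
    · simp [hi]
    · simp [hi]

theorem getD_setp (p : List ℕ) (a v i : ℕ) (ha : a < p.length) :
    (setp p a v).getD i 0 = if i = a then v else p.getD i 0 := by
  rw [List.getD_eq_getElem?_getD, List.getD_eq_getElem?_getD, getElem?_setp]
  by_cases hi : i < p.length
  · rw [List.getElem?_eq_getElem hi]
    rfl
  · rw [List.getElem?_eq_none (by omega), if_neg (by omega)]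
    rfl

theorem mem_setp {p : List ℕ} {a v x : ℕ} (h : x ∈ setp p a v) : x = v ∨ x ∈ p := by
  unfold setp at h
  rw [List.mem_map] at h
  obtain ⟨⟨y, i⟩, hy, rfl⟩ := h
  by_cases hi : i = a
  · left
    simp [hi]
  · right
    have := List.mem_zipIdx hy
    simp only [hi, decide_false, cond_false]
    have h2 := this.2.2
    rw [h2]
    exact List.getElem_mem _

/-- Restrict a constraint to the colour `c`. -/
def mt (v c : ℕ) : ℕ := bif decide (v = 0) then c + 2 else bif decide (v = c + 2) then c + 2 else 1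

variable {K : ℕ}

/-- The constraint coded by a number: `0` is no constraint, `1` is no colour, `c + 2` is only the
colour `c`. -/
def dec (K v : ℕ) : Set (Fin K) :=
  {x | v ≠ 1 ∧ (v ≠ 0 → x.val + 2 = v)}

theorem dec_zero : dec K 0 = Set.univ := by
  ext x; simp [dec]

theorem dec_one : dec K 1 = ∅ := by
  ext x; simp [dec]

theorem dec_col (c : ℕ) : dec K (c + 2) = {x | x.val = c} := by
  ext x; simp [dec]

theorem dec_mt (v c : ℕ) : dec K (mt v c) = dec K v ∩ {x | x.val = c} := by
  unfold mt
  by_cases h0 : v = 0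
  · subst h0
    rw [decide_eq_true rfl, cond_true, dec_col, dec_zero, Set.univ_inter]
  · rw [decide_eq_false h0, cond_false]
    by_cases h1 : v = c + 2
    · rw [decide_eq_true h1, cond_true, h1, dec_col, Set.inter_self]
    · rw [decide_eq_false h1, cond_false, dec_one]
      ext x
      simp only [dec, Set.mem_empty_iff_false, Set.mem_inter_iff, Set.mem_ofPred_eq, false_iff,
        not_and]
      rintro ⟨h2, h3⟩ h4
      exact h1 (by rw [← h3 h0, h4])

/-- The constraints of a pattern. -/
def pat (K : ℕ) (p : List ℕ) : ℕ → Set (Fin K) := fun a => dec K (p.getD a 0)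

theorem pat_setp (p : List ℕ) (a v : ℕ) (ha : a < p.length) :
    pat K (setp p a v) = update (pat K p) a (dec K v) := by
  funext i
  unfold pat
  rw [getD_setp p a v i ha]
  by_cases hi : i = a
  · rw [if_pos hi, hi, update_self]
  · rw [if_neg hi, update_of_ne hi]

theorem pat_setp2 (p : List ℕ) (a b u v : ℕ) (ha : a < p.length) (hb : b < p.length) :
    pat K (setp (setp p a u) b v) = update (update (pat K p) a (dec K u)) b (dec K v) := by
  rw [pat_setp _ _ _ (by rwa [length_setp]), pat_setp _ _ _ ha]

/-- The contribution of a common colour. -/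
noncomputable def DZ (K : ℕ) (x : ℤ) (e : KExpr) (p : List ℕ) (a b c : ℕ) : ℤ :=
  W x e (pat K (setp (setp p a (mt (p.getD a 0) c)) b (mt (p.getD b 0) c))) -
    W x e (pat K (setp (setp p a (mt (p.getD a 0) c)) b 1)) -
    W x e (pat K (setp (setp p a 1) b (mt (p.getD b 0) c))) +
    W x e (pat K (setp (setp p a 1) b 1))

theorem swap_dec {c c' : Fin K} {v : ℕ} (h1 : v ≠ c.val + 2) (h2 : v ≠ c'.val + 2) :
    Equiv.swap c c' '' dec K v = dec K v := by
  rcases Nat.eq_zero_or_pos v with h | h
  · subst h
    rw [dec_zero, Set.image_univ, Equiv.range_eq_univ]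
  · by_cases h3 : v = 1
    · subst h3
      rw [dec_one, Set.image_empty]
    · obtain ⟨d, rfl⟩ : ∃ d, v = d + 2 := ⟨v - 2, by omega⟩
      rw [dec_col]
      ext x
      simp only [Set.mem_image, Set.mem_ofPred_eq]
      constructor
      · rintro ⟨y, hy, rfl⟩
        rw [Equiv.swap_apply_of_ne_of_ne]
        · exact hy
        · intro h4; rw [h4] at hy; omega
        · intro h4; rw [h4] at hy; omega
      · intro hx
        refine ⟨x, hx, ?_⟩
        rw [Equiv.swap_apply_of_ne_of_ne]
        · intro h4; rw [h4] at hx; omega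
        · intro h4; rw [h4] at hx; omega

theorem swap_dec_mt {c c' : Fin K} {v : ℕ} (h1 : v ≠ c.val + 2) (h2 : v ≠ c'.val + 2) :
    Equiv.swap c c' '' dec K (mt v c.val) = dec K (mt v c'.val) := by
  by_cases h : v = 0
  · subst h
    have e1 : ∀ d : ℕ, mt 0 d = d + 2 := fun d => rfl
    rw [e1, e1, dec_col, dec_col]
    have e2 : ∀ d : Fin K, {x : Fin K | x.val = d.val} = {d} := by
      intro d; ext x; simp [Fin.ext_iff]
    rw [e2, e2, Set.image_singleton, Equiv.swap_apply_left]
  · have e1 : ∀ d : Fin K, v ≠ d.val + 2 → mt v d.val = 1 := by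
      intro d hd
      unfold mt
      rw [decide_eq_false h, decide_eq_false hd]
      rfl
    rw [e1 c h1, e1 c' h2, dec_one, Set.image_empty]

theorem W_swap (x : ℤ) (e : KExpr) (p : List ℕ) (a b : ℕ) (c c' : Fin K) (U V U' V' : Set (Fin K))
    (hp : ∀ l, p.getD l 0 ≠ c.val + 2 ∧ p.getD l 0 ≠ c'.val + 2)
    (hU : Equiv.swap c c' '' U = U') (hV : Equiv.swap c c' '' V = V') :
    W x e (update (update (pat K p) a U) b V) = W x e (update (update (pat K p) a U') b V') := by
  rw [← W_perm x e (Equiv.swap c c') (update (update (pat K p) a U) b V)]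
  congr 1
  funext l
  by_cases hb : l = b
  · rw [hb, update_self, update_self, hV]
  · rw [update_of_ne hb, update_of_ne hb]
    by_cases ha : l = a
    · rw [ha, update_self, update_self, hU]
    · rw [update_of_ne ha, update_of_ne ha]
      exact swap_dec (hp l).1 (hp l).2

theorem DZ_swap (x : ℤ) (e : KExpr) (p : List ℕ) (a b : ℕ) (ha : a < p.length)
    (hb : b < p.length) (c c' : Fin K)
    (hp : ∀ l, p.getD l 0 ≠ c.val + 2 ∧ p.getD l 0 ≠ c'.val + 2) :
    DZ K x e p a b c.val = DZ K x e p a b c'.val := by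
  have hm : ∀ l, Equiv.swap c c' '' dec K (mt (p.getD l 0) c.val) =
      dec K (mt (p.getD l 0) c'.val) := fun l => swap_dec_mt (hp l).1 (hp l).2
  have h1 : Equiv.swap c c' '' dec K 1 = dec K 1 := by
    rw [dec_one, Set.image_empty]
  unfold DZ
  simp only [pat_setp2 p a b _ _ ha hb]
  rw [W_swap x e p a b c c' _ _ _ _ hp (hm a) (hm b), W_swap x e p a b c c' _ _ _ _ hp (hm a) h1,
    W_swap x e p a b c c' _ _ _ _ hp h1 (hm b)]

/-- The recursion for a join, with all colours that do not occur in the pattern treated as one. -/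
theorem W_join_pat (x : ℤ) {a b : ℕ} (hab : a ≠ b) (e : KExpr) (p : List ℕ) (ha : a < p.length)
    (hb : b < p.length) (m : ℕ) (hm : m ≤ K) (hp : ∀ v ∈ p, v < m + 2) (c₀ : ℕ) (hc₀ : c₀ < m)
    (hfree : c₀ + 2 ∉ p) :
    W x (join a b e) (pat K p) = W x e (pat K (setp p a 1)) + W x e (pat K (setp p b 1)) -
      W x e (pat K (setp (setp p a 1) b 1)) + ∑ c ∈ range m, DZ K x e p a b c +
      ((K - m : ℕ) : ℤ) * DZ K x e p a b c₀ := by
  rw [W_join x hab]
  have h1 : ∀ c : Fin K, (W x e (update (update (pat K p) a (pat K p a ∩ {c})) b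
      (pat K p b ∩ {c})) - W x e (update (update (pat K p) a (pat K p a ∩ {c})) b ∅) -
      W x e (update (update (pat K p) a ∅) b (pat K p b ∩ {c})) +
      W x e (update (update (pat K p) a ∅) b ∅)) = DZ K x e p a b c.val := by
    intro c
    unfold DZ
    simp only [pat_setp2 p a b _ _ ha hb, dec_mt, dec_one]
    have e2 : {x : Fin K | x.val = c.val} = {c} := by
      ext x; simp [Fin.ext_iff]
    rw [e2]
    rfl
  rw [Finset.sum_congr rfl (fun c _ => h1 c), Fin.sum_univ_eq_sum_range (DZ K x e p a b) K,
    pat_setp p a 1 ha, pat_setp p b 1 hb, pat_setp2 p a b 1 1 ha hb, dec_one]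
  have h2 : ∑ c ∈ range K, DZ K x e p a b c = ∑ c ∈ range m, DZ K x e p a b c +
      ((K - m : ℕ) : ℤ) * DZ K x e p a b c₀ := by
    rw [← Finset.sum_range_add_sum_Ico _ hm]
    congr 1
    have h3 : ∀ c ∈ Ico m K, DZ K x e p a b c = DZ K x e p a b c₀ := by
      intro c hc
      rw [Finset.mem_Ico] at hc
      have hget : ∀ l, p.getD l 0 = 0 ∨ p.getD l 0 ∈ p := by
        intro l
        by_cases hl : l < p.length
        · right
          rw [List.getD_eq_getElem _ _ hl]
          exact List.getElem_mem _
        · left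
          exact List.getD_eq_default _ _ (by omega)
      refine DZ_swap x e p a b ha hb ⟨c, hc.2⟩ ⟨c₀, by omega⟩ (fun l => ?_)
      rcases hget l with h4 | h4
      · rw [h4]
        constructor <;> simp
      · refine ⟨fun h5 => ?_, fun h5 => hfree (h5 ▸ h4)⟩
        have := hp _ h4
        dsimp only at h5
        omega
    rw [Finset.sum_congr rfl h3, Finset.sum_const, Nat.card_Ico, nsmul_eq_mul]
  rw [h2]
  ring

end Pool.Agent.Helper88.CW
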