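import Pool.Agent.Helper88.CW.Sem

/-!
Recursion formulas for the weighted sums.
-/

namespace Pool.Agent.Helper88.CW

open Finset

namespace KExpr

variable {K : ℕ}

/-- One vertex. -/
def sg (a : ℕ) (s : Option (Fin K)) : ℕ → Set (Fin K) := fun b => {c | b = a ∧ s = some c}

open Classical in
theorem Z_vertex (x : ℤ) (a : ℕ) (F : (ℕ → Set (Fin K)) → ℤ) :
    Z x (vertex a) F = ∑ s : Option (Fin K), wt x s * F (sg a s) := by
  unfold Z
  let E : ((vertex a).V → Option (Fin K)) ≃ Option (Fin K) :=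
    Equiv.funUnique Unit (Option (Fin K))
  refine Fintype.sum_equiv E _ _ (fun σ => ?_)
  have h1 : GoodG (vertex a).graph σ := by
    intro u v h
    exact absurd h (by simp [graph])
  rw [if_pos h1]
  have h2 : ∏ v : (vertex a).V, wt x (σ v) = wt x (E σ) := by
    let E0 : (vertex a).V ≃ Unit := Equiv.refl Unit
    have h3 := Fintype.prod_equiv E0 (fun v : (vertex a).V => wt x (σ v))
      (fun _ : Unit => wt x (E σ)) (fun v => rfl)
    exact h3.trans (Fintype.prod_unique (fun _ : Unit => wt x (E σ)))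
  have h3 : (vertex a).st σ = sg a (E σ) := by
    funext b
    ext c
    constructor
    · rintro ⟨v, hv, hc⟩
      exact ⟨hv.symm, hc⟩
    · rintro ⟨hb, hc⟩
      exact ⟨(() : Unit), hb.symm, hc⟩
  rw [h2, h3]

open Classical in
theorem Z_union (x : ℤ) (e f : KExpr) (F : (ℕ → Set (Fin K)) → ℤ) :
    Z x (union e f) F = Z x e (fun S => Z x f (fun T => F (fun a => S a ∪ T a))) := by
  unfold Z
  let E : ((union e f).V → Option (Fin K)) ≃ (e.V → Option (Fin K)) × (f.V → Option (Fin K)) :=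
    Equiv.sumArrowEquivProdArrow e.V f.V (Option (Fin K))
  have h0 : ∀ (σ : e.V → Option (Fin K)), (if GoodG e.graph σ then (∏ v, wt x (σ v)) *
      (∑ τ : f.V → Option (Fin K), if GoodG f.graph τ then (∏ v, wt x (τ v)) *
        F (fun a => e.st σ a ∪ f.st τ a) else 0) else 0) =
      ∑ τ : f.V → Option (Fin K), (if GoodG e.graph σ then (∏ v, wt x (σ v)) *
      (if GoodG f.graph τ then (∏ v, wt x (τ v)) *
        F (fun a => e.st σ a ∪ f.st τ a) else 0) else 0) := by
    intro σ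
    by_cases h : GoodG e.graph σ
    · simp only [h, if_true]
      rw [Finset.mul_sum]
    · simp [h]
  rw [Finset.sum_congr rfl (fun σ _ => h0 σ)]
  rw [← Fintype.sum_prod_type (fun p : (e.V → Option (Fin K)) × (f.V → Option (Fin K)) =>
    (if GoodG e.graph p.1 then (∏ v, wt x (p.1 v)) *
      (if GoodG f.graph p.2 then (∏ v, wt x (p.2 v)) *
        F (fun a => e.st p.1 a ∪ f.st p.2 a) else 0) else 0))]
  refine Fintype.sum_equiv E _ _ (fun σ => ?_)
  have h1 : GoodG (union e f).graph σ ↔ GoodG e.graph (E σ).1 ∧ GoodG f.graph (E σ).2 := by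
    constructor
    · intro h
      constructor
      · intro u v huv c d hc hd
        exact h (Sum.inl u) (Sum.inl v) huv c d hc hd
      · intro u v huv c d hc hd
        exact h (Sum.inr u) (Sum.inr v) huv c d hc hd
    · rintro ⟨h1, h2⟩ u v huv c d hc hd
      rcases u with u | u <;> rcases v with v | v
      · exact h1 u v huv c d hc hd
      · exact absurd huv (by simp [graph])
      · exact absurd huv (by simp [graph])
      · exact h2 u v huv c d hc hd
  have h2 : ∏ v : (union e f).V, wt x (σ v) =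
      (∏ v, wt x ((E σ).1 v)) * (∏ v, wt x ((E σ).2 v)) := by
    let E0 : (union e f).V ≃ e.V ⊕ f.V := Equiv.refl _
    have h3 := Fintype.prod_equiv E0 (fun v : (union e f).V => wt x (σ v))
      (fun v : e.V ⊕ f.V => wt x (Sum.elim (E σ).1 (E σ).2 v)) (fun v => by
        rcases v with v | v <;> rfl)
    rw [Fintype.prod_sum_type] at h3
    exact h3
  have h3 : (union e f).st σ = fun a => e.st (E σ).1 a ∪ f.st (E σ).2 a := by
    funext a
    ext c
    constructor
    · rintro ⟨v, hv, hc⟩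
      rcases v with v | v
      · exact Or.inl ⟨v, hv, hc⟩
      · exact Or.inr ⟨v, hv, hc⟩
    · rintro (⟨v, hv, hc⟩ | ⟨v, hv, hc⟩)
      · exact ⟨Sum.inl v, hv, hc⟩
      · exact ⟨Sum.inr v, hv, hc⟩
  rw [h2, h3]
  by_cases h4 : GoodG e.graph (E σ).1
  · by_cases h5 : GoodG f.graph (E σ).2
    · rw [if_pos (h1.2 ⟨h4, h5⟩), if_pos h4, if_pos h5, mul_assoc]
    · rw [if_neg (fun h => h5 (h1.1 h).2), if_pos h4, if_neg h5, mul_zero]
  · rw [if_neg (fun h => h4 (h1.1 h).1), if_neg h4]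

theorem join_adj (a b : ℕ) (e : KExpr) (u v : e.V) : (join a b e).graph.Adj u v ↔
    e.graph.Adj u v ∨ (u ≠ v ∧ ((e.lab u = a ∧ e.lab v = b) ∨ (e.lab v = a ∧ e.lab u = b))) := by
  change (e.graph ⊔ SimpleGraph.fromRel (fun u v => e.lab u = a ∧ e.lab v = b)).Adj u v ↔ _
  rw [SimpleGraph.sup_adj, SimpleGraph.fromRel_adj]

open Classical in
theorem Z_join (x : ℤ) (a b : ℕ) (hab : a ≠ b) (e : KExpr) (F : (ℕ → Set (Fin K)) → ℤ) :
    Z x (join a b e) F = Z x e (fun S => if ∀ c ∈ S a, ∀ d ∈ S b, c = d then F S else 0) := by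
  unfold Z
  let E : ((join a b e).V → Option (Fin K)) ≃ (e.V → Option (Fin K)) := Equiv.refl _
  refine Fintype.sum_equiv E _ _ (fun σ => ?_)
  have h1 : GoodG (join a b e).graph σ ↔ GoodG e.graph (E σ) ∧
      ∀ c ∈ e.st (E σ) a, ∀ d ∈ e.st (E σ) b, c = d := by
    constructor
    · intro h
      constructor
      · intro u v huv c d hc hd
        exact h u v ((join_adj a b e u v).2 (Or.inl huv)) c d hc hd
      · rintro c ⟨u, hu, hc⟩ d ⟨v, hv, hd⟩
        refine h u v ((join_adj a b e u v).2 (Or.inr ⟨?_, Or.inl ⟨hu, hv⟩⟩)) c d hc hd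
        rintro rfl
        exact hab (hu.symm.trans hv)
    · rintro ⟨h1, h2⟩ u v huv c d hc hd
      rcases (join_adj a b e u v).1 huv with huv | huv
      · exact h1 u v huv c d hc hd
      · rcases huv.2 with ⟨hu, hv⟩ | ⟨hu, hv⟩
        · exact h2 c ⟨u, hu, hc⟩ d ⟨v, hv, hd⟩
        · exact (h2 d ⟨v, hu, hd⟩ c ⟨u, hv, hc⟩).symm
  have h2 : ∏ v : (join a b e).V, wt x (σ v) = ∏ v, wt x ((E σ) v) :=
    Fintype.prod_equiv (Equiv.refl _) _ _ (fun v => rfl)
  have h3 : (join a b e).st σ = e.st (E σ) := rfl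
  rw [h2, h3]
  beta_reduce
  by_cases h4 : GoodG e.graph (E σ)
  · by_cases h5 : ∀ c ∈ e.st (E σ) a, ∀ d ∈ e.st (E σ) b, c = d
    · rw [if_pos (h1.2 ⟨h4, h5⟩), if_pos h4, if_pos h5]
    · rw [if_neg (fun h => h5 (h1.1 h).2), if_pos h4, if_neg h5, mul_zero]
  · rw [if_neg (fun h => h4 (h1.1 h).1), if_neg h4]

/-- Relabelling of a state. -/
def rl (a b : ℕ) (S : ℕ → Set (Fin K)) : ℕ → Set (Fin K) :=
  fun c => {x | ∃ a', (if a' = a then b else a') = c ∧ x ∈ S a'}

open Classical in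
theorem Z_relabel (x : ℤ) (a b : ℕ) (e : KExpr) (F : (ℕ → Set (Fin K)) → ℤ) :
    Z x (relabel a b e) F = Z x e (fun S => F (rl a b S)) := by
  unfold Z
  let E : ((relabel a b e).V → Option (Fin K)) ≃ (e.V → Option (Fin K)) := Equiv.refl _
  refine Fintype.sum_equiv E _ _ (fun σ => ?_)
  have h1 : GoodG (relabel a b e).graph σ ↔ GoodG e.graph (E σ) := Iff.rfl
  have h2 : ∏ v : (relabel a b e).V, wt x (σ v) = ∏ v, wt x ((E σ) v) :=
    Fintype.prod_equiv (Equiv.refl _) _ _ (fun v => rfl)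
  have h3 : (relabel a b e).st σ = rl a b (e.st (E σ)) := by
    funext c
    ext y
    constructor
    · rintro ⟨v, hv, hy⟩
      exact ⟨e.lab v, hv, v, rfl, hy⟩
    · rintro ⟨a', ha', v, hv, hy⟩
      refine ⟨v, ?_, hy⟩
      change (if e.lab v = a then b else e.lab v) = c
      rw [hv]
      exact ha'
  rw [h2, h3]
  by_cases h4 : GoodG e.graph (E σ)
  · rw [if_pos (h1.2 h4), if_pos h4]
  · rw [if_neg (fun h => h4 (h1.1 h)), if_neg h4]

/-- Changing the test function on the states that occur. -/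
theorem Z_congr (x : ℤ) (e : KExpr) {F F' : (ℕ → Set (Fin K)) → ℤ}
    (h : ∀ σ, F (e.st σ) = F' (e.st σ)) : Z x e F = Z x e F' := by
  unfold Z
  refine Finset.sum_congr rfl (fun σ _ => ?_)
  rw [h]

end KExpr

end Pool.Agent.Helper88.CW
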