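import Pool.Agent.Helper88.CW.Cnt

/-!
The reduction from 3-SAT.
-/

namespace Pool.Agent.Helper88.CW

open Finset Function

namespace KExpr

variable {K : ℕ}

/-- Execution with final state. -/
def Ex : List (ℕ × List ℕ) → (ℕ → Fin K) → (ℕ → Fin K) → Prop
  | [], g, g' => g' = g
  | p :: P, g, g' => ∃ c : Fin K, (∀ a ∈ p.2, c ≠ g a) ∧ Ex P (update g p.1 c) g'

theorem run_append : ∀ (P Q : List (ℕ × List ℕ)) (g : ℕ → Fin K),
    Run (P ++ Q) g ↔ ∃ g', Ex P g g' ∧ Run Q g' := by
  intro P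
  induction P with
  | nil =>
    intro Q g
    simp [Ex]
  | cons p P ih =>
    intro Q g
    rw [List.cons_append]
    change (∃ c : Fin K, (∀ a ∈ p.2, c ≠ g a) ∧ Run (P ++ Q) (update g p.1 c)) ↔
      ∃ g', (∃ c : Fin K, (∀ a ∈ p.2, c ≠ g a) ∧ Ex P (update g p.1 c) g') ∧ Run Q g'
    constructor
    · rintro ⟨c, h1, h2⟩
      obtain ⟨g', h3, h4⟩ := (ih Q _).1 h2
      exact ⟨g', ⟨c, h1, h3⟩, h4⟩
    · rintro ⟨g', ⟨c, h1, h3⟩, h4⟩
      exact ⟨c, h1, (ih Q _).2 ⟨g', h3, h4⟩⟩

/-- Every register is written at most once, and not after it has been read. -/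
def Once : List (ℕ × List ℕ) → Prop
  | [] => True
  | p :: P => p.1 ∉ p.2 ∧ (∀ p' ∈ P, p'.1 ≠ p.1 ∧ p'.1 ∉ p.2) ∧ Once P

theorem ex_once : ∀ (P : List (ℕ × List ℕ)) (_ : Once P) (g g' : ℕ → Fin K),
    Ex P g g' ↔ (∀ r, (∀ p ∈ P, p.1 ≠ r) → g' r = g r) ∧
      ∀ p ∈ P, ∀ a ∈ p.2, g' p.1 ≠ g' a := by
  intro P
  induction P with
  | nil =>
    intro _ g g'
    unfold Ex
    constructor
    · rintro rfl
      exact ⟨fun _ _ => rfl, fun p hp => by simp at hp⟩
    · rintro ⟨h, _⟩
      funext r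
      exact h r (fun p hp => by simp at hp)
  | cons p P ih =>
    rintro ⟨h1, h2, h3⟩ g g'
    unfold Ex
    constructor
    · rintro ⟨c, hc, hex⟩
      obtain ⟨h4, h5⟩ := (ih h3 _ _).1 hex
      have h6 : g' p.1 = c := by
        rw [h4 p.1 (fun p' hp' => (h2 p' hp').1), update_self]
      have h7 : ∀ a ∈ p.2, g' a = g a := by
        intro a ha
        rw [h4 a (fun p' hp' h => (h2 p' hp').2 (h ▸ ha)), update_of_ne]
        rintro rfl
        exact h1 ha
      refine ⟨fun r hr => ?_, fun p' hp' a ha => ?_⟩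
      · rw [h4 r (fun p' hp' => hr p' (List.mem_cons_of_mem _ hp')), update_of_ne]
        exact fun h => hr p (by simp) h.symm
      · rcases List.mem_cons.1 hp' with rfl | hp'
        · rw [h6, h7 a ha]
          exact hc a ha
        · exact h5 p' hp' a ha
    · rintro ⟨h4, h5⟩
      have h7 : ∀ a ∈ p.2, g' a = g a := by
        intro a ha
        refine h4 a (fun p' hp' h => ?_)
        rcases List.mem_cons.1 hp' with rfl | hp'
        · exact h1 (h ▸ ha)
        · exact (h2 p' hp').2 (h ▸ ha)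
      refine ⟨g' p.1, fun a ha => ?_, (ih h3 _ _).2 ⟨fun r hr => ?_, fun p' hp' a ha =>
        h5 p' (List.mem_cons_of_mem _ hp') a ha⟩⟩
      · rw [← h7 a ha]
        exact h5 p (by simp) a ha
      · by_cases hrp : r = p.1
        · subst hrp
          rw [update_self]
        · rw [update_of_ne hrp]
          refine h4 r (fun p' hp' => ?_)
          rcases List.mem_cons.1 hp' with rfl | hp'
          · exact fun h => hrp h.symm
          · exact hr p' hp'

theorem once_append : ∀ (P Q : List (ℕ × List ℕ)), Once P → Once Q →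
    (∀ p ∈ P, ∀ p' ∈ Q, p'.1 ≠ p.1 ∧ p'.1 ∉ p.2) → Once (P ++ Q) := by
  intro P
  induction P with
  | nil => intro Q _ hQ _; exact hQ
  | cons p P ih =>
    rintro Q ⟨h1, h2, h3⟩ hQ h
    refine ⟨h1, fun p' hp' => ?_, ih Q h3 hQ (fun p hp => h p (List.mem_cons_of_mem _ hp))⟩
    rcases List.mem_append.1 hp' with hp' | hp'
    · exact h2 p' hp'
    · exact h p (by simp) p' hp'

/-- Steps that only write a register which is never read are independent. -/
theorem run_indep (r : ℕ) : ∀ (P : List (ℕ × List ℕ)) (_ : ∀ p ∈ P, p.1 = r ∧ r ∉ p.2)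
    (g : ℕ → Fin K), Run P g ↔ ∀ p ∈ P, ∃ c : Fin K, ∀ a ∈ p.2, c ≠ g a := by
  intro P
  induction P with
  | nil =>
    intro _ g
    simp [Run]
  | cons p P ih =>
    intro h g
    have ih' := ih (fun p hp => h p (List.mem_cons_of_mem _ hp))
    obtain ⟨h1, h2⟩ := h p (by simp)
    have h3 : ∀ c : Fin K, (∀ p' ∈ P, ∃ c' : Fin K, ∀ a ∈ p'.2, c' ≠ update g p.1 c a) ↔
        ∀ p' ∈ P, ∃ c' : Fin K, ∀ a ∈ p'.2, c' ≠ g a := by
      intro c
      refine forall_congr' (fun p' => forall_congr' (fun hp' => exists_congr (fun c' =>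
        forall_congr' (fun a => forall_congr' (fun ha => ?_)))))
      have hne : a ≠ p.1 := by
        intro h5
        rw [h5, h1] at ha
        exact (h p' (List.mem_cons_of_mem _ hp')).2 ha
      rw [update_of_ne hne]
    unfold Run
    constructor
    · rintro ⟨c, hc, hrun⟩ p' hp'
      rcases List.mem_cons.1 hp' with rfl | hp'
      · exact ⟨c, hc⟩
      · exact (h3 c).1 ((ih' _).1 hrun) p' hp'
    · intro h4
      obtain ⟨c, hc⟩ := h4 p (by simp)
      exact ⟨c, hc, (ih' _).2 ((h3 c).2 (fun p' hp' => h4 p' (List.mem_cons_of_mem _ hp')))⟩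

/-- Execution does not change registers that are not written. -/
theorem ex_unchanged : ∀ (P : List (ℕ × List ℕ)) (g g' : ℕ → Fin K) (_ : Ex P g g') (r : ℕ)
    (_ : ∀ p ∈ P, p.1 ≠ r), g' r = g r := by
  intro P
  induction P with
  | nil =>
    rintro g g' rfl r _
    rfl
  | cons p P ih =>
    rintro g g' ⟨c, _, hex⟩ r hr
    rw [ih _ _ hex r (fun p hp => hr p (List.mem_cons_of_mem _ hp)), update_of_ne]
    exact fun h => hr p (by simp) h.symm

theorem run_of_ex : ∀ (P : List (ℕ × List ℕ)) (g : ℕ → Fin K), Run P g ↔ ∃ g', Ex P g g' := by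
  intro P g
  have := run_append P [] g
  rw [List.append_nil] at this
  rw [this]
  simp [Run]

end KExpr

open KExpr

/-- Truth of a literal under the bit string `a` of its group. -/
def litTrue (s : ℕ) (l : Lit) (a : ℕ) : Bool := (decide (a / 2 ^ (l.1 % s) % 2 = 1)) == l.2

/-- Auxiliary vertices of a literal. -/
def auxP (s q k : ℕ) (l : Lit) (t : ℕ) : List (ℕ × List ℕ) :=
  ((List.range q).filter (fun a => !(litTrue s l a))).map (fun a =>
    (q + 3 + k + 1, (List.range (q + 3)).filter (fun j => !(decide (j = a)) && !(decide (j = q + t)))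
      ++ [q + 3 + l.1 / s, q + 3 + k]))

/-- The part of the program for a clause. -/
def clauseP (s q k : ℕ) (C : Lit × Lit × Lit) : List (ℕ × List ℕ) :=
  (q + 3 + k, List.range q) :: (auxP s q k C.1 0 ++ (auxP s q k C.2.1 1 ++ auxP s q k C.2.2 2))

/-- The part of the program for the palette and the groups. -/
def baseP (q k : ℕ) : List (ℕ × List ℕ) :=
  (List.range (q + 2)).map (fun j => (j + 1, List.range (j + 1))) ++
    (List.range k).map (fun γ => (q + 3 + γ, [q, q + 1, q + 2]))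

/-- The whole program. -/
def satP (s q k : ℕ) (φ : CNF) : List (ℕ × List ℕ) := baseP q k ++ φ.flatMap (clauseP s q k)

theorem once_baseP (q k : ℕ) : Once (baseP q k) := by
  unfold baseP
  have key : ∀ (m : ℕ) (f : ℕ → ℕ × List ℕ), (∀ i, (f i).1 ∉ (f i).2) →
      (∀ i j, i < j → (f j).1 ≠ (f i).1 ∧ (f j).1 ∉ (f i).2) → Once ((List.range m).map f) := by
    intro m f h1 h2
    induction m with
    | zero => simp [Once]
    | succ m ih =>
      rw [List.range_succ, List.map_append]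
      refine once_append _ _ ih ?_ ?_
      · simp [Once, h1]
      · intro p hp p' hp'
        simp only [List.mem_map, List.mem_range, List.map_cons, List.map_nil,
          List.mem_singleton] at hp hp'
        obtain ⟨i, hi, rfl⟩ := hp
        subst hp'
        exact h2 i m hi
  refine once_append _ _ (key _ _ ?_ ?_) (key _ _ ?_ ?_) ?_
  · intro i; simp
  · intro i j hij
    simp only [List.mem_range]
    omega
  · intro i
    simp
    omega
  · intro i j hij
    simp
    omega
  · intro p hp p' hp'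
    simp only [List.mem_map, List.mem_range] at hp hp'
    obtain ⟨i, hi, rfl⟩ := hp
    obtain ⟨j, hj, rfl⟩ := hp'
    simp only [List.mem_range]
    omega

/-- The condition for a clause. -/
def ClauseOK {K : ℕ} (s q k : ℕ) (g : ℕ → Fin K) (C : Lit × Lit × Lit) : Prop :=
  ∃ c : Fin K, (∀ a < q, c ≠ g a) ∧
    ∀ lt ∈ [(C.1, 0), (C.2.1, 1), (C.2.2, 2)], ∀ a < q, litTrue s lt.1 a = false →
      ∃ c' : Fin K, (∀ j < q + 3, j ≠ a → j ≠ q + lt.2 → c' ≠ g j) ∧
        c' ≠ g (q + 3 + lt.1.1 / s) ∧ c' ≠ c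

theorem run_aux {K : ℕ} (s q k : ℕ) (l : Lit) (t : ℕ) (hl : l.1 / s < k) (ht : t < 3)
    (g : ℕ → Fin K) (c : Fin K) :
    (∀ p ∈ auxP s q k l t, ∃ c' : Fin K, ∀ a ∈ p.2, c' ≠ update g (q + 3 + k) c a) ↔
      ∀ a < q, litTrue s l a = false →
        ∃ c' : Fin K, (∀ j < q + 3, j ≠ a → j ≠ q + t → c' ≠ g j) ∧
        c' ≠ g (q + 3 + l.1 / s) ∧ c' ≠ c := by
  unfold auxP
  simp only [List.mem_map, List.mem_filter, List.mem_range, Bool.not_eq_true',
    forall_exists_index, and_imp]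
  constructor
  · intro h a ha hla
    obtain ⟨c', hc'⟩ := h _ a ha hla rfl
    refine ⟨c', fun j hj h1 h2 => ?_, ?_, ?_⟩
    · have h3 := hc' j (by simp [hj, h1, h2])
      rwa [update_of_ne (by omega)] at h3
    · have h3 := hc' (q + 3 + l.1 / s) (by simp)
      rwa [update_of_ne (by omega)] at h3
    · have h3 := hc' (q + 3 + k) (by simp)
      rwa [update_self] at h3
  · rintro h p a ha hla rfl
    obtain ⟨c', h1, h2, h3⟩ := h a ha hla
    refine ⟨c', fun j hj => ?_⟩
    rw [List.mem_append] at hj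
    rcases hj with hj | hj
    · rw [List.mem_filter, List.mem_range] at hj
      obtain ⟨hj1, hj2⟩ := hj
      simp only [Bool.and_eq_true, Bool.not_eq_true', decide_eq_false_iff_not] at hj2
      rw [update_of_ne (by omega)]
      exact h1 j hj1 hj2.1 hj2.2
    · simp only [List.mem_cons, List.not_mem_nil, or_false] at hj
      rcases hj with rfl | rfl
      · rw [update_of_ne (by omega)]
        exact h2
      · rw [update_self]
        exact h3

theorem mem_auxP {s q k : ℕ} {l : Lit} {t : ℕ} (hl : l.1 / s < k) {p : ℕ × List ℕ}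
    (hp : p ∈ auxP s q k l t) : p.1 = q + 3 + k + 1 ∧ ∀ a ∈ p.2, a < q + 3 + k + 1 := by
  unfold auxP at hp
  simp only [List.mem_map, List.mem_filter, List.mem_range, Bool.not_eq_true'] at hp
  obtain ⟨a, _, rfl⟩ := hp
  refine ⟨rfl, fun j hj => ?_⟩
  rw [List.mem_append] at hj
  rcases hj with hj | hj
  · rw [List.mem_filter, List.mem_range] at hj
    omega
  · simp only [List.mem_cons, List.not_mem_nil, or_false] at hj
    rcases hj with rfl | rfl <;> omega

theorem run_clause {K : ℕ} (s q k : ℕ) (C : Lit × Lit × Lit) (h0 : C.1.1 / s < k)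
    (h1 : C.2.1.1 / s < k) (h2 : C.2.2.1 / s < k) (g : ℕ → Fin K) :
    Run (clauseP s q k C) g ↔ ClauseOK s q k g C := by
  unfold clauseP ClauseOK
  unfold Run
  refine exists_congr (fun c => ?_)
  rw [run_indep (q + 3 + k + 1)]
  · refine and_congr (by simp) ?_
    rw [List.forall_mem_append, List.forall_mem_append]
    rw [run_aux s q k C.1 0 h0 (by omega) g c, run_aux s q k C.2.1 1 h1 (by omega) g c,
      run_aux s q k C.2.2 2 h2 (by omega) g c]
    simp only [List.forall_mem_cons]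
    simp
  · intro p hp
    rw [List.mem_append, List.mem_append] at hp
    rcases hp with hp | hp | hp
    · obtain ⟨h3, h4⟩ := mem_auxP h0 hp
      exact ⟨h3, fun h => absurd (h4 _ h) (by omega)⟩
    · obtain ⟨h3, h4⟩ := mem_auxP h1 hp
      exact ⟨h3, fun h => absurd (h4 _ h) (by omega)⟩
    · obtain ⟨h3, h4⟩ := mem_auxP h2 hp
      exact ⟨h3, fun h => absurd (h4 _ h) (by omega)⟩

theorem mem_clauseP {s q k : ℕ} {C : Lit × Lit × Lit} (h0 : C.1.1 / s < k)
    (h1 : C.2.1.1 / s < k) (h2 : C.2.2.1 / s < k) {p : ℕ × List ℕ} (hp : p ∈ clauseP s q k C) :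
    (p.1 = q + 3 + k ∨ p.1 = q + 3 + k + 1) ∧ ∀ a ∈ p.2, a < q + 3 + k + 1 := by
  unfold clauseP at hp
  rw [List.mem_cons, List.mem_append, List.mem_append] at hp
  rcases hp with rfl | hp | hp | hp
  · exact ⟨Or.inl rfl, fun a ha => by simp at ha; omega⟩
  · exact ⟨Or.inr (mem_auxP h0 hp).1, (mem_auxP h0 hp).2⟩
  · exact ⟨Or.inr (mem_auxP h1 hp).1, (mem_auxP h1 hp).2⟩
  · exact ⟨Or.inr (mem_auxP h2 hp).1, (mem_auxP h2 hp).2⟩

theorem clauseOK_congr {K : ℕ} (s q k : ℕ) (C : Lit × Lit × Lit) (h0 : C.1.1 / s < k)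
    (h1 : C.2.1.1 / s < k) (h2 : C.2.2.1 / s < k) (g g' : ℕ → Fin K)
    (h : ∀ r < q + 3 + k, g' r = g r) : ClauseOK s q k g C → ClauseOK s q k g' C := by
  rintro ⟨c, hc, hc'⟩
  refine ⟨c, fun a ha => ?_, fun lt hlt a ha hla => ?_⟩
  · rw [h a (by omega)]
    exact hc a ha
  · obtain ⟨c', h3, h4, h5⟩ := hc' lt hlt a ha hla
    refine ⟨c', fun j hj h6 h7 => ?_, ?_, h5⟩
    · rw [h j (by omega)]
      exact h3 j hj h6 h7
    · rw [h _ ?_]
      · exact h4
      · simp only [List.mem_cons, List.not_mem_nil, or_false] at hlt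
        rcases hlt with rfl | rfl | rfl <;> simp <;> omega

theorem run_clauses {K : ℕ} (s q k : ℕ) : ∀ (φ : CNF) (_ : ∀ C ∈ φ, C.1.1 / s < k ∧
    C.2.1.1 / s < k ∧ C.2.2.1 / s < k) (g : ℕ → Fin K),
    Run (φ.flatMap (clauseP s q k)) g ↔ ∀ C ∈ φ, ClauseOK s q k g C := by
  intro φ
  induction φ with
  | nil =>
    intro _ g
    simp [Run]
  | cons C φ ih =>
    intro h g
    obtain ⟨h0, h1, h2⟩ := h C (by simp)
    have ih' := ih (fun C hC => h C (List.mem_cons_of_mem _ hC))
    rw [List.flatMap_cons, run_append]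
    have hcore : ∀ g', Ex (clauseP s q k C) g g' → ∀ r < q + 3 + k, g' r = g r := by
      intro g' hex r hr
      refine ex_unchanged _ _ _ hex r (fun p hp => ?_)
      have := (mem_clauseP h0 h1 h2 hp).1
      omega
    constructor
    · rintro ⟨g', hex, hrun⟩ C' hC'
      rcases List.mem_cons.1 hC' with rfl | hC''
      · exact (run_clause s q k C' h0 h1 h2 g).1 ((run_of_ex _ _).2 ⟨g', hex⟩)
      · obtain ⟨h0', h1', h2'⟩ := h C' hC'
        exact clauseOK_congr s q k C' h0' h1' h2' g' g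
          (fun r hr => (hcore g' hex r hr).symm) ((ih' g').1 hrun C' hC'')
    · intro h3
      obtain ⟨g', hex⟩ := (run_of_ex _ _).1
        ((run_clause s q k C h0 h1 h2 g).2 (h3 C (by simp)))
      refine ⟨g', hex, (ih' g').2 (fun C' hC' => ?_)⟩
      obtain ⟨h0', h1', h2'⟩ := h C' (List.mem_cons_of_mem _ hC')
      exact clauseOK_congr s q k C' h0' h1' h2' g g' (hcore g' hex)
        (h3 C' (List.mem_cons_of_mem _ hC'))

end Pool.Agent.Helper88.CW
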