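import Pool.Agent.Helper88.CW.Rec

/-!
Register programs: expressions that build subdivided graphs using one label per register.
-/

namespace Pool.Agent.Helper88.CW

open Finset Function

namespace KExpr

variable {K : ℕ}

/-- A new vertex in register `r`; the old content is forgotten. -/
def newE (r : ℕ) (e : KExpr) : KExpr := union (relabel (r + 2) 0 e) (vertex (r + 2))

/-- A new vertex joined to the contents of the registers `r` and `s`. -/
def edgeE (r s : ℕ) (e : KExpr) : KExpr :=
  relabel 1 0 (join 1 (s + 2) (join 1 (r + 2) (union e (vertex 1))))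

/-- One step of a register program. -/
def stepE (e : KExpr) (p : ℕ × List ℕ) : KExpr :=
  p.2.foldl (fun e s => edgeE p.1 s e) (newE p.1 e)

/-- The expression of a register program. -/
def progE (P : List (ℕ × List ℕ)) : KExpr := P.foldl stepE (newE 0 (vertex 0))

/-- No vertex has the temporary label. -/
def NoTemp (e : KExpr) : Prop := ∀ v, e.lab v ≠ 1

theorem noTemp_newE {e : KExpr} (h : e.NoTemp) (r : ℕ) : (newE r e).NoTemp := by
  intro v
  rcases v with v | v
  · change (if e.lab v = r + 2 then 0 else e.lab v) ≠ 1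
    split_ifs
    · omega
    · exact h v
  · change r + 2 ≠ 1
    omega

theorem noTemp_edgeE (e : KExpr) (r s : ℕ) : (edgeE r s e).NoTemp := by
  intro v
  have h : ∀ n : ℕ, (if n = 1 then 0 else n) ≠ 1 := by
    intro n
    split_ifs <;> omega
  exact h _

/-- The contents of the registers. -/
def regs (S : ℕ → Set (Fin K)) : ℕ → Set (Fin K) := fun r => S (r + 2)

/-- The set of colours of a vertex state. -/
def ss (t : Option (Fin K)) : Set (Fin K) := {c | t = some c}

theorem Z_newE (x : ℤ) (r : ℕ) (e : KExpr) (G : (ℕ → Set (Fin K)) → ℤ) :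
    Z x (newE r e) (fun S => G (regs S)) =
      Z x e (fun S => ∑ t : Option (Fin K), wt x t * G (update (regs S) r (ss t))) := by
  unfold newE
  rw [Z_union, Z_relabel]
  refine Z_congr x e (fun σ => ?_)
  rw [Z_vertex]
  refine Finset.sum_congr rfl (fun t _ => ?_)
  congr 2
  funext r'
  unfold regs rl sg ss
  ext c
  by_cases hr : r' = r
  · subst hr
    rw [update_self]
    constructor
    · rintro (⟨a', h1, h2⟩ | ⟨h1, h2⟩)
      · by_cases h3 : a' = r' + 2
        · rw [if_pos h3] at h1
          omega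
        · rw [if_neg h3] at h1
          exact absurd h1 h3
      · exact h2
    · intro h
      exact Or.inr ⟨rfl, h⟩
  · rw [update_of_ne hr]
    constructor
    · rintro (⟨a', h1, h2⟩ | ⟨h1, h2⟩)
      · by_cases h3 : a' = r + 2
        · rw [if_pos h3] at h1
          omega
        · rw [if_neg h3] at h1
          rw [← h1]; exact h2
      · omega
    · intro h
      refine Or.inl ⟨r' + 2, ?_, h⟩
      rw [if_neg]
      omega

open Classical in
/-- The factor of a subdivision vertex whose neighbours carry the colours in `X`. -/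
noncomputable def fac (x : ℤ) (X : Set (Fin K)) : ℤ :=
  ∑ t : Option (Fin K), wt x t * (if ∀ c ∈ ss t, ∀ d ∈ X, c = d then 1 else 0)

open Classical in
theorem Z_edgeE (x : ℤ) (r s : ℕ) (e : KExpr) (he : e.NoTemp) (G : (ℕ → Set (Fin K)) → ℤ) :
    Z x (edgeE r s e) (fun S => G (regs S)) =
      Z x e (fun S => fac x (regs S r ∪ regs S s) * G (regs S)) := by
  unfold edgeE
  rw [Z_relabel, Z_join _ _ _ (by omega), Z_join _ _ _ (by omega), Z_union]
  refine Z_congr x e (fun σ => ?_)
  rw [Z_vertex]
  unfold fac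
  rw [Finset.sum_mul]
  refine Finset.sum_congr rfl (fun t _ => ?_)
  rw [mul_assoc]
  congr 1
  have h1 : ∀ a, a ≠ 1 → e.st σ a ∪ sg 1 t a = e.st σ a := by
    intro a ha
    ext c
    constructor
    · rintro (h | ⟨h, _⟩)
      · exact h
      · exact absurd h ha
    · exact fun h => Or.inl h
  have h2 : e.st σ 1 ∪ sg 1 t 1 = ss t := by
    ext c
    constructor
    · rintro (⟨v, hv, _⟩ | ⟨_, h⟩)
      · exact absurd hv (he v)
      · exact h
    · exact fun h => Or.inr ⟨rfl, h⟩
  have h3 : regs (rl 1 0 (fun a => e.st σ a ∪ sg 1 t a)) = regs (e.st σ) := by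
    funext r'
    unfold regs
    rw [← h1 (r' + 2) (by omega)]
    ext c
    constructor
    · rintro ⟨a', ha', hc⟩
      by_cases h : a' = 1
      · rw [if_pos h] at ha'
        omega
      · rw [if_neg h] at ha'
        rw [ha'] at hc
        exact hc
    · intro h
      exact ⟨r' + 2, by rw [if_neg (by omega)], h⟩
  beta_reduce
  rw [h2, h3, h1 _ (by omega), h1 _ (by omega)]
  by_cases h4 : ∀ c ∈ ss t, ∀ d ∈ regs (e.st σ) r ∪ regs (e.st σ) s, c = d
  · have h5 : ∀ c ∈ ss t, ∀ d ∈ e.st σ (r + 2), c = d := fun c hc d hd => h4 c hc d (Or.inl hd)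
    have h6 : ∀ c ∈ ss t, ∀ d ∈ e.st σ (s + 2), c = d := fun c hc d hd => h4 c hc d (Or.inr hd)
    rw [if_pos h5, if_pos h6, if_pos h4, one_mul]
  · rw [if_neg h4, zero_mul]
    by_cases h5 : ∀ c ∈ ss t, ∀ d ∈ e.st σ (r + 2), c = d
    · rw [if_pos h5, if_neg]
      intro h6
      apply h4
      rintro c hc d (hd | hd)
      · exact h5 c hc d hd
      · exact h6 c hc d hd
    · rw [if_neg h5]

theorem Z_edges (x : ℤ) (r : ℕ) : ∀ (as : List ℕ) (e : KExpr) (_ : e.NoTemp)
    (G : (ℕ → Set (Fin K)) → ℤ),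
    (as.foldl (fun e s => edgeE r s e) e).NoTemp ∧
    Z x (as.foldl (fun e s => edgeE r s e) e) (fun S => G (regs S)) =
      Z x e (fun S => (as.map (fun a => fac x (regs S r ∪ regs S a))).prod * G (regs S)) := by
  intro as
  induction as with
  | nil =>
    intro e he G
    refine ⟨he, ?_⟩
    simp
  | cons s as ih =>
    intro e he G
    obtain ⟨h1, h2⟩ := ih (edgeE r s e) (noTemp_edgeE e r s) G
    refine ⟨h1, ?_⟩
    rw [List.foldl_cons, h2]
    have h3 := Z_edgeE x r s e he
      (fun R => (as.map (fun a => fac x (R r ∪ R a))).prod * G R)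
    rw [h3]
    refine Z_congr x e (fun σ => ?_)
    simp only [List.map_cons, List.prod_cons]
    ring

/-- The effect of one step on the state. -/
noncomputable def semStep (x : ℤ) (p : ℕ × List ℕ) (G : (ℕ → Set (Fin K)) → ℤ)
    (R : ℕ → Set (Fin K)) : ℤ :=
  ∑ t : Option (Fin K), wt x t * ((p.2.map (fun a => fac x (update R p.1 (ss t) p.1 ∪
    update R p.1 (ss t) a))).prod * G (update R p.1 (ss t)))

theorem Z_stepE (x : ℤ) (p : ℕ × List ℕ) (e : KExpr) (he : e.NoTemp)
    (G : (ℕ → Set (Fin K)) → ℤ) :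
    (stepE e p).NoTemp ∧
    Z x (stepE e p) (fun S => G (regs S)) = Z x e (fun S => semStep x p G (regs S)) := by
  obtain ⟨h1, h2⟩ := Z_edges x p.1 p.2 (newE p.1 e) (noTemp_newE he p.1) G
  refine ⟨h1, ?_⟩
  unfold stepE
  rw [h2]
  exact Z_newE x p.1 e (fun R => (p.2.map (fun a => fac x (R p.1 ∪ R a))).prod * G R)

/-- Semantics of register programs. -/
noncomputable def sem (x : ℤ) : List (ℕ × List ℕ) → (ℕ → Set (Fin K)) → ℤ
  | [], _ => 1
  | p :: P, R => semStep x p (sem x P) R

theorem Z_prog (x : ℤ) : ∀ (P : List (ℕ × List ℕ)) (e : KExpr) (_ : e.NoTemp),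
    Z x (P.foldl stepE e) (fun _ : ℕ → Set (Fin K) => 1) =
      Z x e (fun S : ℕ → Set (Fin K) => sem x P (regs S)) := by
  intro P
  induction P with
  | nil =>
    intro e he
    rfl
  | cons p P ih =>
    intro e he
    obtain ⟨h1, h2⟩ := Z_stepE x p e he (sem (K := K) x P)
    rw [List.foldl_cons, ih _ h1, h2]
    rfl

theorem Z_progE (x : ℤ) (P : List (ℕ × List ℕ)) :
    Z x (progE P) (fun _ : ℕ → Set (Fin K) => 1) = (1 + K * x) *
      ∑ t : Option (Fin K), wt x t * sem x P (update (fun _ => ∅) 0 (ss t)) := by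
  unfold progE
  have h0 : (vertex 0).NoTemp := by
    intro v
    change 0 ≠ 1
    omega
  rw [Z_prog x P _ (noTemp_newE h0 0), Z_newE, Z_vertex]
  have h1 : ∀ s : Option (Fin K), regs (sg 0 s) = fun _ => ∅ := by
    intro s
    funext r
    unfold regs sg
    ext c
    simp
  simp only [h1]
  rw [← Finset.sum_mul]
  congr 1
  rw [Fintype.sum_option]
  simp [wt]

end KExpr

end Pool.Agent.Helper88.CW
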