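import Pool.Agent.Helper88.CW.Post

/-!
Renaming of variables and the parameters of the reduction.
-/

namespace Pool.Agent.Helper88.CW

open Finset Function KExpr
open Pool.Agent.PolyTime (PEnc PolyTime PBd)

/-! ### the list of variables -/

/-- Removal of duplicates. -/
def dd (L : List ℕ) : List ℕ := L.foldl (fun acc v => bif decide (v ∈ acc) then acc else v :: acc) []

theorem dd_aux : ∀ (L acc : List ℕ), acc.Nodup →
    (L.foldl (fun acc v => bif decide (v ∈ acc) then acc else v :: acc) acc).Nodup ∧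
    ∀ v, v ∈ L.foldl (fun acc v => bif decide (v ∈ acc) then acc else v :: acc) acc ↔
      v ∈ L ∨ v ∈ acc := by
  intro L
  induction L with
  | nil => intro acc h; exact ⟨h, fun v => by simp⟩
  | cons a L ih =>
    intro acc h
    rw [List.foldl_cons]
    by_cases ha : a ∈ acc
    · rw [decide_eq_true ha]
      obtain ⟨h1, h2⟩ := ih acc h
      refine ⟨h1, fun v => ?_⟩
      change v ∈ L.foldl _ acc ↔ _
      rw [h2, List.mem_cons]
      constructor
      · rintro (h3 | h3)
        · exact Or.inl (Or.inr h3)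
        · exact Or.inr h3
      · rintro ((rfl | h3) | h3)
        · exact Or.inr ha
        · exact Or.inl h3
        · exact Or.inr h3
    · rw [decide_eq_false ha]
      obtain ⟨h1, h2⟩ := ih (a :: acc) (List.nodup_cons.2 ⟨ha, h⟩)
      refine ⟨h1, fun v => ?_⟩
      change v ∈ L.foldl _ (a :: acc) ↔ _
      rw [h2, List.mem_cons, List.mem_cons]
      tauto

theorem nodup_dd (L : List ℕ) : (dd L).Nodup := (dd_aux L [] List.nodup_nil).1

theorem mem_dd (L : List ℕ) (v : ℕ) : v ∈ dd L ↔ v ∈ L := by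
  have := (dd_aux L [] List.nodup_nil).2 v
  unfold dd
  rw [this]
  simp

theorem pt_dd : PolyTime dd := by
  unfold dd
  refine PolyTime.foldl (l := fun L : List ℕ => L) (s := fun _ => ([] : List ℕ))
    (h := fun _ acc v => bif decide (v ∈ acc) then acc else v :: acc)
    (by fun_prop) (by fun_prop) (by fun_prop) (B := fun L => PolyTime.size L) PBd.size ?_
  intro L i
  have key : ∀ (M acc : List ℕ), PolyTime.size
      (M.foldl (fun acc v => bif decide (v ∈ acc) then acc else v :: acc) acc) ≤
      PolyTime.size M + PolyTime.size acc := by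
    intro M
    induction M with
    | nil => intro acc; simp
    | cons a M ih =>
      intro acc
      rw [List.foldl_cons, Pool.Agent.PolyTime.size_cons]
      by_cases ha : a ∈ acc
      · rw [decide_eq_true ha]
        refine (ih acc).trans ?_
        omega
      · rw [decide_eq_false ha]
        refine (ih (a :: acc)).trans ?_
        rw [Pool.Agent.PolyTime.size_cons]
        omega
  refine (key _ _).trans ?_
  rw [Pool.Agent.PolyTime.size_nil, add_zero]
  exact Pool.Agent.PolyTime.size_sublist (List.take_sublist _ _)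

/-- The list of the variables of a formula. -/
def varsL (φ : CNF) : List ℕ := dd (φ.flatMap (fun C => [C.1.1, C.2.1.1, C.2.2.1]))

theorem pt_varsL : PolyTime varsL := by
  unfold varsL
  refine PolyTime.comp pt_dd ?_
  fun_prop

theorem varsL_toFinset (φ : CNF) : (varsL φ).toFinset = vars φ := by
  ext v
  unfold varsL vars
  rw [List.mem_toFinset, mem_dd, List.mem_flatMap, Finset.mem_biUnion]
  simp

theorem card_vars (φ : CNF) : (vars φ).card = (varsL φ).length := by
  rw [← varsL_toFinset]
  exact List.toFinset_card_of_nodup (nodup_dd _)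

/-- The new name of a variable. -/
def rk (L : List ℕ) (v : ℕ) : ℕ := (L.filter (fun u => decide (u < v))).length

theorem pt_rk : PolyTime (fun p : List ℕ × ℕ => rk p.1 p.2) := by
  unfold rk
  fun_prop

theorem rk_eq (φ : CNF) (v : ℕ) : rk (varsL φ) v = ((vars φ).filter (fun u => u < v)).card := by
  unfold rk
  have hnd : ((varsL φ).filter (fun u => decide (u < v))).Nodup := (nodup_dd _).filter _
  rw [← varsL_toFinset, ← List.toFinset_card_of_nodup hnd]
  congr 1
  ext u
  simp

theorem rk_lt (φ : CNF) (v : ℕ) (hv : v ∈ vars φ) : rk (varsL φ) v < (vars φ).card := by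
  rw [rk_eq]
  refine Finset.card_lt_card ?_
  rw [Finset.ssubset_iff_of_subset (Finset.filter_subset _ _)]
  exact ⟨v, hv, by simp⟩

theorem rk_inj (φ : CNF) {u v : ℕ} (hu : u ∈ vars φ) (hv : v ∈ vars φ)
    (h : rk (varsL φ) u = rk (varsL φ) v) : u = v := by
  rw [rk_eq, rk_eq] at h
  have key : ∀ a b : ℕ, a ∈ vars φ → a < b → ((vars φ).filter (fun u => u < a)).card <
      ((vars φ).filter (fun u => u < b)).card := by
    intro a b ha hab
    refine Finset.card_lt_card ?_
    rw [Finset.ssubset_iff_of_subset]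
    · exact ⟨a, by simp [ha, hab], by simp⟩
    · intro c hc
      rw [Finset.mem_filter] at hc ⊢
      exact ⟨hc.1, hc.2.trans hab⟩
  rcases lt_trichotomy u v with h1 | h1 | h1
  · have := key u v hu h1
    omega
  · exact h1
  · have := key v u hv h1
    omega

/-- The formula with renamed variables. -/
def ren (φ : CNF) : CNF :=
  φ.map (fun C => ((rk (varsL φ) C.1.1, C.1.2), (rk (varsL φ) C.2.1.1, C.2.1.2),
    (rk (varsL φ) C.2.2.1, C.2.2.2)))

theorem pt_ren : PolyTime ren := by
  unfold ren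
  have h0 : PolyTime (fun p : CNF × (Lit × Lit × Lit) => varsL p.1) :=
    PolyTime.comp pt_varsL (by fun_prop)
  have h1 : PolyTime (fun p : CNF × (Lit × Lit × Lit) => rk (varsL p.1) p.2.1.1) :=
    PolyTime.comp (f := fun p : CNF × (Lit × Lit × Lit) => (varsL p.1, p.2.1.1))
      pt_rk (by fun_prop)
  have h2 : PolyTime (fun p : CNF × (Lit × Lit × Lit) => rk (varsL p.1) p.2.2.1.1) :=
    PolyTime.comp (f := fun p : CNF × (Lit × Lit × Lit) => (varsL p.1, p.2.2.1.1))
      pt_rk (by fun_prop)
  have h3 : PolyTime (fun p : CNF × (Lit × Lit × Lit) => rk (varsL p.1) p.2.2.2.1) :=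
    PolyTime.comp (f := fun p : CNF × (Lit × Lit × Lit) => (varsL p.1, p.2.2.2.1))
      pt_rk (by fun_prop)
  refine PolyTime.map (l := fun φ : CNF => φ) (g := fun φ C => ((rk (varsL φ) C.1.1, C.1.2),
    (rk (varsL φ) C.2.1.1, C.2.1.2), (rk (varsL φ) C.2.2.1, C.2.2.2))) (by fun_prop) ?_
  fun_prop

theorem mem_vars {φ : CNF} {C : Lit × Lit × Lit} (hC : C ∈ φ) :
    C.1.1 ∈ vars φ ∧ C.2.1.1 ∈ vars φ ∧ C.2.2.1 ∈ vars φ := by
  unfold vars
  refine ⟨?_, ?_, ?_⟩ <;> rw [Finset.mem_biUnion] <;>
    exact ⟨C, List.mem_toFinset.2 hC, by simp⟩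

theorem sat_ren (φ : CNF) : Sat (ren φ) ↔ Sat φ := by
  classical
  unfold Sat ren
  constructor
  · rintro ⟨ν, hν⟩
    refine ⟨fun v => ν (rk (varsL φ) v), fun C hC => ?_⟩
    exact hν _ (List.mem_map.2 ⟨C, hC, rfl⟩)
  · rintro ⟨ν, hν⟩
    set ν' : ℕ → Bool := fun i => if h : ∃ v ∈ vars φ, rk (varsL φ) v = i then ν h.choose
      else false with hν'
    have key : ∀ v ∈ vars φ, ν' (rk (varsL φ) v) = ν v := by
      intro v hv
      have h : ∃ u ∈ vars φ, rk (varsL φ) u = rk (varsL φ) v := ⟨v, hv, rfl⟩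
      have h1 : ν' (rk (varsL φ) v) = ν h.choose := dif_pos h
      rw [h1]
      congr 1
      exact rk_inj φ h.choose_spec.1 hv h.choose_spec.2
    refine ⟨ν', fun C' hC' => ?_⟩
    rw [List.mem_map] at hC'
    obtain ⟨C, hC, rfl⟩ := hC'
    obtain ⟨h0, h1, h2⟩ := mem_vars hC
    dsimp only
    rw [key _ h0, key _ h1, key _ h2]
    exact hν C hC

/-! ### parameters -/

/-- Size of a group. -/
def pS (n : ℕ) : ℕ := Nat.size n / 2 + 1

/-- Number of groups. -/
def pK (n : ℕ) : ℕ := n / pS n + 1

theorem pS_pos (n : ℕ) : 0 < pS n := Nat.succ_pos _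

theorem lt_pK {n v : ℕ} (hv : v < n) : v / pS n < pK n := by
  unfold pK
  exact Nat.lt_succ_of_le (Nat.div_le_div_right hv.le)

theorem two_pow_pS_le (n : ℕ) : 2 ^ pS n ≤ 2 * n + 2 := by
  unfold pS
  rcases Nat.eq_zero_or_pos n with h | h
  · subst h
    simp
  · have h1 : Nat.size n / 2 ≤ Nat.size n - 1 := by
      have : 0 < Nat.size n := Nat.size_pos.2 h
      omega
    have h2 : 2 ^ (Nat.size n - 1) ≤ n := by
      have : 0 < Nat.size n := Nat.size_pos.2 h
      exact Nat.lt_size.1 (by omega)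
    have h3 : 2 ^ (Nat.size n / 2) ≤ n := (Nat.pow_le_pow_right (by norm_num) h1).trans h2
    rw [pow_succ]
    omega

theorem size_eq_log {n : ℕ} (h : 0 < n) : Nat.size n = Nat.log 2 n + 1 := by
  apply le_antisymm
  · exact Nat.size_le.2 (Nat.lt_pow_succ_log_self (by norm_num) n)
  · exact Nat.lt_size.2 (Nat.pow_log_le_self 2 (by omega))

/-- The width is at most a constant times `n / log n`. -/
theorem width_le (n : ℕ) : 2 ^ pS n + pK n + 7 ≤ 18 * (n / (Nat.log 2 n + 1) + 1) := by
  rcases Nat.eq_zero_or_pos n with h | h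
  · subst h
    simp [pS, pK]
  · rw [← size_eq_log h]
    have hl : 0 < Nat.size n := Nat.size_pos.2 h
    have hlow : 2 ^ (Nat.size n - 1) ≤ n := Nat.lt_size.1 (by omega)
    unfold pK
    have hps : pS n = Nat.size n / 2 + 1 := rfl
    rw [hps]
    set l := Nat.size n with hldef
    set m := n / l with hm
    have hn : n < l * (m + 1) := by
      have h1 := Nat.div_add_mod n l
      have h2 := Nat.mod_lt n hl
      rw [← hm] at h1
      calc n = l * m + n % l := h1.symm
        _ < l * m + l := by omega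
        _ = l * (m + 1) := by ring
    -- number of groups
    have hk : n / (l / 2 + 1) ≤ 2 * m + 1 := by
      have h1 : n < (2 * m + 2) * (l / 2 + 1) := by
        have h2 : l ≤ 2 * (l / 2 + 1) := by omega
        calc n < l * (m + 1) := hn
          _ ≤ 2 * (l / 2 + 1) * (m + 1) := Nat.mul_le_mul_right _ h2
          _ = (2 * m + 2) * (l / 2 + 1) := by ring
      have h3 := (Nat.div_lt_iff_lt_mul (by omega : 0 < l / 2 + 1)).2 h1
      omega
    -- size of the palette
    have hq : 2 ^ (l / 2 + 1) ≤ 8 * (m + 1) := by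
      have h1 : l ≤ 2 * 2 ^ (l - l / 2) := by
        have h2 : l - l / 2 < 2 ^ (l - l / 2) := Nat.lt_two_pow_self
        omega
      have h3 : 2 ^ (l / 2 + 1) * 2 ^ (l - l / 2) = 4 * 2 ^ (l - 1) := by
        rw [← pow_add, show (4 : ℕ) = 2 ^ 2 by norm_num, ← pow_add]
        congr 1
        omega
      have h4 : 0 < 2 ^ (l - l / 2) := by positivity
      refine Nat.le_of_mul_le_mul_right ?_ h4
      rw [h3]
      calc 4 * 2 ^ (l - 1) ≤ 4 * n := Nat.mul_le_mul_left _ hlow
        _ ≤ 4 * (l * (m + 1)) := Nat.mul_le_mul_left _ hn.le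
        _ ≤ 4 * (2 * 2 ^ (l - l / 2) * (m + 1)) :=
          Nat.mul_le_mul_left _ (Nat.mul_le_mul_right _ h1)
        _ = 8 * (m + 1) * 2 ^ (l - l / 2) := by ring
    omega

end Pool.Agent.Helper88.CW
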