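import Pool.Agent.Helper88.CW.Red

/-!
Correctness of the reduction from 3-SAT.
-/

namespace Pool.Agent.Helper88.CW

open Finset Function KExpr

section palette

variable {q k : ℕ}

theorem palette_inj {g : ℕ → Fin (q + 3)}
    (h : ∀ p ∈ baseP q k, ∀ a ∈ p.2, g p.1 ≠ g a) : ∀ i j, i < j → j < q + 3 → g j ≠ g i := by
  intro i j hij hj
  obtain ⟨j, rfl⟩ : ∃ j', j = j' + 1 := ⟨j - 1, by omega⟩
  refine h (j + 1, List.range (j + 1)) ?_ i (by simpa using hij)
  unfold baseP
  rw [List.mem_append]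
  left
  rw [List.mem_map]
  exact ⟨j, by simp; omega, rfl⟩

theorem palette_surj {g : ℕ → Fin (q + 3)}
    (h : ∀ p ∈ baseP q k, ∀ a ∈ p.2, g p.1 ≠ g a) (c : Fin (q + 3)) : ∃ i < q + 3, g i = c := by
  have hinj : Function.Injective (fun i : Fin (q + 3) => g i) := by
    intro i j hij
    rcases lt_trichotomy (i : ℕ) (j : ℕ) with h1 | h1 | h1
    · exact absurd hij.symm (palette_inj h i j h1 j.2)
    · exact Fin.ext h1
    · exact absurd hij (palette_inj h j i h1 i.2)
  obtain ⟨i, hi⟩ := (Finite.injective_iff_surjective.1 hinj) c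
  exact ⟨i, i.2, hi⟩

theorem group_spec {g : ℕ → Fin (q + 3)}
    (h : ∀ p ∈ baseP q k, ∀ a ∈ p.2, g p.1 ≠ g a) (γ : ℕ) (hγ : γ < k) :
    ∃ a < q, g (q + 3 + γ) = g a := by
  obtain ⟨i, hi, h1⟩ := palette_surj h (g (q + 3 + γ))
  have h2 : ∀ b ∈ [q, q + 1, q + 2], g (q + 3 + γ) ≠ g b := by
    refine h (q + 3 + γ, [q, q + 1, q + 2]) ?_
    unfold baseP
    rw [List.mem_append]
    right
    rw [List.mem_map]
    exact ⟨γ, by simpa using hγ, rfl⟩
  refine ⟨i, ?_, h1.symm⟩
  by_contra h3
  refine h2 i ?_ h1.symm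
  simp
  omega

end palette

theorem litTrue_iff (s : ℕ) (l : Lit) (a : ℕ) :
    litTrue s l a = true ↔ Nat.testBit a (l.1 % s) = l.2 := by
  unfold litTrue
  rw [Nat.testBit_eq_decide_div_mod_eq, beq_iff_eq]

/-- The three literals of a clause with their positions. -/
theorem clause_cases {C : Lit × Lit × Lit} {lt : Lit × ℕ}
    (h : lt ∈ [(C.1, 0), (C.2.1, 1), (C.2.2, 2)]) : lt.2 < 3 ∧
      (∀ lt' ∈ [(C.1, 0), (C.2.1, 1), (C.2.2, 2)], lt'.2 = lt.2 → lt' = lt) := by
  simp only [List.mem_cons, List.not_mem_nil, or_false] at h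
  refine ⟨by rcases h with rfl | rfl | rfl <;> simp, ?_⟩
  intro lt' h' h2
  simp only [List.mem_cons, List.not_mem_nil, or_false] at h'
  rcases h with rfl | rfl | rfl <;> rcases h' with rfl | rfl | rfl <;> simp_all

theorem clauseOK_iff {s q k : ℕ} {g : ℕ → Fin (q + 3)}
    (h : ∀ p ∈ baseP q k, ∀ a ∈ p.2, g p.1 ≠ g a) (α : ℕ → ℕ)
    (hα : ∀ γ < k, α γ < q ∧ g (q + 3 + γ) = g (α γ)) (C : Lit × Lit × Lit)
    (h0 : C.1.1 / s < k) (h1 : C.2.1.1 / s < k) (h2 : C.2.2.1 / s < k) :
    ClauseOK s q k g C ↔ ∃ lt ∈ [(C.1, 0), (C.2.1, 1), (C.2.2, 2)],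
      litTrue s lt.1 (α (lt.1.1 / s)) = true := by
  have hk : ∀ lt ∈ [(C.1, 0), (C.2.1, 1), (C.2.2, 2)], lt.1.1 / s < k := by
    intro lt hlt
    simp only [List.mem_cons, List.not_mem_nil, or_false] at hlt
    rcases hlt with rfl | rfl | rfl <;> assumption
  constructor
  · rintro ⟨c, hc, hc'⟩
    obtain ⟨i, hi, hi'⟩ := palette_surj h c
    have hq : q ≤ i := by
      by_contra h3
      exact hc i (by omega) hi'.symm
    obtain ⟨t, ht, rfl⟩ : ∃ t < 3, i = q + t := ⟨i - q, by omega, by omega⟩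
    have hex : ∃ l, (l, t) ∈ [(C.1, 0), (C.2.1, 1), (C.2.2, 2)] := by
      interval_cases t
      · exact ⟨C.1, by simp⟩
      · exact ⟨C.2.1, by simp⟩
      · exact ⟨C.2.2, by simp⟩
    obtain ⟨l, hl⟩ := hex
    refine ⟨(l, t), hl, ?_⟩
    by_contra hf
    rw [Bool.not_eq_true] at hf
    have hγ := hk _ hl
    obtain ⟨h3, h4⟩ := hα _ hγ
    obtain ⟨c', h5, h6, h7⟩ := hc' (l, t) hl (α (l.1 / s)) h3 hf
    obtain ⟨j, hj, hj'⟩ := palette_surj h c'
    by_cases hj1 : j = α (l.1 / s)
    · refine h6 ?_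
      rw [← hj', hj1]
      exact h4.symm
    · by_cases hj2 : j = q + t
      · refine h7 ?_
        rw [← hj', hj2]
        exact hi'
      · exact h5 j hj hj1 hj2 hj'.symm
  · rintro ⟨⟨l, t⟩, hl, htrue⟩
    obtain ⟨ht, huniq⟩ := clause_cases hl
    have hne : ∀ i j, i ≠ j → i < q + 3 → j < q + 3 → g i ≠ g j := by
      intro i j hij hi hj
      rcases lt_or_gt_of_ne hij with h3 | h3
      · exact (palette_inj h i j h3 hj).symm
      · exact palette_inj h j i h3 hi
    dsimp only at ht
    refine ⟨g (q + t), fun a ha => hne _ _ (by omega) (by omega) (by omega), ?_⟩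
    rintro ⟨l', t'⟩ hl' a ha hf
    obtain ⟨ht', -⟩ := clause_cases hl'
    have hγ := hk _ hl'
    obtain ⟨h3, h4⟩ := hα _ hγ
    dsimp only at ht' hγ h3 h4 hf ⊢
    by_cases haa : α (l'.1 / s) = a
    · refine ⟨g (q + t'), fun j hj h5 h6 => hne _ _ (by omega) (by omega) (by omega), ?_, ?_⟩
      · rw [h4]
        exact hne _ _ (by omega) (by omega) (by omega)
      · refine hne _ _ ?_ (by omega) (by omega)
        intro htt
        have htt' : t' = t := by omega
        have := huniq _ hl' htt'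
        simp only [Prod.mk.injEq] at this
        rw [this.1] at haa hf
        dsimp only at htrue
        rw [haa, hf] at htrue
        exact absurd htrue (by simp)
    · refine ⟨g a, fun j hj h5 h6 => hne _ _ (by omega) (by omega) (by omega), ?_, ?_⟩
      · rw [h4]
        exact hne _ _ (Ne.symm haa) (by omega) (by omega)
      · exact hne _ _ (by omega) (by omega) (by omega)

/-- Correctness of the reduction. -/
theorem run_satP (s k : ℕ) (hs : 0 < s) (φ : CNF) (hφ : ∀ C ∈ φ, C.1.1 / s < k ∧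
    C.2.1.1 / s < k ∧ C.2.2.1 / s < k) (g : ℕ → Fin (2 ^ s + 3)) :
    (∃ c, Run (satP s (2 ^ s) k φ) (update g 0 c)) ↔ Sat φ := by
  constructor
  · rintro ⟨c, hrun⟩
    unfold satP at hrun
    rw [run_append] at hrun
    obtain ⟨g', hex, hrun⟩ := hrun
    obtain ⟨-, hpal⟩ := (ex_once _ (once_baseP _ _) _ _).1 hex
    have hgr : ∀ γ : ℕ, ∃ a, γ < k → a < 2 ^ s ∧ g' (2 ^ s + 3 + γ) = g' a := by
      intro γ
      by_cases hγ : γ < k
      · obtain ⟨a, h1, h2⟩ := group_spec hpal γ hγ
        exact ⟨a, fun _ => ⟨h1, h2⟩⟩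
      · exact ⟨0, fun h => absurd h hγ⟩
    choose α hα using hgr
    rw [run_clauses s (2 ^ s) k φ hφ g'] at hrun
    refine ⟨fun v => Nat.testBit (α (v / s)) (v % s), fun C hC => ?_⟩
    obtain ⟨h0, h1, h2⟩ := hφ C hC
    obtain ⟨lt, hlt, htrue⟩ := (clauseOK_iff hpal α hα C h0 h1 h2).1 (hrun C hC)
    rw [litTrue_iff] at htrue
    simp only [List.mem_cons, List.not_mem_nil, or_false] at hlt
    rcases hlt with rfl | rfl | rfl
    · exact Or.inl htrue
    · exact Or.inr (Or.inl htrue)
    · exact Or.inr (Or.inr htrue)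
  · rintro ⟨ν, hν⟩
    set α : ℕ → ℕ := fun γ => Nat.ofBits (fun i : Fin s => ν (γ * s + i)) with hαdef
    have hαlt : ∀ γ, α γ < 2 ^ s := fun γ => Nat.ofBits_lt_two_pow _
    have hαbit : ∀ v, Nat.testBit (α (v / s)) (v % s) = ν v := by
      intro v
      rw [hαdef]
      dsimp only
      rw [Nat.testBit_ofBits_lt _ _ (Nat.mod_lt v hs)]
      congr 1
      rw [mul_comm]
      exact Nat.div_add_mod v s
    set g' : ℕ → Fin (2 ^ s + 3) := fun j =>
      if h : j < 2 ^ s + 3 then ⟨j, h⟩ else if j < 2 ^ s + 3 + k then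
        ⟨α (j - (2 ^ s + 3)), lt_of_lt_of_le (hαlt _) (by omega)⟩ else g j with hg'
    have hg1 : ∀ j (h : j < 2 ^ s + 3), g' j = ⟨j, h⟩ := by
      intro j h
      rw [hg']
      dsimp only
      rw [dif_pos h]
    have hg2 : ∀ γ < k, g' (2 ^ s + 3 + γ) = ⟨α γ, lt_of_lt_of_le (hαlt _) (by omega)⟩ := by
      intro γ hγ
      rw [hg']
      dsimp only
      rw [dif_neg (by omega), if_pos (by omega)]
      congr 2
      omega
    have hpal : ∀ p ∈ baseP (2 ^ s) k, ∀ a ∈ p.2, g' p.1 ≠ g' a := by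
      intro p hp a ha
      unfold baseP at hp
      rw [List.mem_append, List.mem_map, List.mem_map] at hp
      rcases hp with ⟨j, hj, rfl⟩ | ⟨γ, hγ, rfl⟩
      · rw [List.mem_range] at hj ha
        rw [hg1 (j + 1) (by omega), hg1 a (by omega)]
        intro h
        have := congrArg Fin.val h
        dsimp only at this
        omega
      · rw [List.mem_range] at hγ
        simp only [List.mem_cons, List.not_mem_nil, or_false] at ha
        have ha' : a < 2 ^ s + 3 := by omega
        rw [hg2 γ hγ, hg1 a ha']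
        intro h
        have h3 := congrArg Fin.val h
        dsimp only at h3
        have := hαlt γ
        omega
    have hex : Ex (baseP (2 ^ s) k) (update g 0 ⟨0, Nat.succ_pos _⟩) g' := by
      refine (ex_once _ (once_baseP _ _) _ _).2 ⟨fun r hr => ?_, hpal⟩
      by_cases h0 : r = 0
      · subst h0
        rw [update_self, hg1 0 (Nat.succ_pos _)]
      · have h1 : ¬ r < 2 ^ s + 3 := by
          intro h1
          refine hr (r, List.range r) ?_ rfl
          unfold baseP
          rw [List.mem_append, List.mem_map]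
          left
          refine ⟨r - 1, by simp; omega, ?_⟩
          rw [Nat.sub_add_cancel (by omega)]
        have h2 : ¬ r < 2 ^ s + 3 + k := by
          intro h2
          refine hr (r, [2 ^ s, 2 ^ s + 1, 2 ^ s + 2]) ?_ rfl
          unfold baseP
          rw [List.mem_append, List.mem_map, List.mem_map]
          right
          refine ⟨r - (2 ^ s + 3), by simp; omega, ?_⟩
          rw [Nat.add_sub_cancel' (by omega)]
        rw [update_of_ne h0, hg']
        dsimp only
        rw [dif_neg h1, if_neg h2]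
    refine ⟨⟨0, Nat.succ_pos _⟩, ?_⟩
    unfold satP
    rw [run_append]
    refine ⟨g', hex, ?_⟩
    rw [run_clauses s (2 ^ s) k φ hφ g']
    intro C hC
    obtain ⟨h0, h1, h2⟩ := hφ C hC
    refine (clauseOK_iff hpal α (fun γ hγ => ⟨hαlt γ, ?_⟩) C h0 h1 h2).2 ?_
    · rw [hg2 γ hγ, hg1 (α γ) (by have := hαlt γ; omega)]
    · rcases hν C hC with h | h | h
      · exact ⟨(C.1, 0), by simp, by rw [litTrue_iff]; rw [hαbit]; exact h⟩
      · exact ⟨(C.2.1, 1), by simp, by rw [litTrue_iff]; rw [hαbit]; exact h⟩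
      · exact ⟨(C.2.2, 2), by simp, by rw [litTrue_iff]; rw [hαbit]; exact h⟩

/-! Well-formedness -/

theorem wf_mono : ∀ (P : List (ℕ × List ℕ)) (U U' : Set ℕ), U ⊆ U' → WF P U → WF P U' := by
  intro P
  induction P with
  | nil => intro U U' _ _; trivial
  | cons p P ih =>
    rintro U U' hU ⟨h1, h2, h3⟩
    exact ⟨h1, fun a ha => ⟨hU (h2 a ha).1, (h2 a ha).2⟩,
      ih _ _ (Set.insert_subset_insert hU) h3⟩

theorem wf_append : ∀ (P Q : List (ℕ × List ℕ)) (U U' : Set ℕ),
    U' ⊆ U ∪ {r | ∃ p ∈ P, p.1 = r} → WF P U → WF Q U' → WF (P ++ Q) U := by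
  intro P
  induction P with
  | nil =>
    intro Q U U' hU' _ hQ
    refine wf_mono Q U' U (fun r hr => ?_) hQ
    rcases hU' hr with h | ⟨p, hp, _⟩
    · exact h
    · simp at hp
  | cons p P ih =>
    rintro Q U U' hU' ⟨h1, h2, h3⟩ hQ
    refine ⟨h1, h2, ih Q _ U' (fun r hr => ?_) h3 hQ⟩
    rcases hU' hr with h | ⟨p', hp', h⟩
    · exact Or.inl (Or.inr h)
    · rcases List.mem_cons.1 hp' with rfl | hp'
      · exact Or.inl (Or.inl h.symm)
      · exact Or.inr ⟨p', hp', h⟩

theorem wf_base (q k : ℕ) : WF (baseP q k) {0} := by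
  unfold baseP
  have key : ∀ m, WF ((List.range m).map (fun j => (j + 1, List.range (j + 1)))) {0} := by
    intro m
    induction m with
    | zero => simp [WF]
    | succ m ih =>
      rw [List.range_succ, List.map_append]
      refine wf_append _ _ _ {r | r < m + 1} (fun r hr => ?_) ih ?_
      · have hr' : r < m + 1 := hr
        by_cases h0 : r = 0
        · left
          exact h0
        · right
          refine ⟨(r, List.range r), ?_, rfl⟩
          rw [List.mem_map]
          refine ⟨r - 1, by simp; omega, ?_⟩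
          rw [Nat.sub_add_cancel (by omega)]
      · refine ⟨by simp, fun a ha => ?_, trivial⟩
        have ha' : a < m + 1 := by simpa using ha
        exact ⟨ha', by dsimp only; omega⟩
  refine wf_append _ _ _ {r | r < q + 3} (fun r hr => ?_) (key _) ?_
  · have hr' : r < q + 3 := hr
    by_cases h0 : r = 0
    · left
      exact h0
    · right
      refine ⟨(r, List.range r), ?_, rfl⟩
      rw [List.mem_map]
      refine ⟨r - 1, by simp; omega, ?_⟩
      rw [Nat.sub_add_cancel (by omega)]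
  · have key2 : ∀ (L : List ℕ) (U : Set ℕ), (∀ r < q + 3, r ∈ U) →
        WF (L.map (fun γ => (q + 3 + γ, [q, q + 1, q + 2]))) U := by
      intro L
      induction L with
      | nil => intro U _; trivial
      | cons γ L ih =>
        intro U hU
        refine ⟨by simp, fun a ha => ?_, ih _ (fun r hr => Or.inr (hU r hr))⟩
        simp only [List.mem_cons, List.not_mem_nil, or_false] at ha
        have ha' : a < q + 3 := by omega
        exact ⟨hU a ha', by dsimp only; omega⟩
    exact key2 _ _ (fun r hr => hr)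

theorem wf_of_forall : ∀ (P : List (ℕ × List ℕ)) (U : Set ℕ)
    (_ : ∀ p ∈ P, p.2 ≠ [] ∧ ∀ a ∈ p.2, a ∈ U ∧ a ≠ p.1), WF P U := by
  intro P
  induction P with
  | nil => intro U _; trivial
  | cons p P ih =>
    intro U h
    exact ⟨(h p (by simp)).1, (h p (by simp)).2, ih _ (fun p' hp' =>
      ⟨(h p' (List.mem_cons_of_mem _ hp')).1, fun a ha =>
        ⟨Or.inr ((h p' (List.mem_cons_of_mem _ hp')).2 a ha).1,
          ((h p' (List.mem_cons_of_mem _ hp')).2 a ha).2⟩⟩)⟩

theorem wf_clause (s q k : ℕ) (hq : 0 < q) (C : Lit × Lit × Lit) (h0 : C.1.1 / s < k)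
    (h1 : C.2.1.1 / s < k) (h2 : C.2.2.1 / s < k) (U : Set ℕ) (hU : ∀ r < q + 3 + k, r ∈ U) :
    WF (clauseP s q k C) U := by
  unfold clauseP
  refine ⟨?_, fun a ha => ?_, wf_of_forall _ _ (fun p hp => ?_)⟩
  · intro h
    rw [List.range_eq_nil] at h
    omega
  · have ha' : a < q := by simpa using ha
    exact ⟨hU a (by omega), by dsimp only; omega⟩
  · have hp' : p.1 = q + 3 + k + 1 ∧ ∀ a ∈ p.2, a < q + 3 + k + 1 := by
      rw [List.mem_append, List.mem_append] at hp
      rcases hp with hp | hp | hp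
      · exact mem_auxP h0 hp
      · exact mem_auxP h1 hp
      · exact mem_auxP h2 hp
    have hne : ∀ (l : Lit) (t : ℕ), p ∈ auxP s q k l t → p.2 ≠ [] := by
      intro l t h
      unfold auxP at h
      rw [List.mem_map] at h
      obtain ⟨a, _, rfl⟩ := h
      simp
    refine ⟨?_, fun a ha => ⟨?_, ?_⟩⟩
    · rw [List.mem_append, List.mem_append] at hp
      rcases hp with hp | hp | hp
      · exact hne _ _ hp
      · exact hne _ _ hp
      · exact hne _ _ hp
    · have := hp'.2 a ha
      by_cases h3 : a = q + 3 + k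
      · exact Or.inl h3
      · exact Or.inr (hU a (by omega))
    · have := hp'.2 a ha
      omega

theorem wf_satP (s q k : ℕ) (hq : 0 < q) (φ : CNF) (hφ : ∀ C ∈ φ, C.1.1 / s < k ∧
    C.2.1.1 / s < k ∧ C.2.2.1 / s < k) : WF (satP s q k φ) {0} := by
  unfold satP
  refine wf_append _ _ _ {r | r < q + 3 + k} (fun r hr => ?_) (wf_base q k) ?_
  · have hr' : r < q + 3 + k := hr
    by_cases h0 : r = 0
    · left
      exact h0
    · right
      by_cases h1 : r < q + 3
      · refine ⟨(r, List.range r), ?_, rfl⟩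
        unfold baseP
        rw [List.mem_append, List.mem_map]
        left
        refine ⟨r - 1, by simp; omega, ?_⟩
        rw [Nat.sub_add_cancel (by omega)]
      · refine ⟨(r, [q, q + 1, q + 2]), ?_, rfl⟩
        unfold baseP
        rw [List.mem_append, List.mem_map, List.mem_map]
        right
        refine ⟨r - (q + 3), by simp; omega, ?_⟩
        rw [Nat.add_sub_cancel' (by omega)]
  · have key : ∀ (φ : CNF) (U : Set ℕ), (∀ r < q + 3 + k, r ∈ U) → (∀ C ∈ φ, C.1.1 / s < k ∧
        C.2.1.1 / s < k ∧ C.2.2.1 / s < k) → WF (φ.flatMap (clauseP s q k)) U := by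
      intro φ
      induction φ with
      | nil => intro U _ _; trivial
      | cons C φ ih =>
        intro U hU h
        rw [List.flatMap_cons]
        obtain ⟨h0, h1, h2⟩ := h C (by simp)
        refine wf_append _ _ _ U (fun r hr => Or.inl hr) (wf_clause s q k hq C h0 h1 h2 U hU) ?_
        exact ih U hU (fun C' hC' => h C' (List.mem_cons_of_mem _ hC'))
    exact key φ _ (fun r hr => hr) hφ

/-! Labels -/

theorem isK_newE {R r : ℕ} {e : KExpr} (hr : r < R) (he : e.IsK (R + 2)) :
    (newE r e).IsK (R + 2) := by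
  unfold newE
  refine ⟨⟨?_, ?_, he⟩, ?_⟩
  · omega
  · omega
  · change r + 2 < R + 2
    omega

theorem isK_edgeE {R r s : ℕ} {e : KExpr} (hr : r < R) (hs : s < R) (he : e.IsK (R + 2)) :
    (edgeE r s e).IsK (R + 2) := by
  unfold edgeE
  refine ⟨by omega, by omega, by omega, by omega, by omega, by omega, by omega, by omega, he, ?_⟩
  change 1 < R + 2
  omega

theorem isK_stepE {R : ℕ} {e : KExpr} (p : ℕ × List ℕ) (hp : p.1 < R) (hp' : ∀ a ∈ p.2, a < R)
    (he : e.IsK (R + 2)) : (stepE e p).IsK (R + 2) := by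
  unfold stepE
  have key : ∀ (L : List ℕ) (e : KExpr), (∀ a ∈ L, a < R) → e.IsK (R + 2) →
      (L.foldl (fun e s => edgeE p.1 s e) e).IsK (R + 2) := by
    intro L
    induction L with
    | nil => intro e _ he; exact he
    | cons a L ih =>
      intro e hL he
      exact ih _ (fun b hb => hL b (List.mem_cons_of_mem _ hb))
        (isK_edgeE hp (hL a (by simp)) he)
  exact key _ _ hp' (isK_newE hp he)

theorem isK_progE {R : ℕ} (hR : 0 < R) (P : List (ℕ × List ℕ))
    (hP : ∀ p ∈ P, p.1 < R ∧ ∀ a ∈ p.2, a < R) : (progE P).IsK (R + 2) := by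
  unfold progE
  have key : ∀ (P : List (ℕ × List ℕ)) (e : KExpr), (∀ p ∈ P, p.1 < R ∧ ∀ a ∈ p.2, a < R) →
      e.IsK (R + 2) → (P.foldl stepE e).IsK (R + 2) := by
    intro P
    induction P with
    | nil => intro e _ he; exact he
    | cons p P ih =>
      intro e hP he
      exact ih _ (fun p' hp' => hP p' (List.mem_cons_of_mem _ hp'))
        (isK_stepE p (hP p (by simp)).1 (hP p (by simp)).2 he)
  refine key P _ hP (isK_newE hR ?_)
  change 0 < R + 2
  omega

theorem isLin_progE (P : List (ℕ × List ℕ)) : (progE P).IsLin := by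
  have h1 : ∀ (r : ℕ) (e : KExpr), e.IsLin → (newE r e).IsLin := fun r e he => ⟨he, _, rfl⟩
  have h2 : ∀ (r s : ℕ) (e : KExpr), e.IsLin → (edgeE r s e).IsLin := fun r s e he => ⟨he, _, rfl⟩
  have h3 : ∀ (r : ℕ) (L : List ℕ) (e : KExpr), e.IsLin →
      (L.foldl (fun e s => edgeE r s e) e).IsLin := by
    intro r L
    induction L with
    | nil => intro e he; exact he
    | cons a L ih => intro e he; exact ih _ (h2 r a e he)
  have h4 : ∀ (P : List (ℕ × List ℕ)) (e : KExpr), e.IsLin → (P.foldl stepE e).IsLin := by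
    intro P
    induction P with
    | nil => intro e he; exact he
    | cons p P ih => intro e he; exact ih _ (h3 _ _ _ (h1 _ _ he))
  exact h4 P _ (h1 _ _ trivial)

theorem isK_satP (s q k : ℕ) (φ : CNF) (hφ : ∀ C ∈ φ, C.1.1 / s < k ∧
    C.2.1.1 / s < k ∧ C.2.2.1 / s < k) : (progE (satP s q k φ)).IsK (q + k + 7) := by
  have := isK_progE (R := q + k + 5) (by omega) (satP s q k φ) ?_
  · exact this
  intro p hp
  unfold satP at hp
  rw [List.mem_append] at hp
  rcases hp with hp | hp
  · unfold baseP at hp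
    rw [List.mem_append, List.mem_map, List.mem_map] at hp
    rcases hp with ⟨j, hj, rfl⟩ | ⟨γ, hγ, rfl⟩
    · rw [List.mem_range] at hj
      refine ⟨by dsimp only; omega, fun a ha => ?_⟩
      have ha' : a < j + 1 := by simpa using ha
      omega
    · rw [List.mem_range] at hγ
      refine ⟨by dsimp only; omega, fun a ha => ?_⟩
      simp only [List.mem_cons, List.not_mem_nil, or_false] at ha
      omega
  · rw [List.mem_flatMap] at hp
    obtain ⟨C, hC, hp⟩ := hp
    obtain ⟨h0, h1, h2⟩ := hφ C hC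
    obtain ⟨h3, h4⟩ := mem_clauseP h0 h1 h2 hp
    refine ⟨by omega, fun a ha => ?_⟩
    have := h4 a ha
    omega

end Pool.Agent.Helper88.CW
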