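import Pool.Agent.Helper88.CW.Defs

/-!
The subgraph component polynomial at integer points as a sum over partial colourings.
-/

namespace Pool.Agent.Helper88.CW

open Finset

namespace KExpr

instance finiteV : (e : KExpr) → Finite e.V
  | vertex _ => inferInstanceAs (Finite Unit)
  | union e f =>
      haveI := finiteV e
      haveI := finiteV f
      inferInstanceAs (Finite (e.V ⊕ f.V))
  | join _ _ e => finiteV e
  | relabel _ _ e => finiteV e

noncomputable instance fintypeV (e : KExpr) : Fintype e.V := Fintype.ofFinite _

noncomputable instance decEqV (e : KExpr) : DecidableEq e.V := Classical.decEq _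

end KExpr

/-- The weight of a vertex state. -/
def wt {K : ℕ} (x : ℤ) (s : Option (Fin K)) : ℤ := if s.isSome then x else 1

section graph

variable {V : Type} [Fintype V] [DecidableEq V] (G : SimpleGraph V) {K : ℕ}

/-- Adjacent present vertices have the same colour. -/
def GoodG (σ : V → Option (Fin K)) : Prop :=
  ∀ u v, G.Adj u v → ∀ c d, σ u = some c → σ v = some d → c = d

open Classical in
/-- Colourings with a given support correspond to colourings of the components. -/
noncomputable def goodEquiv (A : Set V) :
    {σ : V → Option (Fin K) // GoodG G σ ∧ {v | (σ v).isSome} = A} ≃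
      ((G.induce A).ConnectedComponent → Fin K) where
  toFun σ := fun C => C.lift (fun v => (σ.1 v.1).get (by
      have h2 : v.1 ∈ {v | (σ.1 v).isSome} := σ.2.2.symm ▸ v.2
      exact h2)) (by
      intro v w p _
      induction p with
      | nil => rfl
      | @cons u v w h p ih =>
        refine Eq.trans ?_ (ih (by assumption |> fun h => (SimpleGraph.Walk.cons_isPath_iff _ _).1 h |>.1))
        exact σ.2.1 u.1 v.1 h _ _ (Option.some_get _).symm (Option.some_get _).symm)
  invFun f := ⟨fun v => if h : v ∈ A then
      some (f ((G.induce A).connectedComponentMk ⟨v, h⟩)) else none, by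
      constructor
      · intro u v huv c d hc hd
        by_cases hu : u ∈ A
        · by_cases hv : v ∈ A
          · simp only [hu, hv, dite_true, Option.some.injEq] at hc hd
            rw [← hc, ← hd]
            congr 1
            exact SimpleGraph.ConnectedComponent.sound (SimpleGraph.Adj.reachable (by simpa using huv))
          · simp [hv] at hd
        · simp [hu] at hc
      · ext v
        by_cases hv : v ∈ A <;> simp [hv]⟩
  left_inv σ := by
    apply Subtype.ext
    funext v
    by_cases hv : v ∈ A
    · simp [hv]
    · simp only [hv, dite_false]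
      have h := σ.2.2
      have h2 : v ∉ {v | (σ.1 v).isSome} := by rw [h]; exact hv
      simp only [Set.mem_ofPred_eq, Bool.not_eq_true, Option.isSome_eq_false_iff,
        Option.isNone_iff_eq_none] at h2
      exact h2.symm
  right_inv f := by
    funext C
    induction C using SimpleGraph.ConnectedComponent.ind with
    | _ v => simp

open Classical in
theorem prod_wt (x : ℤ) (σ : V → Option (Fin K)) :
    ∏ v, wt x (σ v) = x ^ ({v | (σ v).isSome} : Set V).ncard := by
  have h : ∏ v, wt x (σ v) = x ^ (univ.filter (fun v => (σ v).isSome)).card := by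
    unfold wt
    rw [Finset.prod_ite]
    simp
  rw [h]
  congr 1
  rw [Set.ncard_eq_toFinset_card']
  congr 1
  ext v
  simp

open Classical in
theorem sum_good (x : ℤ) :
    ∑ σ : V → Option (Fin K), (if GoodG G σ then ∏ v, wt x (σ v) else 0) =
      ∑ A : Set V, x ^ A.ncard * (K : ℤ) ^ (Nat.card (G.induce A).ConnectedComponent) := by
  rw [← Finset.sum_fiberwise (univ) (fun σ : V → Option (Fin K) => ({v | (σ v).isSome} : Set V))]
  refine Finset.sum_congr rfl (fun A _ => ?_)
  rw [← Finset.sum_filter, Finset.filter_filter]
  have h1 : ∀ σ ∈ univ.filter (fun σ : V → Option (Fin K) =>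
      ({v | (σ v).isSome} : Set V) = A ∧ GoodG G σ), ∏ v, wt x (σ v) = x ^ A.ncard := by
    intro σ hσ
    rw [Finset.mem_filter] at hσ
    rw [prod_wt, hσ.2.1]
  rw [Finset.sum_congr rfl h1, Finset.sum_const]
  have h2 : (univ.filter (fun σ : V → Option (Fin K) =>
      ({v | (σ v).isSome} : Set V) = A ∧ GoodG G σ)).card =
      K ^ (Nat.card (G.induce A).ConnectedComponent) := by
    have h3 := Nat.card_congr (goodEquiv (K := K) G A)
    rw [Nat.card_eq_fintype_card, Fintype.card_subtype, Nat.card_fun, Nat.card_eq_fintype_card (α := Fin K),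
      Fintype.card_fin] at h3
    rw [← h3]
    congr 1
    ext σ
    simp only [Finset.mem_filter, Finset.mem_univ, true_and]
    exact and_comm
  rw [h2, nsmul_eq_mul, mul_comm]
  push_cast
  rfl

end graph

namespace KExpr

/-- The labelled state of a partial colouring. -/
def st {K : ℕ} (e : KExpr) (σ : e.V → Option (Fin K)) : ℕ → Set (Fin K) :=
  fun a => {c | ∃ v, e.lab v = a ∧ σ v = some c}

open Classical in
/-- Weighted sum over partial colourings, tested against a function of the labelled state. -/
noncomputable def Z {K : ℕ} (x : ℤ) (e : KExpr) (F : (ℕ → Set (Fin K)) → ℤ) : ℤ :=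
  ∑ σ : e.V → Option (Fin K), if GoodG e.graph σ then (∏ v, wt x (σ v)) * F (e.st σ) else 0

open Classical in
theorem card_cc_le (e : KExpr) (A : Set e.V) :
    Nat.card (e.graph.induce A).ConnectedComponent ≤ e.order := by
  have h1 : Nat.card (e.graph.induce A).ConnectedComponent ≤ Nat.card A :=
    Nat.card_le_card_of_surjective (fun v => (e.graph.induce A).connectedComponentMk v)
      Quot.mk_surjective
  have h2 : Nat.card A ≤ Nat.card e.V := Finite.card_subtype_le _
  exact h1.trans h2

open Classical in
theorem ncard_le (e : KExpr) (A : Set e.V) : A.ncard ≤ e.order := by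
  have h2 : Nat.card A ≤ Nat.card e.V := Finite.card_subtype_le _
  exact h2

open Classical in
/-- The subgraph component polynomial at an integer point. -/
theorem Z_one {K : ℕ} (x : ℤ) (e : KExpr) :
    Z x e (fun _ : ℕ → Set (Fin K) => 1) = ∑ i ∈ range (e.order + 1), ∑ j ∈ range (e.order + 1),
      (e.q i j : ℤ) * (x ^ i * (K : ℤ) ^ j) := by
  have h1 : Z x e (fun _ : ℕ → Set (Fin K) => 1) = ∑ A : Set e.V, x ^ A.ncard *
      (K : ℤ) ^ (Nat.card (e.graph.induce A).ConnectedComponent) := by
    rw [← sum_good]
    unfold Z
    refine Finset.sum_congr rfl (fun σ _ => ?_)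
    simp
  rw [h1]
  have h2 : ∀ i j, (e.q i j : ℤ) * (x ^ i * (K : ℤ) ^ j) = ∑ A : Set e.V,
      if i = A.ncard then (if j = Nat.card (e.graph.induce A).ConnectedComponent then
        x ^ i * (K : ℤ) ^ j else 0) else 0 := by
    intro i j
    unfold q
    rw [Nat.card_eq_fintype_card, Fintype.card_subtype]
    have h3 : ∀ A : Set e.V, (if i = A.ncard then
        (if j = Nat.card (e.graph.induce A).ConnectedComponent then
        x ^ i * (K : ℤ) ^ j else 0) else 0) =
        if (A.ncard = i ∧ Nat.card (e.graph.induce A).ConnectedComponent = j) then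
        x ^ i * (K : ℤ) ^ j else 0 := by
      intro A
      by_cases h4 : i = A.ncard
      · by_cases h5 : j = Nat.card (e.graph.induce A).ConnectedComponent
        · simp [h4, h5]
        · rw [if_pos h4, if_neg h5, if_neg (fun h => h5 h.2.symm)]
      · rw [if_neg h4, if_neg (fun h => h4 h.1.symm)]
    rw [Finset.sum_congr rfl (fun A _ => h3 A), ← Finset.sum_filter, Finset.sum_const,
      nsmul_eq_mul]
  rw [Finset.sum_congr rfl (fun i _ => Finset.sum_congr rfl (fun j _ => h2 i j))]
  rw [Finset.sum_congr rfl (fun i _ => Finset.sum_comm), Finset.sum_comm]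
  refine Finset.sum_congr rfl (fun A _ => ?_)
  have h6 : ∀ i, (∑ j ∈ range (e.order + 1), if i = A.ncard then
      (if j = Nat.card (e.graph.induce A).ConnectedComponent then
      x ^ i * (K : ℤ) ^ j else 0) else 0) = if i = A.ncard then x ^ i * (K : ℤ) ^
        (Nat.card (e.graph.induce A).ConnectedComponent) else 0 := by
    intro i
    by_cases h4 : i = A.ncard
    · simp only [h4, if_true]
      rw [Finset.sum_ite_eq', if_pos]
      rw [Finset.mem_range]
      have := card_cc_le e A
      omega
    · simp [h4]
  rw [Finset.sum_congr rfl (fun i _ => h6 i), Finset.sum_ite_eq', if_pos]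
  rw [Finset.mem_range]
  have := ncard_le e A
  omega

end KExpr

end Pool.Agent.Helper88.CW
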