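import Pool.Agent.Helper88.CW.Rec

/-!
The weighted sum with one constraint per label, and its recursion.
-/

namespace Pool.Agent.Helper88.CW

open Finset Function

namespace KExpr

variable {K : ℕ}

open Classical in
/-- The indicator of a proposition. -/
noncomputable def ind (P : Prop) : ℤ := if P then 1 else 0

theorem ind_pos {P : Prop} (h : P) : ind P = 1 := if_pos h

theorem ind_neg {P : Prop} (h : ¬ P) : ind P = 0 := if_neg h

theorem ind_congr {P Q : Prop} (h : P ↔ Q) : ind P = ind Q := by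
  rw [propext h]

theorem ind_and (P Q : Prop) : ind (P ∧ Q) = ind P * ind Q := by
  by_cases hP : P
  · by_cases hQ : Q
    · rw [ind_pos hP, ind_pos hQ, ind_pos ⟨hP, hQ⟩, one_mul]
    · rw [ind_neg hQ, ind_neg (fun h => hQ h.2), mul_zero]
  · rw [ind_neg hP, ind_neg (fun h => hP h.1), zero_mul]

/-- The colours of every label satisfy the constraint of the label. -/
noncomputable def tst (A S : ℕ → Set (Fin K)) : ℤ := ind (∀ a, S a ⊆ A a)

/-- The weighted sum over partial colourings that satisfy the constraints. -/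
noncomputable def W (x : ℤ) (e : KExpr) (A : ℕ → Set (Fin K)) : ℤ := Z x e (tst A)

theorem Z_add (x : ℤ) (e : KExpr) (F G : (ℕ → Set (Fin K)) → ℤ) :
    Z x e (fun S => F S + G S) = Z x e F + Z x e G := by
  unfold Z
  rw [← Finset.sum_add_distrib]
  refine Finset.sum_congr rfl (fun σ _ => ?_)
  split_ifs
  · ring
  · ring

theorem Z_mul (x : ℤ) (e : KExpr) (c : ℤ) (F : (ℕ → Set (Fin K)) → ℤ) :
    Z x e (fun S => c * F S) = c * Z x e F := by
  unfold Z
  rw [Finset.mul_sum]
  refine Finset.sum_congr rfl (fun σ _ => ?_)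
  split_ifs
  · ring
  · ring

theorem Z_sub (x : ℤ) (e : KExpr) (F G : (ℕ → Set (Fin K)) → ℤ) :
    Z x e (fun S => F S - G S) = Z x e F - Z x e G := by
  have h : (fun S => F S - G S) = fun S => F S + (-1) * G S := by
    funext S
    ring
  rw [h, Z_add, Z_mul]
  ring

theorem Z_zero (x : ℤ) (e : KExpr) : Z x e (fun _ : ℕ → Set (Fin K) => 0) = 0 := by
  unfold Z
  refine Finset.sum_eq_zero (fun σ _ => ?_)
  split_ifs
  · ring
  · rfl

theorem Z_sum {ι : Type} (x : ℤ) (e : KExpr) (s : Finset ι)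
    (F : ι → (ℕ → Set (Fin K)) → ℤ) :
    Z x e (fun S => ∑ i ∈ s, F i S) = ∑ i ∈ s, Z x e (F i) := by
  classical
  induction s using Finset.induction_on with
  | empty => simp only [Finset.sum_empty]; exact Z_zero x e
  | insert i s hi ih =>
    simp only [Finset.sum_insert hi]
    rw [Z_add, ih]

open Classical in
theorem W_vertex (x : ℤ) (a : ℕ) (A : ℕ → Set (Fin K)) :
    W x (vertex a) A = 1 + x * ∑ c : Fin K, ind (c ∈ A a) := by
  unfold W
  rw [Z_vertex, Fintype.sum_option, Finset.mul_sum]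
  congr 1
  · have h : tst A (sg a none) = 1 := by
      refine ind_pos (fun b c hc => ?_)
      exact absurd hc.2 (by simp)
    rw [h]
    simp [wt]
  · refine Finset.sum_congr rfl (fun c _ => ?_)
    have h : tst A (sg a (some c)) = ind (c ∈ A a) := by
      refine ind_congr ⟨fun h => h a ⟨rfl, rfl⟩, ?_⟩
      rintro h b d ⟨rfl, hd⟩
      rw [Option.some.injEq] at hd
      rw [← hd]
      exact h
    rw [h]
    simp [wt]

theorem W_union (x : ℤ) (e f : KExpr) (A : ℕ → Set (Fin K)) :
    W x (union e f) A = W x e A * W x f A := by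
  unfold W
  rw [Z_union]
  have h : ∀ S T : ℕ → Set (Fin K), tst A (fun a => S a ∪ T a) = tst A S * tst A T := by
    intro S T
    unfold tst
    rw [← ind_and]
    refine ind_congr ⟨fun h => ⟨fun a => ?_, fun a => ?_⟩, fun h a => ?_⟩
    · exact Set.subset_union_left.trans (h a)
    · exact Set.subset_union_right.trans (h a)
    · exact Set.union_subset (h.1 a) (h.2 a)
  simp only [h, Z_mul]
  have h2 : (fun S => tst A S * Z x f (tst A)) = fun S => Z x f (tst A) * tst A S := by
    funext S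
    ring
  rw [h2, Z_mul]
  ring

theorem W_relabel (x : ℤ) (a b : ℕ) (e : KExpr) (A : ℕ → Set (Fin K)) :
    W x (relabel a b e) A = W x e (update A a (A b)) := by
  unfold W
  rw [Z_relabel]
  congr 1
  funext S
  unfold tst
  refine ind_congr ⟨fun h l c hc => ?_, fun h l c hc => ?_⟩
  · have h1 := h (if l = a then b else l) ⟨l, rfl, hc⟩
    by_cases hl : l = a
    · rw [if_pos hl] at h1
      rw [hl, update_self]
      exact h1
    · rw [if_neg hl] at h1
      rw [update_of_ne hl]
      exact h1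
  · obtain ⟨l', hl', hc'⟩ := hc
    have h1 := h l' hc'
    by_cases h2 : l' = a
    · rw [if_pos h2] at hl'
      rw [h2, update_self, hl'] at h1
      exact h1
    · rw [if_neg h2] at hl'
      rw [update_of_ne h2, hl'] at h1
      exact h1

theorem join_id (Sa Sb Aa Ab : Set (Fin K)) :
    ind (∀ c ∈ Sa, ∀ d ∈ Sb, c = d) * (ind (Sa ⊆ Aa) * ind (Sb ⊆ Ab)) =
      ind (Sa ⊆ ∅) * ind (Sb ⊆ Ab) + ind (Sa ⊆ Aa) * ind (Sb ⊆ ∅) - ind (Sa ⊆ ∅) * ind (Sb ⊆ ∅) +
      ∑ c : Fin K, (ind (Sa ⊆ Aa ∩ {c}) * ind (Sb ⊆ Ab ∩ {c}) -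
        ind (Sa ⊆ Aa ∩ {c}) * ind (Sb ⊆ ∅) - ind (Sa ⊆ ∅) * ind (Sb ⊆ Ab ∩ {c}) +
        ind (Sa ⊆ ∅) * ind (Sb ⊆ ∅)) := by
  rcases Set.eq_empty_or_nonempty Sa with rfl | ⟨c₀, hc₀⟩
  · have h1 : ind (∀ c ∈ (∅ : Set (Fin K)), ∀ d ∈ Sb, c = d) = 1 :=
      ind_pos (fun c hc => absurd hc (Set.notMem_empty c))
    have h2 : ∀ B : Set (Fin K), ind (∅ ⊆ B) = 1 := fun B => ind_pos (Set.empty_subset B)
    simp only [h1, h2, one_mul]
    rw [Finset.sum_eq_zero (fun c _ => by ring)]
    ring
  · have hSa : ind (Sa ⊆ ∅) = 0 := ind_neg (fun h => h hc₀)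
    rcases Set.eq_empty_or_nonempty Sb with rfl | ⟨d₀, hd₀⟩
    · have h1 : ind (∀ c ∈ Sa, ∀ d ∈ (∅ : Set (Fin K)), c = d) = 1 :=
        ind_pos (fun c _ d hd => absurd hd (Set.notMem_empty d))
      have h2 : ∀ B : Set (Fin K), ind (∅ ⊆ B) = 1 := fun B => ind_pos (Set.empty_subset B)
      simp only [h1, h2, hSa]
      rw [Finset.sum_eq_zero (fun c _ => by ring)]
      ring
    · have hSb : ind (Sb ⊆ ∅) = 0 := ind_neg (fun h => h hd₀)
      simp only [hSa, hSb, zero_mul, mul_zero, sub_zero, add_zero, zero_add]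
      by_cases hall : ∀ c ∈ Sa, ∀ d ∈ Sb, c = d
      · rw [ind_pos hall, one_mul, Finset.sum_eq_single c₀]
        · have ha : Sa ⊆ {c₀} := fun c hc => (hall c hc d₀ hd₀).trans (hall c₀ hc₀ d₀ hd₀).symm
          have hb : Sb ⊆ {c₀} := fun d hd => (hall c₀ hc₀ d hd).symm
          congr 1
          · exact ind_congr ⟨fun h => Set.subset_inter h ha, fun h => h.trans Set.inter_subset_left⟩
          · exact ind_congr ⟨fun h => Set.subset_inter h hb, fun h => h.trans Set.inter_subset_left⟩
        · intro c _ hc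
          rw [ind_neg (fun h => hc (h hc₀).2.symm), zero_mul]
        · intro h
          exact absurd (Finset.mem_univ _) h
      · rw [ind_neg hall, zero_mul]
        symm
        refine Finset.sum_eq_zero (fun c _ => ?_)
        rw [← ind_and]
        refine ind_neg (fun h => hall (fun c' hc' d' hd' => ?_))
        have h1 : c' = c := (h.1 hc').2
        have h2 : d' = c := (h.2 hd').2
        rw [h1, h2]

theorem tst_update2 {a b : ℕ} (hab : a ≠ b) (A S : ℕ → Set (Fin K)) (U V : Set (Fin K)) :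
    tst (update (update A a U) b V) S =
      ind (∀ l, l ≠ a → l ≠ b → S l ⊆ A l) * (ind (S a ⊆ U) * ind (S b ⊆ V)) := by
  unfold tst
  rw [← ind_and, ← ind_and]
  refine ind_congr ⟨fun h => ⟨fun l hla hlb => ?_, ?_, ?_⟩, fun h l => ?_⟩
  · have := h l
    rwa [update_of_ne hlb, update_of_ne hla] at this
  · have := h a
    rwa [update_of_ne hab, update_self] at this
  · have := h b
    rwa [update_self] at this
  · by_cases hlb : l = b
    · rw [hlb, update_self]
      exact h.2.2
    · rw [update_of_ne hlb]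
      by_cases hla : l = a
      · rw [hla, update_self]
        exact h.2.1
      · rw [update_of_ne hla]
        exact h.1 l hla hlb

open Classical in
theorem W_join (x : ℤ) {a b : ℕ} (hab : a ≠ b) (e : KExpr) (A : ℕ → Set (Fin K)) :
    W x (join a b e) A = W x e (update A a ∅) + W x e (update A b ∅) -
      W x e (update (update A a ∅) b ∅) +
      ∑ c : Fin K, (W x e (update (update A a (A a ∩ {c})) b (A b ∩ {c})) -
        W x e (update (update A a (A a ∩ {c})) b ∅) - W x e (update (update A a ∅) b (A b ∩ {c})) +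
        W x e (update (update A a ∅) b ∅)) := by
  have h1 : update A a ∅ = update (update A a ∅) b (A b) := by
    funext l
    by_cases hl : l = b
    · rw [hl, update_self, update_of_ne hab.symm]
    · exact (update_of_ne hl _ _).symm
  have h2 : update A b ∅ = update (update A a (A a)) b ∅ := by
    rw [update_eq_self]
  have h3 : A = update (update A a (A a)) b (A b) := by
    rw [update_eq_self, update_eq_self]
  have h4 : ∀ S : ℕ → Set (Fin K), (if ∀ c ∈ S a, ∀ d ∈ S b, c = d then tst A S else 0) =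
      tst (update (update A a ∅) b (A b)) S + tst (update (update A a (A a)) b ∅) S -
      tst (update (update A a ∅) b ∅) S +
      ∑ c : Fin K, (tst (update (update A a (A a ∩ {c})) b (A b ∩ {c})) S -
        tst (update (update A a (A a ∩ {c})) b ∅) S - tst (update (update A a ∅) b (A b ∩ {c})) S +
        tst (update (update A a ∅) b ∅) S) := by
    intro S
    have h5 : (if ∀ c ∈ S a, ∀ d ∈ S b, c = d then tst A S else 0) =
        ind (∀ c ∈ S a, ∀ d ∈ S b, c = d) * tst A S := by
      by_cases h : ∀ c ∈ S a, ∀ d ∈ S b, c = d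
      · rw [if_pos h, ind_pos h, one_mul]
      · rw [if_neg h, ind_neg h, zero_mul]
    rw [h5]
    conv_lhs => rw [h3]
    simp only [tst_update2 hab]
    have h6 := join_id (S a) (S b) (A a) (A b)
    calc ind (∀ c ∈ S a, ∀ d ∈ S b, c = d) * (ind (∀ l, l ≠ a → l ≠ b → S l ⊆ A l) *
          (ind (S a ⊆ A a) * ind (S b ⊆ A b)))
        = ind (∀ l, l ≠ a → l ≠ b → S l ⊆ A l) * (ind (∀ c ∈ S a, ∀ d ∈ S b, c = d) *
          (ind (S a ⊆ A a) * ind (S b ⊆ A b))) := by ring
      _ = _ := by
        rw [h6, mul_add, Finset.mul_sum]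
        congr 1
        · ring
        · refine Finset.sum_congr rfl (fun c _ => ?_)
          ring
  unfold W
  rw [Z_join _ _ _ hab]
  simp only [h4]
  rw [Z_add, Z_sub, Z_add, Z_sum]
  simp only [Z_add, Z_sub]
  rw [← h1, ← h2]

/-! ### symmetry -/

open Classical in
theorem Z_perm (x : ℤ) (e : KExpr) (π : Equiv.Perm (Fin K)) (F : (ℕ → Set (Fin K)) → ℤ) :
    Z x e (fun S => F (fun a => π '' S a)) = Z x e F := by
  unfold Z
  let E : (e.V → Option (Fin K)) ≃ (e.V → Option (Fin K)) :=
    Equiv.piCongrRight (fun _ => Equiv.optionCongr π)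
  refine Fintype.sum_equiv E _ _ (fun σ => ?_)
  have hE : ∀ v, E σ v = (σ v).map π := fun v => rfl
  have h1 : GoodG e.graph (E σ) ↔ GoodG e.graph σ := by
    constructor
    · intro h u v huv c d hc hd
      have := h u v huv (π c) (π d) (by rw [hE, hc]; rfl) (by rw [hE, hd]; rfl)
      exact π.injective this
    · intro h u v huv c d hc hd
      rw [hE, Option.map_eq_some_iff] at hc hd
      obtain ⟨c', hc', rfl⟩ := hc
      obtain ⟨d', hd', rfl⟩ := hd
      rw [h u v huv c' d' hc' hd']
  have h2 : ∏ v, wt x (E σ v) = ∏ v, wt x (σ v) := by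
    refine Finset.prod_congr rfl (fun v _ => ?_)
    unfold wt
    rw [hE, Option.isSome_map]
  have h3 : e.st (E σ) = fun a => π '' e.st σ a := by
    funext a
    ext c
    constructor
    · rintro ⟨v, hv, hc⟩
      rw [hE, Option.map_eq_some_iff] at hc
      obtain ⟨c', hc', rfl⟩ := hc
      exact ⟨c', ⟨v, hv, hc'⟩, rfl⟩
    · rintro ⟨c', ⟨v, hv, hc'⟩, rfl⟩
      exact ⟨v, hv, by rw [hE, hc']; rfl⟩
  rw [h2, h3]
  by_cases h : GoodG e.graph σ
  · rw [if_pos h, if_pos (h1.2 h)]
  · rw [if_neg h, if_neg (fun h' => h (h1.1 h'))]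

theorem W_perm (x : ℤ) (e : KExpr) (π : Equiv.Perm (Fin K)) (A : ℕ → Set (Fin K)) :
    W x e (fun a => π '' A a) = W x e A := by
  unfold W
  rw [← Z_perm x e π (tst (fun a => π '' A a))]
  congr 1
  funext S
  unfold tst
  refine ind_congr ⟨fun h a => ?_, fun h a => ?_⟩
  · exact (Set.image_subset_image_iff π.injective).1 (h a)
  · exact Set.image_mono (h a)

end KExpr

end Pool.Agent.Helper88.CW
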